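import Pool.Agent.H58.AC.Mtr
import Pool.Graph.R_pool_sql_team_seeded_efc1946e.K1H80.AV.Geo4

/-!
# Algebraic independence and derivations
-/

set_option autoImplicit false
set_option linter.unusedSectionVars false

namespace Pool.Agent.H58.AC

open Pool.Agent.K1H80.EC (IsD isD_left isD_right exists_ext exists_der_ext)
open Pool.Agent.K1H80.AV Pool.Agent.K1H80
open MvPolynomial Module Set

section rank

variable {F U : Type} [Field F] [Field U] [Algebra F U]

theorem rk_le {N g : ℕ} (q : Fin N → U)
    (H : ∀ (m : ℕ) (b : Fin m → Fin N), AlgebraicIndependent F (fun i => q (b i)) → m ≤ g) :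
    (AlgebraicIndependent.matroid F U).eRk (range q) ≤ g := by
  set M := AlgebraicIndependent.matroid F U with hM
  obtain ⟨B, hB⟩ := M.exists_isBasis (range q) (by
    rw [hM, AlgebraicIndependent.matroid_e]; exact subset_univ _)
  have hfin : B.Finite := (finite_range q).subset hB.subset
  obtain ⟨m, hm⟩ : ∃ m : ℕ, B.encard = m := ⟨_, hfin.cast_ncard_eq.symm⟩
  obtain ⟨b, hb1, hb2⟩ := exists_enum q hB.subset hm
  have h1 : AlgebraicIndependent F (fun i => q (b i)) := by
    rw [← algebraicIndependent_subtype_range hb1, hb2]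
    exact AlgebraicIndependent.matroid_indep_iff.1 hB.indep
  rw [← hB.encard_eq_eRk, hm]
  exact_mod_cast H m b h1

theorem rk_ge {ι : Type} [Fintype ι] (y : ι → U) (hy : AlgebraicIndependent F y) {R : Set U}
    (hR : range y ⊆ R) : (Fintype.card ι : ℕ∞) ≤ (AlgebraicIndependent.matroid F U).eRk R := by
  set M := AlgebraicIndependent.matroid F U with hM
  have h1 : M.Indep (range y) := AlgebraicIndependent.matroid_indep_iff.2 hy.to_subtype_range
  have h2 : (range y).encard = Fintype.card ι := by
    rw [← image_univ, hy.injective.encard_image, encard_univ, ENat.card_eq_coe_fintype_card]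
  rw [← h2, ← h1.eRk_eq_encard]
  exact M.eRk_mono hR

theorem mem_cl {S : Set U} {x : U} :
    x ∈ (AlgebraicIndependent.matroid F U).closure S ↔ IsAlgebraic (Algebra.adjoin F S) x := by
  rw [AlgebraicIndependent.matroid_closure_eq]
  rfl

theorem indep_sum {ι1 ι2 : Type} {b1 : ι1 → U} {b2 : ι2 → U} (h1 : Function.Injective b1)
    (h2 : Function.Injective b2)
    (hi : (AlgebraicIndependent.matroid F U).Indep (range b1 ∪ range b2))
    (hd : Disjoint (range b1) (range b2)) : AlgebraicIndependent F (Sum.elim b1 b2) := by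
  have h3 : Function.Injective (Sum.elim b1 b2) := h1.sumElim h2 fun a b h =>
    Set.disjoint_left.1 hd ⟨a, rfl⟩ ⟨b, h.symm⟩
  rw [← algebraicIndependent_subtype_range h3]
  refine AlgebraicIndependent.matroid_indep_iff.1 ?_
  rwa [Sum.elim_range]

end rank

section ext

variable {F E U : Type} [Field F] [Field E] [Field U] [Algebra F E] [Algebra F U] [Algebra E U]
  [IsScalarTower F E U]

theorem indep_ext {ι ι' : Type} (x : ι → E) (y : ι' → U)
    (h : AlgebraicIndependent F (Sum.elim y fun i => algebraMap E U (x i))) :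
    AlgebraicIndependent (IntermediateField.adjoin F (range x)) y := by
  rw [IntermediateField.algebraicIndependent_adjoin_iff]
  have h1 := (AlgebraicIndependent.sumElim_iff.1 h).2
  let ψ : E →ₐ[F] U := IsScalarTower.toAlgHom F E U
  have hmem : ∀ t : Algebra.adjoin F (range x), ψ t ∈
      Algebra.adjoin F (range fun i => algebraMap E U (x i)) := by
    intro t
    have h2 : (Algebra.adjoin F (range x)).map ψ =
        Algebra.adjoin F (range fun i => algebraMap E U (x i)) := by
      rw [AlgHom.map_adjoin, ← range_comp]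
      rfl
    rw [← h2]
    exact ⟨t, t.2, rfl⟩
  let f : Algebra.adjoin F (range x) →+* Algebra.adjoin F (range fun i => algebraMap E U (x i)) :=
    ((ψ.toRingHom.comp (Algebra.adjoin F (range x)).val.toRingHom).codRestrict
      (Algebra.adjoin F (range fun i => algebraMap E U (x i))).toSubring hmem)
  refine AlgebraicIndependent.of_ringHom_of_comp_eq f (RingHom.id U) h1 ?_ ?_
  · intro a b hab
    have h3 : ψ a = ψ b := congrArg Subtype.val hab
    exact Subtype.ext ((algebraMap E U).injective h3)
  · rfl

theorem alg_ext {ι : Type} {x : ι → E} {S : Set U} {v : U}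
    (hv : IsAlgebraic (Algebra.adjoin F (S ∪ range fun i => algebraMap E U (x i))) v) :
    IsAlgebraic (Algebra.adjoin (IntermediateField.adjoin F (range x)) S) v := by
  refine EC.isAlg_mono' (E := F) Subtype.val_injective ?_ hv
  rintro _ (hs | ⟨i, rfl⟩)
  · exact ⟨⟨_, Algebra.subset_adjoin hs⟩, rfl⟩
  · exact ⟨algebraMap (IntermediateField.adjoin F (range x)) _
      ⟨x i, IntermediateField.subset_adjoin F (range x) ⟨i, rfl⟩⟩, rfl⟩

theorem alg_down {ι : Type} {x : ι → E} {v : E}
    (hv : IsAlgebraic (Algebra.adjoin F (range fun i => algebraMap E U (x i))) (algebraMap E U v)) :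
    IsAlgebraic (Algebra.adjoin F (range x)) v := by
  obtain ⟨p, hp0, hp⟩ := hv
  let ψ : E →ₐ[F] U := IsScalarTower.toAlgHom F E U
  have h2 : (Algebra.adjoin F (range x)).map ψ =
      Algebra.adjoin F (range fun i => algebraMap E U (x i)) := by
    rw [AlgHom.map_adjoin, ← range_comp]
    rfl
  have hsur : ∀ t : Algebra.adjoin F (range fun i => algebraMap E U (x i)),
      ∃ t' : Algebra.adjoin F (range x), algebraMap E U t' = t := by
    intro t
    have h3 : (t : U) ∈ (Algebra.adjoin F (range x)).map ψ := by rw [h2]; exact t.2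
    obtain ⟨t', ht', ht⟩ := h3
    exact ⟨⟨t', ht'⟩, ht⟩
  choose g hg using hsur
  let f : Algebra.adjoin F (range fun i => algebraMap E U (x i)) →+* Algebra.adjoin F (range x) :=
    { toFun := g
      map_one' := Subtype.ext ((algebraMap E U).injective (by rw [hg]; simp))
      map_mul' := fun a b => Subtype.ext ((algebraMap E U).injective (by
        rw [hg, MulMemClass.coe_mul, MulMemClass.coe_mul, map_mul, hg, hg]))
      map_zero' := Subtype.ext ((algebraMap E U).injective (by rw [hg]; simp))
      map_add' := fun a b => Subtype.ext ((algebraMap E U).injective (by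
        rw [hg, AddMemClass.coe_add, AddMemClass.coe_add, map_add, hg, hg])) }
  have hf : Function.Injective f := by
    intro a b hab
    apply Subtype.ext
    rw [← hg a, ← hg b]
    exact congrArg (fun t : Algebra.adjoin F (range x) => algebraMap E U t) hab
  refine ⟨p.map f, (Polynomial.map_ne_zero_iff hf).2 hp0, ?_⟩
  apply (algebraMap E U).injective
  rw [map_zero, ← hp, Polynomial.aeval_def, Polynomial.eval₂_map, Polynomial.hom_eval₂,
    Polynomial.aeval_def]
  congr 1
  ext t
  exact hg t

end ext

section der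

variable {F E : Type} [Field F] [CharZero F] [Field E] [Algebra F E]

/-- derivations of algebraic elements -/
theorem der_alg {m ν : ℕ} (b : Fin m → E) (hb : AlgebraicIndependent F b) (z : Fin ν → E)
    (hz : ∀ t, IsAlgebraic (Algebra.adjoin F (range b)) (z t)) :
    ∃ ez : Fin ν → Fin m → E, (∀ t s, IsAlgebraic (Algebra.adjoin F (range b)) (ez t s)) ∧
      ∀ (κ : Type) [Field κ] [CharZero κ] [Algebra F κ] [Algebra E κ] [IsScalarTower F E κ]
        (δ : Derivation F κ κ) (t : Fin ν), δ (algebraMap E κ (z t)) =
          ∑ s, algebraMap E κ (ez t s) * δ (algebraMap E κ (b s)) := by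
  have hcE : CharZero E := charZero_of_injective_algebraMap (algebraMap F E).injective
  let A0 := Algebra.adjoin F (range b)
  let E0 : Subalgebra A0 E := Subalgebra.algebraicClosure A0 E
  let E1 : IntermediateField F E :=
    { carrier := {x | IsAlgebraic A0 x}
      mul_mem' := fun ha hb => ha.mul hb
      one_mem' := isAlgebraic_one
      add_mem' := fun ha hb => ha.add hb
      zero_mem' := isAlgebraic_zero
      algebraMap_mem' := fun r => isAlgebraic_algebraMap (R := A0) (algebraMap F A0 r)
      inv_mem' := fun x hx => hx.inv }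
  have hmem : ∀ x, x ∈ E1 ↔ IsAlgebraic A0 x := fun x => Iff.rfl
  have hcE1 : CharZero E1 := charZero_of_injective_algebraMap (algebraMap F E1).injective
  have hbE1 : ∀ s, b s ∈ E1 := fun s => (hmem _).2
    (isAlgebraic_algebraMap (R := A0) (⟨b s, Algebra.subset_adjoin ⟨s, rfl⟩⟩ : A0))
  let b' : Fin m → E1 := fun s => ⟨b s, hbE1 s⟩
  have hb' : AlgebraicIndependent F b' := by
    refine AlgebraicIndependent.of_comp E1.val ?_
    exact hb
  choose D hD0 hD using fun s : Fin m => exists_der_ext (k := F) (E := F) (K := E1) 0 b' hb'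
    (fun j => if j = s then 1 else 0)
  let z' : Fin ν → E1 := fun t => ⟨z t, (hmem _).2 (hz t)⟩
  refine ⟨fun t s => (D s (z' t) : E1), fun t s => (hmem _).1 (D s (z' t)).2, ?_⟩
  intro κ _ _ _ _ _ δ t
  -- the restriction to `E1`
  let φ : E1 →+* κ := (algebraMap E κ).comp (algebraMap E1 E)
  have h1 : IsD φ (fun x : E1 => δ (φ x)) := ⟨fun x y => by
    simp only [map_add], fun x y => by
    simp only [map_mul]
    rw [δ.leibniz, smul_eq_mul, smul_eq_mul]⟩
  have h2 : IsD φ (fun x : E1 => ∑ s, φ (D s x) * δ (φ (b' s))) := ⟨fun x y => by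
    simp only [map_add, add_mul, Finset.sum_add_distrib], fun x y => by
    simp only [Derivation.leibniz, map_add, smul_eq_mul, map_mul, add_mul, Finset.sum_add_distrib,
      Finset.mul_sum, mul_assoc]⟩
  let K := h1.eqField h2
  have hK : ∀ x, x ∈ K ↔ δ (φ x) = ∑ s, φ (D s x) * δ (φ (b' s)) := fun x => Iff.rfl
  have hle : ∀ a ∈ Algebra.adjoin F (range b), ∃ h : a ∈ E1, (⟨a, h⟩ : E1) ∈ K := by
    intro a ha
    induction ha using Algebra.adjoin_induction with
    | mem w hw =>
      obtain ⟨i, rfl⟩ := hw
      refine ⟨hbE1 i, (hK _).2 ?_⟩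
      rw [Finset.sum_eq_single i]
      · have h3 : D i (b' i) = 1 := by rw [hD, if_pos rfl]
        change _ = φ (D i (b' i)) * _
        rw [h3, map_one, one_mul]
      · intro j _ hj
        have h3 : D j (b' i) = 0 := by rw [hD, if_neg (Ne.symm hj)]
        change φ (D j (b' i)) * _ = 0
        rw [h3, map_zero, zero_mul]
      · intro h; exact absurd (Finset.mem_univ i) h
    | algebraMap r =>
      refine ⟨E1.algebraMap_mem r, (hK _).2 ?_⟩
      have h3 : φ (⟨algebraMap F E r, E1.algebraMap_mem r⟩ : E1) = algebraMap F κ r := by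
        rw [IsScalarTower.algebraMap_apply F E κ]
        rfl
      have h4 : ∀ s, D s (⟨algebraMap F E r, E1.algebraMap_mem r⟩ : E1) = 0 := fun s => by
        have := hD0 s r
        rw [Derivation.zero_apply] at this
        exact this
      rw [h3, δ.map_algebraMap]
      symm
      refine Finset.sum_eq_zero fun s _ => ?_
      rw [h4, map_zero, zero_mul]
    | add v w _ _ h3 h4 =>
      obtain ⟨h3, h3'⟩ := h3
      obtain ⟨h4, h4'⟩ := h4
      exact ⟨E1.add_mem h3 h4, K.add_mem h3' h4'⟩
    | mul v w _ _ h3 h4 =>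
      obtain ⟨h3, h3'⟩ := h3
      obtain ⟨h4, h4'⟩ := h4
      exact ⟨E1.mul_mem h3 h4, K.mul_mem h3' h4'⟩
  have hcK : CharZero K :=
    ⟨fun a b h => by
      have h2 := congrArg (algebraMap K E1) h
      rw [map_natCast, map_natCast] at h2
      exact_mod_cast h2⟩
  have hxK : IsAlgebraic K (z' t) := by
    obtain ⟨p, hp0, hp⟩ := hz t
    choose g hg using hle
    let f : Algebra.adjoin F (range b) →+* K :=
      { toFun := fun a => ⟨⟨a, g a a.2⟩, hg a a.2⟩
        map_one' := rfl
        map_mul' := fun _ _ => rfl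
        map_zero' := rfl
        map_add' := fun _ _ => rfl }
    have hf : Function.Injective f := fun a a' h =>
      Subtype.ext (congrArg (fun w : K => ((w : E1) : E)) h)
    refine ⟨p.map f, (Polynomial.map_ne_zero_iff hf).2 hp0, ?_⟩
    apply Subtype.ext
    have h3 : ((Polynomial.aeval (z' t) (p.map f) : E1) : E) =
        Polynomial.aeval (z t) p := by
      rw [Polynomial.aeval_def, Polynomial.eval₂_map, Polynomial.aeval_def]
      have h4 := Polynomial.hom_eval₂ p ((algebraMap K E1).comp f) (E1.val : E1 →+* E) (z' t)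
      exact h4
    rw [h3, hp]
    rfl
  exact h1.eq_of_alg h2 (E := K) (fun c => c.2) hxK

end der

end Pool.Agent.H58.AC
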