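import Mathlib

/-!
# Plücker coordinates
-/

set_option autoImplicit false

namespace Pool.Agent.H58.AC

open Module

/-- The Plücker coordinates of the subspace of `K^M` with the basis `t 0, …, t n`: the minors of the
matrix with the rows `t 0, …, t n`. -/
noncomputable def pl {K : Type} [Field K] {n M : ℕ} (t : Fin (n + 1) → Fin M → K)
    (s : Fin (n + 1) → Fin M) : K :=
  (Matrix.of fun i j => t i (s j)).det

/-- a minor is nonzero -/
theorem exists_pl {K : Type} [Field K] {n M : ℕ} {t : Fin (n + 1) → Fin M → K}
    (ht : LinearIndependent K t) : ∃ s, pl t s ≠ 0 := by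
  classical
  let A : Matrix (Fin (n + 1)) (Fin M) K := Matrix.of t
  have hrank : A.rank = n + 1 := by
    have h1 : A.rank = Fintype.card (Fin (n + 1)) := LinearIndependent.rank_matrix ht
    rw [h1, Fintype.card_fin]
  rw [Matrix.rank_eq_finrank_span_cols] at hrank
  obtain ⟨f, hf1, hf2, hf3⟩ := Submodule.exists_fun_fin_finrank_span_eq K (Set.range A.col)
  choose s hs using hf1
  have hli : LinearIndependent K (fun j : Fin (n + 1) => A.col (s (Fin.cast hrank.symm j))) := by
    have h1 : (fun j : Fin (n + 1) => A.col (s (Fin.cast hrank.symm j))) =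
        f ∘ Fin.cast hrank.symm := by
      funext j
      exact hs _
    rw [h1]
    exact hf3.comp _ (Fin.cast_injective _)
  refine ⟨fun j => s (Fin.cast hrank.symm j), ?_⟩
  unfold pl
  have h2 : IsUnit (Matrix.of fun i j => t i (s (Fin.cast hrank.symm j))) := by
    rw [← Matrix.linearIndependent_cols_iff_isUnit]
    exact hli
  exact ((Matrix.isUnit_iff_isUnit_det _).1 h2).ne_zero

end Pool.Agent.H58.AC
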