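import Pool.Agent.H58.AC.He
import Pool.Agent.H58.AC.Pl

/-!
# From the ultraproduct to the members
-/

set_option autoImplicit false
set_option linter.unusedSectionVars false
set_option linter.unusedVariables false

namespace Pool.Agent.H58.AC

open Pool.Agent.K1H80 Pool.Agent.K1H80.AV
open FF Filter MvPolynomial Module Pool.Agent.W603.LV Pool.Agent.W603.PV Pool.Agent.W603.CZ
open Pool.Agent.Y731.FG
open Pool.Agent.K1H80.EC (BQ mem_BQ IsD isD_left isD_right)
open scoped Classical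

variable {I : Type} {𝒰 : Ultrafilter I} {k F : Type} [Field k] [IsAlgClosed k] [CharZero k]
  [Field F] [Algebra k F] {L : I → Type} [∀ i, Field (L i)] [∀ i, Algebra k (L i)]
  [∀ i, Algebra F (L i)] [∀ i, IsScalarTower k F (L i)]
  [∀ i, IsFF k (L i)] {Δ : Dt 𝒰 k F L} {M r n w : ℕ}

theorem um_pl (t : ∀ i, Fin (n + 1) → Fin M → L i) (s : Fin (n + 1) → Fin M) :
    um 𝒰 (fun i => pl (t i) s) = pl (fun j a => um 𝒰 (fun i => t i j a)) s := by
  have h2 : (fun i => pl (t i) s) =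
      (Matrix.of fun j j' => ((fun i => t i j (s j')) : ∀ i, L i)).det := by
    funext i
    exact (RingHom.map_det (Pi.evalRingHom L i)
      (Matrix.of fun j j' => ((fun i => t i j (s j')) : ∀ i, L i))).symm
  rw [h2]
  unfold pl
  show (Ideal.Quotient.mk (ui 𝒰 L)) _ = _
  rw [RingHom.map_det]
  rfl

/-- **From the ultraproduct to the members.** -/
theorem asm (G : Fin w → MvPolynomial (Fin M) F) (d : Fin w → ℕ) (x : ∀ i, Fin M → L i)
    (hx : ∀ i, ∃ c, x i c ≠ 0) (hxG : ∀ i, ∃ j, aeval (x i) (G j) ≠ 0)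
    (t : ∀ i, Fin (n + 1) → Fin M → L i) (ht : ∀ i, LinearIndependent (L i) (t i))
    (e'' : Fin r ⊕ Fin (n + 1) ≃ Fin M) (W : (Fin r → Fin M) → UL 𝒰 L) {γ : UL 𝒰 L} (hγ : γ ≠ 0)
    (hW : ∀ s, W s = γ * dt e'' (Es s) (Matrix.of fun a j => um 𝒰 (fun i => t i j a)))
    (hcore : ∃ e1 : Om k L → ℤ, Ng 𝒰 Δ.χ (hp k (fun a => um 𝒰 (fun i => x i a))) e1 ∧
      ∀ᶠ ω in EV 𝒰 k L, ∀ (s : Fin r → Fin M), W s ≠ 0 →
        ∀ m : ℤ, (∀ j, aeval (fun a => um 𝒰 (fun i => x i a)) (G j) = 0 ∨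
          m + d j * mo (fun a => um 𝒰 (fun i => x i a)) ω ≤
            oo (aeval (fun a => um 𝒰 (fun i => x i a)) (G j)) ω) →
        (n + 1) * mo (fun a => um 𝒰 (fun i => x i a)) ω - oo (W s) ω +
          (m - if 0 < m then 1 else 0) ≤ e1 ω) {ε : ℝ} (hε : 0 < ε) :
    ∃ B : ℝ, ∀ᶠ i in (𝒰 : Filter I), ((hgtP k (pl (t i)) - (n + 1) * hgtP k (x i) +
      ∑ᶠ P : Place k (L i), locH G d P (x i) : ℤ) : ℝ) ≤
        ({P : Place k (L i) | 0 < locH G d P (x i)}.ncard : ℝ) + ε * (hgtP k (x i) : ℝ) +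
          B * Δ.χ i := by
  set xu : Fin M → UL 𝒰 L := fun a => um 𝒰 (fun i => x i a) with hxu
  set T : Fin (n + 1) → Fin M → UL 𝒰 L := fun j a => um 𝒰 (fun i => t i j a) with hT
  obtain ⟨e1, he1, h1⟩ := hcore
  obtain ⟨B, hB⟩ := he1 ε hε
  refine ⟨B, ?_⟩
  -- the minors
  have hmin : ∀ s0 : Fin (n + 1) → Fin M, pl T s0 ≠ 0 → ∃ s' : Fin r → Fin M,
      W s' ≠ 0 ∧ (W s' = γ * pl T s0 ∨ W s' = -(γ * pl T s0)) := by
    intro s0 hs0
    have h2 : (Matrix.of fun b b' => (Matrix.of fun a j => T j a : Matrix (Fin M) (Fin (n + 1))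
        (UL 𝒰 L)) (s0 b) b').det = pl T s0 := by
      unfold pl
      rw [← Matrix.det_transpose]
      rfl
    obtain ⟨s', hs'⟩ := exists_minor e'' (Matrix.of fun a j => T j a) s0 (by rw [h2]; exact hs0)
    rw [h2] at hs'
    refine ⟨s', ?_, ?_⟩
    · rw [hW]
      refine mul_ne_zero hγ ?_
      rcases hs' with h3 | h3
      · rw [h3]; exact hs0
      · rw [h3]; exact neg_ne_zero.2 hs0
    · rcases hs' with h3 | h3
      · left; rw [hW, h3]
      · right; rw [hW, h3]; ring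
  -- the local inequality
  have hloc : ∀ᶠ ω in EV 𝒰 k L, ∀ s0 : Fin (n + 1) → Fin M, pl T s0 ≠ 0 →
      (n + 1) * mo xu ω - (oo γ ω + oo (pl T s0) ω) +
        (lam G d xu ω - if 0 < lam G d xu ω then 1 else 0) ≤ e1 ω := by
    have h2 : ∀ᶠ ω in EV 𝒰 k L, ∀ s0 : {s0 : Fin (n + 1) → Fin M // pl T s0 ≠ 0},
        oo (W (hmin s0.1 s0.2).choose) ω = oo γ ω + oo (pl T s0) ω := by
      rw [eventually_all]
      intro s0
      rcases (hmin s0.1 s0.2).choose_spec.2 with h3 | h3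
      · rw [h3]
        exact oo_mul hγ s0.2
      · rw [h3]
        filter_upwards [oo_mul (k := k) hγ s0.2, oo_neg (k := k) (γ * pl T s0.1)] with ω h4 h5
        rw [h5, h4]
    filter_upwards [h1, h2] with ω h3 h4 s0 hs0
    have h5 := h3 _ (hmin s0 hs0).choose_spec.1 (lam G d xu ω) (fun j => by
      by_cases hj : aeval xu (G j) = 0
      · exact Or.inl hj
      · right
        have := lam_le G d xu hj ω
        linarith)
    have h6 := h4 ⟨s0, hs0⟩
    rw [h6] at h5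
    exact h5
  have hrep : ∀ᶠ i in (𝒰 : Filter I), ∀ c, rep (xu c) i = x i c := by
    rw [eventually_all]
    intro c
    exact rep_um _
  have hrep2 : ∀ᶠ i in (𝒰 : Filter I), ∀ s, rep (pl T s) i = pl (t i) s := by
    rw [eventually_all]
    intro s
    rw [← um_pl]
    exact rep_um _
  filter_upwards [hB, ev_iff.1 hloc, lam_eq (k := k) G d xu, mo_eq (k := k) xu, hrep, hrep2,
    hp_eq (k := k) xu, rep_ne hγ, rep_ne_iff (fun s => pl T s)] with
    i hi1 hi2 hi3 hi4 hi5 hi6 hi7 hi8 hi9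
  have hxi : (fun c => rep (xu c) i) = x i := funext hi5
  rw [hxi] at hi3 hi7
  simp only [hxi] at hi4
  obtain ⟨s1, hs1⟩ := exists_pl (ht i)
  -- the finite set of places
  have hf1 := locH_finite (k := k) (d := d) (hx i) (hxG i)
  have hf2 := minOrd_finite (k := k) (hx i)
  have hf3 := minOrd_finite (k := k) (x := pl (t i)) ⟨s1, hs1⟩
  have hf4 := finite_support (k := k) (rep γ i)
  set TT := (((hf1.union hf2).union hf3).union hf4).toFinset with hTT
  have hm1 : ∀ P : Place k (L i), locH G d P (x i) ≠ 0 → P ∈ TT := fun P hP => by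
    rw [hTT, Set.Finite.mem_toFinset]; exact Or.inl (Or.inl (Or.inl hP))
  have hm2 : ∀ P : Place k (L i), minOrd P (x i) ≠ 0 → P ∈ TT := fun P hP => by
    rw [hTT, Set.Finite.mem_toFinset]; exact Or.inl (Or.inl (Or.inr hP))
  have hm3 : ∀ P : Place k (L i), minOrd P (pl (t i)) ≠ 0 → P ∈ TT := fun P hP => by
    rw [hTT, Set.Finite.mem_toFinset]; exact Or.inl (Or.inr hP)
  have hm4 : ∀ P : Place k (L i), P.ord (rep γ i) ≠ 0 → P ∈ TT := fun P hP => by
    rw [hTT, Set.Finite.mem_toFinset]; exact Or.inr hP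
  have e1' : ∑ᶠ P : Place k (L i), locH G d P (x i) = ∑ P ∈ TT, locH G d P (x i) := by
    rw [finsum_eq_sum_of_support_subset]
    intro P hP
    exact hm1 P hP
  have e2 : {P : Place k (L i) | 0 < locH G d P (x i)}.ncard =
      (TT.filter fun P => 0 < locH G d P (x i)).card := by
    rw [← Set.ncard_coe_finset]
    congr 1
    ext P
    rw [Finset.coe_filter]
    exact ⟨fun h => ⟨hm1 P (ne_of_gt h), h⟩, fun h => h.2⟩
  have e3 := hgtP_finset (k := k) (hx i) TT hm2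
  have e4 := hgtP_finset (k := k) (x := pl (t i)) ⟨s1, hs1⟩ TT hm3
  have e5 := sum_ord_finset (k := k) (rep γ i) TT hm4
  -- the sum of the local inequalities
  have key : ∀ P ∈ TT, (n + 1) * minOrd P (x i) - (P.ord (rep γ i) + minOrd P (pl (t i))) +
      (locH G d P (x i) - if 0 < locH G d P (x i) then 1 else 0) ≤ e1 ⟨i, P⟩ := by
    intro P _
    obtain ⟨s0, hs0, hs0'⟩ := exists_minOrd P (x := pl (t i)) ⟨s1, hs1⟩
    have h2 : pl T s0 ≠ 0 := (hi9 s0).2 (by rw [hi6]; exact hs0)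
    have h3 := hi2 P s0 h2
    rw [hi3 P, hi4 P] at h3
    have h4 : oo (pl T s0) (⟨i, P⟩ : Om k L) = minOrd P (pl (t i)) := by
      rw [← hs0']
      unfold oo
      rw [hi6]
    rw [h4] at h3
    exact h3
  have key2 := Finset.sum_le_sum key
  rw [Finset.sum_add_distrib, Finset.sum_sub_distrib, Finset.sum_sub_distrib,
    Finset.sum_add_distrib, e5, ← Finset.mul_sum, zero_add] at key2
  have key3 : hgtP k (pl (t i)) - (n + 1) * hgtP k (x i) +
      ∑ᶠ P : Place k (L i), locH G d P (x i) ≤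
      ((TT.filter fun P => 0 < locH G d P (x i)).card : ℤ) + ∑ P ∈ TT, e1 ⟨i, P⟩ := by
    rw [e1', e3, e4, Finset.card_filter]
    push_cast
    linarith
  have key4 : ((hgtP k (pl (t i)) - (n + 1) * hgtP k (x i) +
      ∑ᶠ P : Place k (L i), locH G d P (x i) : ℤ) : ℝ) ≤
      ((TT.filter fun P => 0 < locH G d P (x i)).card : ℝ) +
        ((∑ P ∈ TT, e1 ⟨i, P⟩ : ℤ) : ℝ) := by exact_mod_cast key3
  refine key4.trans ?_
  rw [e2, add_assoc, ← hi7]
  exact add_le_add le_rfl (hi1 TT)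

end Pool.Agent.H58.AC
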