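import Pool.Graph.R_pool_sql_team_seeded_efc1946e.K1H80.AV.Geo4

/-!
# The chain rule with derivatives of the coefficients
-/

set_option autoImplicit false
set_option linter.unusedSectionVars false

namespace Pool.Agent.H58.AC

open Pool.Agent.K1H80.EC (IsD isD_left isD_right)
open MvPolynomial

variable {σ : Type} [Fintype σ]

/-- the value of the polynomial with the derivatives `e a` of the coefficients `a` -/
noncomputable def cd {F S : Type} [CommRing F] [CommRing S] (e : F → S) (w : σ → S)
    (P : MvPolynomial σ F) : S := ∑ m ∈ P.support, e (P.coeff m) * ∏ i, w i ^ m i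

theorem cd_eq {F S : Type} [CommRing F] [CommRing S] {e : F → S} (h0 : e 0 = 0) (w : σ → S)
    (P : MvPolynomial σ F) {T : Finset (σ →₀ ℕ)} (hT : P.support ⊆ T) :
    cd e w P = ∑ m ∈ T, e (P.coeff m) * ∏ i, w i ^ m i := by
  unfold cd
  refine Finset.sum_subset hT fun m _ hm => ?_
  rw [notMem_support_iff.1 hm, h0, zero_mul]

theorem cd_add {F S : Type} [CommRing F] [CommRing S] {e : F → S} (h0 : e 0 = 0)
    (hadd : ∀ x y, e (x + y) = e x + e y) (w : σ → S) (P Q : MvPolynomial σ F) :
    cd e w (P + Q) = cd e w P + cd e w Q := by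
  classical
  rw [cd_eq h0 w P (T := P.support ∪ Q.support) Finset.subset_union_left,
    cd_eq h0 w Q (T := P.support ∪ Q.support) Finset.subset_union_right,
    cd_eq h0 w (P + Q) (T := P.support ∪ Q.support) support_add, ← Finset.sum_add_distrib]
  refine Finset.sum_congr rfl fun m _ => ?_
  rw [coeff_add, hadd, add_mul]

theorem cd_monomial {F S : Type} [CommRing F] [CommRing S] {e : F → S} (h0 : e 0 = 0)
    (w : σ → S) (m : σ →₀ ℕ) (a : F) : cd e w (monomial m a) = e a * ∏ i, w i ^ m i := by
  classical
  rw [cd_eq h0 w _ (T := {m}) support_monomial_subset, Finset.sum_singleton, coeff_monomial,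
    if_pos rfl]

theorem cd_zero {F S : Type} [CommRing F] [CommRing S] (w : σ → S) (P : MvPolynomial σ F) :
    cd (fun _ : F => (0 : S)) w P = 0 := by
  unfold cd
  exact Finset.sum_eq_zero fun m _ => zero_mul _

theorem map_cd {F S S' : Type} [CommRing F] [CommRing S] [CommRing S'] (ψ : S →+* S') (e : F → S)
    (w : σ → S) (P : MvPolynomial σ F) :
    ψ (cd e w P) = cd (fun a => ψ (e a)) (fun i => ψ (w i)) P := by
  unfold cd
  rw [map_sum]
  refine Finset.sum_congr rfl fun m _ => ?_
  rw [map_mul, map_prod]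
  simp only [map_pow]

/-- **The chain rule** with derivatives of the coefficients. -/
theorem chain_cd {F R K : Type} [CommRing F] [CommRing R] [CommRing K] [Algebra F R]
    {φ : R →+* K} {δ : R → K} (h : IsD φ δ) (w : σ → R) (P : MvPolynomial σ F) :
    δ (aeval w P) = ∑ s, φ (aeval w (pderiv s P)) * δ (w s) +
      cd (fun a => δ (algebraMap F R a)) (fun i => φ (w i)) P := by
  classical
  have h0 : (fun a => δ (algebraMap F R a)) 0 = 0 := by
    simp only [map_zero]
    exact h.zero'
  have hadd : ∀ x y, (fun a => δ (algebraMap F R a)) (x + y) =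
      (fun a => δ (algebraMap F R a)) x + (fun a => δ (algebraMap F R a)) y := fun x y => by
    simp only [map_add, h.add]
  -- the difference of the first two terms
  obtain ⟨Λ, hΛ⟩ : ∃ Λ : MvPolynomial σ F → K, ∀ P, Λ P =
      δ (aeval w P) - ∑ s, φ (aeval w (pderiv s P)) * δ (w s) := ⟨_, fun _ => rfl⟩
  have hΛadd : ∀ P Q, Λ (P + Q) = Λ P + Λ Q := by
    intro P Q
    rw [hΛ, hΛ, hΛ, map_add, h.add]
    simp only [map_add, add_mul, Finset.sum_add_distrib]
    ring
  have hΛ0 : Λ 0 = 0 := by
    have := hΛadd 0 0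
    rw [add_zero] at this
    exact left_eq_add.1 this
  have hΛX : ∀ P i, Λ (P * X i) = Λ P * φ (w i) := by
    intro P i
    rw [hΛ, hΛ, map_mul, aeval_X, h.mul]
    have h2 : ∀ s, φ (aeval w (pderiv s (P * X i))) * δ (w s) =
        φ (w i) * (φ (aeval w (pderiv s P)) * δ (w s)) +
          (if s = i then φ (aeval w P) * δ (w s) else 0) := by
      intro s
      rw [pderiv_mul, pderiv_X, map_add, map_mul, map_mul, aeval_X]
      by_cases h : s = i
      · subst h
        rw [if_pos rfl, Pi.single_eq_same, map_one, map_add, map_mul, mul_one]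
        ring
      · rw [if_neg h, Pi.single_eq_of_ne (Ne.symm h), map_zero, mul_zero, add_zero, map_mul]
        ring
    rw [Finset.sum_congr rfl fun s _ => h2 s, Finset.sum_add_distrib, Finset.sum_ite_eq',
      if_pos (Finset.mem_univ i), ← Finset.mul_sum]
    ring
  have hΛpow : ∀ P i n, Λ (P * X i ^ n) = Λ P * φ (w i) ^ n := by
    intro P i n
    induction n with
    | zero => simp
    | succ n ih => rw [pow_succ, ← mul_assoc, hΛX, ih, pow_succ, mul_assoc]
  have hΛprod : ∀ (m : σ →₀ ℕ) (T : Finset σ) P, Λ (P * ∏ i ∈ T, X i ^ m i) =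
      Λ P * ∏ i ∈ T, φ (w i) ^ m i := by
    intro m T
    induction T using Finset.induction_on with
    | empty => intro P; simp
    | insert a T ha ih =>
      intro P
      rw [Finset.prod_insert ha, Finset.prod_insert ha, ← mul_assoc, ih, hΛpow, mul_assoc]
  have hΛC : ∀ a, Λ (C a) = δ (algebraMap F R a) := by
    intro a
    rw [hΛ, aeval_C]
    simp [pderiv_C]
  have key : ∀ P, Λ P = cd (fun a => δ (algebraMap F R a)) (fun i => φ (w i)) P := by
    intro P
    induction P using MvPolynomial.induction_on' with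
    | monomial m a =>
      have h1 : (monomial m a : MvPolynomial σ F) = C a * ∏ i, X i ^ m i := by
        rw [monomial_eq, Finsupp.prod_fintype _ _ (fun i => pow_zero _)]
      rw [cd_monomial h0, h1, hΛprod, hΛC]
    | add P Q hP hQ => rw [hΛadd, hP, hQ, cd_add h0 hadd]
  rw [← key, hΛ]
  ring

end Pool.Agent.H58.AC
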