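import Pool.Agent.H58.AC.Lo3

/-!
# The core inequality
-/

set_option autoImplicit false
set_option linter.unusedSectionVars false
set_option linter.unusedVariables false

namespace Pool.Agent.H58.AC

open Pool.Agent.K1H80 Pool.Agent.K1H80.AV
open FF Filter MvPolynomial Module Pool.Agent.W603.LV Pool.Agent.W603.PV Pool.Agent.W603.CZ
open Pool.Agent.Y731.FG
open Pool.Agent.K1H80.EC (BQ mem_BQ IsD isD_left isD_right)
open scoped Classical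

variable {I : Type} {𝒰 : Ultrafilter I} {k F : Type} [Field k] [IsAlgClosed k] [CharZero k]
  [Field F] [Algebra k F] {L : I → Type} [∀ i, Field (L i)] [∀ i, Algebra k (L i)]
  [∀ i, Algebra F (L i)] [∀ i, IsScalarTower k F (L i)]
  [∀ i, IsFF k (L i)] {Δ : Dt 𝒰 k F L}

/-- the quotients of the coordinates -/
noncomputable def ux {M : ℕ} (x : Fin M → UL 𝒰 L) (c : Fin M) (a : Fin M) : UL 𝒰 L :=
  (x c)⁻¹ * x a

/-- the quotients are integral -/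
theorem ux_ord {M : ℕ} (x : Fin M → UL 𝒰 L) {c : Fin M} (hc : x c ≠ 0) (a : Fin M) :
    ∀ᶠ ω in EV 𝒰 k L, ω ∈ QC x c → ux x c a = 0 ∨ 0 ≤ oo (ux x c a) ω := by
  by_cases ha : x a = 0
  · refine Eventually.of_forall fun ω _ => Or.inl ?_
    rw [ux, ha, mul_zero]
  filter_upwards [oo_mul (inv_ne_zero hc) ha, oo_inv (x c)] with ω h1 h2 hω
  right
  rw [ux, h1, h2]
  have h3 : oo (x c) ω = mo x ω := hω
  have h4 := mo_le x ha ω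
  omega

variable {F1 : Type} [Field F1]
    [Algebra k F1] [Algebra F1 Δ.E] [Algebra F1 (UL 𝒰 L)] [IsScalarTower k F1 Δ.E]
    [IsScalarTower F1 Δ.E (UL 𝒰 L)] {N M r m' ν e R' n : ℕ} {𝔡 : Dat k F1 N M r m' ν e R'}
    {Y : 𝔡.A.Co (UL 𝒰 L)} {x : Fin M → UL 𝒰 L} {z0 : Fin ν → Δ.E}
    {ez : Fin ν → Fin m' → Δ.E}

/-- **The core inequality**, in a chart. -/
theorem core_chart {c : Fin M} (hc : x c ≠ 0) {c' : Fin N} (hc' : Y.1 c' ≠ 0)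
    (S : Sys 𝔡 Δ.E (uD Δ.D) Y (ux x c) c z0 ez n)
    (gF : Gs F Δ.E 𝔡.A (uD Δ.D) Y)
    (θ : Fin 𝔡.A.dim → Derivation k (UL 𝒰 L) (UL 𝒰 L))
    (hθ0 : ∀ i (f : F1), θ i (algebraMap F1 (UL 𝒰 L) f) = 0)
    (hθ1 : ∀ i, WW Y (θ i) = Pi.single i 1)
    {w : ℕ} {G : Fin w → MvPolynomial (Fin M) F1}
    {d : Fin w → ℕ} (hGd : ∀ j, (G j).IsHomogeneous (d j)) (hred : Red1 𝔡.eqn n G)
    (hne : ∃ j, aeval (ux x c) (G j) ≠ 0) :
    ∃ e1 : Om k L → ℤ, Ng 𝒰 Δ.χ (hp k Y.1) e1 ∧ ∀ᶠ ω in EV 𝒰 k L, ω ∈ QC x c ∩ QC Y.1 c' →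
      ∀ (s : Fin r → Fin M),
        Wd 𝔡 θ (ux x c) (fun s => algebraMap Δ.E (UL 𝒰 L) (z0 (𝔡.b0 s))) s ≠ 0 →
        ∀ m : ℤ, (∀ j, aeval (ux x c) (G j) = 0 ∨ m ≤ oo (aeval (ux x c) (G j)) ω) →
        -oo (Wd 𝔡 θ (ux x c) (fun s => algebraMap Δ.E (UL 𝒰 L) (z0 (𝔡.b0 s))) s) ω +
          (m - if 0 < m then 1 else 0) ≤ e1 ω := by
  let B : Subalgebra Δ.E (UL 𝒰 L) := Algebra.adjoin Δ.E (Set.range (ux x c) ∪
    Set.range (nz 𝔡.A Y c'))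
  have hB : RZ Δ.E (nz 𝔡.A Y c') ≤ B := Algebra.adjoin_mono Set.subset_union_right
  have huB : ∀ a, ux x c a ∈ B := fun a => Algebra.subset_adjoin (Or.inl ⟨a, rfl⟩)
  have hu : ∀ a, ∀ᶠ ω in EV 𝒰 k L, ω ∈ QC x c ∩ QC Y.1 c' → ux x c a = 0 ∨
      0 ≤ oo (ux x c a) ω := fun a => by
    filter_upwards [ux_ord (k := k) x hc a] with ω h1 hω
    exact h1 hω.1
  have hBQ : B ≤ BQ Δ (QC x c ∩ QC Y.1 c') := by
    refine Algebra.adjoin_le ?_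
    rintro _ (⟨a, rfl⟩ | ⟨a, rfl⟩)
    · refine mem_BQ.2 ⟨fun _ => 0, Bd.zero Δ.nonneg, fun _ => le_refl _, ?_⟩
      filter_upwards [hu a] with ω h1 hω
      simpa using h1 hω
    · refine mem_BQ.2 ⟨fun _ => 0, Bd.zero Δ.nonneg, fun _ => le_refl _, ?_⟩
      filter_upwards [nz_ord (k := k) Y hc' a] with ω h1 hω
      simpa using h1 hω.2
  obtain ⟨e1, he1, h1⟩ := local1 S hB huB hBQ gF (fun ω hω => hω.2) hc' θ hθ0 hθ1 hu
  obtain ⟨e2, he2, h2⟩ := local2 S hB huB hBQ gF (fun ω hω => hω.2) hc' θ hθ0 hθ1 hu hGd hred hne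
  refine ⟨fun ω => max (e1 ω) 0 + max (e2 ω) 0, he1.pos.add he2.pos, ?_⟩
  filter_upwards [h1, h2] with ω h3 h4 hω s hs m hm
  have h5 := h3 hω s hs
  have h6 := h4 hω s hs m hm
  have h7 := le_max_left (e1 ω) 0
  have h8 := le_max_left (e2 ω) 0
  have h9 := le_max_right (e1 ω) 0
  have h10 := le_max_right (e2 ω) 0
  split_ifs with h11
  · linarith
  · linarith [not_lt.1 h11]

/-- **The core inequality.** -/
theorem core (hx : ∃ c, x c ≠ 0) (hM : n + r + 1 = M)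
    (S : ∀ c, x c ≠ 0 → Sys 𝔡 Δ.E (uD Δ.D) Y (ux x c) c z0 ez n)
    (gF : Gs F Δ.E 𝔡.A (uD Δ.D) Y)
    (θ : Fin 𝔡.A.dim → Derivation k (UL 𝒰 L) (UL 𝒰 L))
    (hθ0 : ∀ i (f : F1), θ i (algebraMap F1 (UL 𝒰 L) f) = 0)
    (hθ1 : ∀ i, WW Y (θ i) = Pi.single i 1)
    {w : ℕ} {G : Fin w → MvPolynomial (Fin M) F1}
    {d : Fin w → ℕ} (hGd : ∀ j, (G j).IsHomogeneous (d j)) (hred : Red1 𝔡.eqn n G)
    (hne : ∃ j, aeval x (G j) ≠ 0)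
    (hH : ∃ C B : ℕ, ∀ᶠ i in (𝒰 : Filter I), hp k Y.1 i ≤ C * hp k x i + B * Δ.χ i)
    (hH0 : ∀ᶠ i in (𝒰 : Filter I), 0 ≤ hp k x i) :
    ∃ e1 : Om k L → ℤ, Ng 𝒰 Δ.χ (hp k x) e1 ∧ ∀ᶠ ω in EV 𝒰 k L,
      ∀ (s : Fin r → Fin M),
        Wd 𝔡 θ x (fun s => algebraMap Δ.E (UL 𝒰 L) (z0 (𝔡.b0 s))) s ≠ 0 →
        ∀ m : ℤ, (∀ j, aeval x (G j) = 0 ∨ m + d j * mo x ω ≤ oo (aeval x (G j)) ω) →
        (n + 1) * mo x ω -
          oo (Wd 𝔡 θ x (fun s => algebraMap Δ.E (UL 𝒰 L) (z0 (𝔡.b0 s))) s) ω +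
          (m - if 0 < m then 1 else 0) ≤ e1 ω := by
  set ζ : Fin m' → UL 𝒰 L := fun s => algebraMap Δ.E (UL 𝒰 L) (z0 (𝔡.b0 s)) with hζ
  -- the scaling
  have hxu : ∀ c, x c ≠ 0 → x = fun a => x c * ux x c a := fun c hc => by
    funext a
    rw [ux, mul_inv_cancel_left₀ hc]
  have hW : ∀ c, x c ≠ 0 → ∀ s, Wd 𝔡 θ x ζ s = x c ^ (n + 1) * Wd 𝔡 θ (ux x c) ζ s := by
    intro c hc s
    conv_lhs => rw [hxu c hc]
    exact Wd_smul 𝔡 hM θ (ux x c) ζ s hc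
  have hGx : ∀ c, x c ≠ 0 → ∀ j, aeval x (G j) = x c ^ d j * aeval (ux x c) (G j) := by
    intro c hc j
    conv_lhs => rw [hxu c hc]
    exact aeval_smul_hom (hGd j) _ _
  -- the charts
  let T : Type := {c : Fin M // x c ≠ 0} × {c' : Fin N // Y.1 c' ≠ 0}
  have hcore : ∀ t : T, _ := fun t => core_chart (Δ := Δ) t.1.2 t.2.2 (S t.1.1 t.1.2) gF θ hθ0 hθ1
    hGd hred (by
      obtain ⟨j, hj⟩ := hne
      refine ⟨j, fun h => hj ?_⟩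
      rw [hGx t.1.1 t.1.2, h, mul_zero])
  choose e1 he1 h1 using hcore
  obtain ⟨C, B, hCB⟩ := hH
  refine ⟨fun ω => ∑ t, max (e1 t ω) 0, Ng.sum Δ.nonneg hH0 Finset.univ fun t _ =>
    ng_of (he1 t).pos hCB hH0, ?_⟩
  have hord1 : ∀ᶠ ω in EV 𝒰 k L, ∀ (c : {c : Fin M // x c ≠ 0}) (s : Fin r → Fin M),
      Wd 𝔡 θ (ux x c) ζ s = 0 ∨ oo (Wd 𝔡 θ x ζ s) ω = (n + 1) * oo (x c) ω +
        oo (Wd 𝔡 θ (ux x c) ζ s) ω := by
    rw [eventually_all]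
    intro c
    rw [eventually_all]
    intro s
    by_cases h2 : Wd 𝔡 θ (ux x c) ζ s = 0
    · exact Eventually.of_forall fun ω => Or.inl h2
    filter_upwards [oo_mul (k := k) (pow_ne_zero (n + 1) c.2) h2,
      oo_pow (k := k) (x c) (n + 1)] with ω h3 h4
    right
    rw [hW c c.2, h3, h4]
    push_cast
    ring
  have hord2 : ∀ᶠ ω in EV 𝒰 k L, ∀ (c : {c : Fin M // x c ≠ 0}) (j : Fin w),
      aeval (ux x c) (G j) = 0 ∨ oo (aeval x (G j)) ω = d j * oo (x c) ω +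
        oo (aeval (ux x c) (G j)) ω := by
    rw [eventually_all]
    intro c
    rw [eventually_all]
    intro j
    by_cases h2 : aeval (ux x c) (G j) = 0
    · exact Eventually.of_forall fun ω => Or.inl h2
    filter_upwards [oo_mul (k := k) (pow_ne_zero (d j) c.2) h2,
      oo_pow (k := k) (x c) (d j)] with ω h3 h4
    right
    rw [hGx c c.2, h3, h4]
  filter_upwards [eventually_all.2 h1, hord1, hord2] with ω h2 h3 h4 s hs m hm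
  obtain ⟨c, hc, hω⟩ := exists_mo x hx ω
  obtain ⟨c', hc', hω'⟩ := exists_QC Y ω
  have h5 : Wd 𝔡 θ (ux x c) ζ s ≠ 0 := fun h => hs (by rw [hW c hc, h, mul_zero])
  have h6 := (h3 ⟨c, hc⟩ s).resolve_left h5
  have h7 := h2 (⟨c, hc⟩, ⟨c', hc'⟩) ⟨hω, hω'⟩ s h5 m (fun j => by
    by_cases h8 : aeval (ux x c) (G j) = 0
    · exact Or.inl h8
    right
    have h9 := (h4 ⟨c, hc⟩ j).resolve_left h8
    have h10 := (hm j).resolve_left (fun h => h8 (by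
      rw [hGx c hc] at h
      exact (mul_eq_zero.1 h).resolve_left (pow_ne_zero _ hc)))
    rw [h9] at h10
    change m + d j * mo x ω ≤ d j * oo (x c) ω + oo (aeval (ux x c) (G j)) ω at h10
    rw [hω] at h10
    linarith)
  have h8 : max (e1 (⟨c, hc⟩, ⟨c', hc'⟩) ω) 0 ≤ ∑ t, max (e1 t ω) 0 :=
    Finset.single_le_sum (f := fun t : T => max (e1 t ω) 0) (fun i _ => le_max_right _ _)
      (Finset.mem_univ ((⟨c, hc⟩, ⟨c', hc'⟩) : T))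
  have h9 := le_max_left (e1 (⟨c, hc⟩, ⟨c', hc'⟩) ω) 0
  have h10 : oo (Wd 𝔡 θ x ζ s) ω = (n + 1) * oo (x c) ω + oo (Wd 𝔡 θ (ux x c) ζ s) ω := h6
  rw [h10, hω]
  have h11 : -oo (Wd 𝔡 θ (ux x c) ζ s) ω + (m - if 0 < m then 1 else 0) ≤
    e1 (⟨c, hc⟩, ⟨c', hc'⟩) ω := h7
  linarith

end Pool.Agent.H58.AC
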