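import Pool.Graph.R_pool_sql_team_seeded_efc1946e.K1H80.AV.Def

/-!
# Smooth projective varieties and their morphisms to constant abelian varieties
-/

set_option autoImplicit false

namespace Pool.Agent.H58.AC

open MvPolynomial Pool.Agent.K1H80.AV

/-- A smooth projective variety over `F`, embedded into the projective space with `M`
coordinates. -/
structure SmoothVariety (F : Type) [Field F] (M : ℕ) where
  /-- the dimension -/
  dim : ℕ
  /-- the number of equations -/
  e : ℕ
  /-- the equations -/
  eqn : Fin e → MvPolynomial (Fin M) F
  /-- the degrees of the equations -/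
  deg : Fin e → ℕ
  homogeneous : ∀ i, (eqn i).IsHomogeneous (deg i)
  /-- the tangent spaces (of the affine cone) have dimension `dim + 1` -/
  smooth : ∀ (K : Type) [Field K] [Algebra F K] (x : Fin M → K), IsCoord eqn x →
    Module.finrank K (tangent eqn x) = dim + 1
  /-- the variety is irreducible and has dimension at least `dim`: there is a generic point `x`
  (forms over `F` which vanish at `x` vanish on the variety), with `dim` algebraically independent
  quotients of coordinates -/
  generic : ∃ (Ω : Type) (_ : Field Ω) (_ : Algebra F Ω) (x : Fin M → Ω), IsCoord eqn x ∧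
    (∀ (f : MvPolynomial (Fin M) F) (d : ℕ), f.IsHomogeneous d → aeval x f = 0 →
      ∀ (K : Type) [Field K] [Algebra F K] (y : Fin M → K), IsCoord eqn y → aeval y f = 0) ∧
    ∃ (b : Fin M) (a : Fin dim → Fin M), x b ≠ 0 ∧ AlgebraicIndependent F fun i => x (a i) / x b

section defs

variable {k F : Type} [Field k] [Field F] [Algebra k F] {M N : ℕ}

/-- The form `f` over `F` does not vanish on `X`. -/
def SmoothVariety.NonVanishing (X : SmoothVariety F M) (f : MvPolynomial (Fin M) F) : Prop :=
  ∃ (K : Type) (_ : Field K) (_ : Algebra F K) (x : Fin M → K), IsCoord X.eqn x ∧ aeval x f ≠ 0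

/-- The subscheme of `X` with the equations `G j = 0` is reduced in codimension one: the points `q`
of it, with coordinates in any field extension of `F`, at which the differentials of all `G j` vanish
on the tangent space of `X` (of its affine cone) have codimension at least two: no `dim X - 1`
quotients of coordinates of `q` are algebraically independent over `F`. -/
def SmoothVariety.IsReducedInCodimOne (X : SmoothVariety F M) {w : ℕ}
    (G : Fin w → MvPolynomial (Fin M) F) : Prop :=
  ∀ (K : Type) [Field K] [Algebra F K] (q : Fin M → K), IsCoord X.eqn q →
    (∀ j, aeval q (G j) = 0) →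
    (∀ j, ∀ v ∈ tangent X.eqn q, ∑ c, aeval q (pderiv c (G j)) * v c = 0) →
    ∀ b, q b ≠ 0 → ∀ a : Fin (X.dim - 1) → Fin M, ¬ AlgebraicIndependent F fun i => q (a i) / q b

/-- A morphism from the variety `X` over `F` to the abelian variety `A` over the subfield `k`,
given by finitely many families `p l` of forms: at each point of `X` (over any field extension of
`F`), with homogeneous coordinates `x`, the values of all families are proportional to the
coordinates `y` of one point of `A`, and at least one of the families does not vanish. -/
structure Morphism (k : Type) {F : Type} [Field k] [Field F] [Algebra k F] {M N : ℕ}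
    (X : SmoothVariety F M) (A : AbelianVariety k N) where
  /-- the number of families of forms -/
  R : ℕ
  /-- the forms -/
  p : Fin R → Fin N → MvPolynomial (Fin M) F
  /-- the degrees of the forms -/
  deg : Fin R → ℕ
  homogeneous : ∀ l t, (p l t).IsHomogeneous (deg l)
  spec : ∀ (K : Type) [Field K] [Algebra k K] [Algebra F K] [IsScalarTower k F K] (x : Fin M → K),
    IsCoord X.eqn x → ∃ y : Fin N → K, IsCoord A.eqn y ∧
      (∀ l, ∃ s : K, ∀ t, aeval x (p l t) = s * y t) ∧ ∃ l t, aeval x (p l t) ≠ 0

/-- `y` are homogeneous coordinates of the image of the point with the homogeneous coordinates `x`. -/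
def Morphism.IsImage {X : SmoothVariety F M} {A : AbelianVariety k N} (π : Morphism k X A)
    {K : Type} [Field K] [Algebra k K] [Algebra F K] (x : Fin M → K) (y : Fin N → K) : Prop :=
  IsCoord A.eqn y ∧ ∀ l, ∃ s : K, ∀ t, aeval x (π.p l t) = s * y t

/-- The morphism is generically finite onto its image, that is, the dimension of the image is the
dimension of `X`: the image of some point has `dim X` algebraically independent quotients of
coordinates. -/
def Morphism.IsGenericallyFinite {X : SmoothVariety F M} {A : AbelianVariety k N}
    (π : Morphism k X A) : Prop :=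
  ∃ (K : Type) (_ : Field K) (_ : Algebra k K) (_ : Algebra F K) (_ : IsScalarTower k F K)
    (x : Fin M → K) (y : Fin N → K), IsCoord X.eqn x ∧ π.IsImage x y ∧
      ∃ (b : Fin N) (a : Fin X.dim → Fin N), y b ≠ 0 ∧
        AlgebraicIndependent F fun i => y (a i) / y b

end defs

end Pool.Agent.H58.AC
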