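import Pool.Agent.H58.AC.Dim
import Pool.Graph.R_pool_sql_team_seeded_efc1946e.K1H80.AV.Main

/-!
# Constant points in general position
-/

set_option autoImplicit false
set_option linter.unusedSectionVars false

namespace Pool.Agent.H58.AC

open Pool.Agent.K1H80.AV Pool.Agent.K1H80
open MvPolynomial Module Set

variable {k : Type} [Field k] [IsAlgClosed k] {N : ℕ} (A : AbelianVariety k N)

theorem dens1 : ∃ (d : Fin N) (c : Fin A.dim → Fin N), ∀ q : MvPolynomial (Fin A.dim) k, q ≠ 0 →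
    ∃ z : Fin N → k, IsCoord A.eqn z ∧ z d = 1 ∧ aeval (fun i => z (c i)) q ≠ 0 := by
  obtain ⟨Ω, iΩ, ikΩ, iΩ', iT, zg, hzg, -, d, c, hd, hind⟩ := A.generic k
  have hiT : iΩ' = ikΩ := by
    refine Algebra.algebra_ext _ _ fun r => ?_
    exact (@IsScalarTower.algebraMap_apply k k Ω _ _ _ _ iΩ' ikΩ iT r).symm
  subst hiT
  refine ⟨d, c, fun q hq => ?_⟩
  by_contra hcon
  push Not at hcon
  obtain ⟨f, m, hf, hfx⟩ := exists_homog q d c
  let I : Ideal (MvPolynomial (Fin N) k) := Ideal.span (Set.range A.eqn)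
  have hI : X d * f ∈ vanishingIdeal k (zeroLocus k I) := by
    rw [mem_vanishingIdeal_iff]
    intro z hz
    rw [map_mul, aeval_X]
    by_cases hzd : z d = 0
    · rw [hzd, zero_mul]
    have hz1 : ∀ i, aeval z (A.eqn i) = 0 := fun i =>
      (mem_zeroLocus_iff.1 hz) _ (Ideal.subset_span ⟨i, rfl⟩)
    have hz2 : IsCoord A.eqn z := ⟨⟨d, IsUnit.mk0 _ hzd⟩, hz1⟩
    have h1 := hcon (fun a => (z d)⁻¹ * z a)
      (hz2.smul A.homogeneous (IsUnit.mk0 _ (inv_ne_zero hzd))) (inv_mul_cancel₀ hzd)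
    rw [hfx k z hzd]
    have h2 : (fun i => z (c i) / z d) = fun i => (z d)⁻¹ * z (c i) := by
      funext i
      rw [div_eq_inv_mul]
    rw [h2, h1, mul_zero, mul_zero]
  rw [vanishingIdeal_zeroLocus_eq_radical] at hI
  obtain ⟨r, hr⟩ := hI
  have h3 : aeval zg ((X d * f) ^ r) = 0 := by
    have h4 : I ≤ RingHom.ker (aeval zg : MvPolynomial (Fin N) k →ₐ[k] Ω) := by
      rw [Ideal.span_le]
      rintro _ ⟨i, rfl⟩
      exact hzg.2 i
    exact h4 hr
  rw [map_pow, map_mul, aeval_X, hfx Ω zg hd] at h3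
  have h5 : zg d * (zg d ^ m * aeval (fun i => zg (c i) / zg d) q) = 0 := by
    by_contra h
    exact pow_ne_zero r h h3
  rcases mul_eq_zero.1 h5 with h | h
  · exact hd h
  · rcases mul_eq_zero.1 h with h | h
    · exact pow_ne_zero m hd h
    · exact hq (hind (by rw [h, map_zero]))

/-- **Density of the constant points.** -/
theorem dens : ∃ (d : Fin N) (c : Fin A.dim → Fin N), ∀ (L : Type) [Field L] [Algebra k L]
    (Q : MvPolynomial (Fin A.dim) L), Q ≠ 0 →
    ∃ z : Fin N → k, IsCoord A.eqn z ∧ z d = 1 ∧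
      aeval (fun i => algebraMap k L (z (c i))) Q ≠ 0 := by
  obtain ⟨d, c, h⟩ := dens1 A
  refine ⟨d, c, fun L _ _ Q hQ => ?_⟩
  obtain ⟨m, hm⟩ := ne_zero_iff.1 hQ
  obtain ⟨l, hl⟩ : ∃ l : Module.Dual k L, l (Q.coeff m) ≠ 0 := by
    by_contra hcon
    push Not at hcon
    exact hm ((Module.forall_dual_apply_eq_zero_iff k _).1 hcon)
  let q : MvPolynomial (Fin A.dim) k := ∑ s ∈ Q.support, monomial s (l (Q.coeff s))
  have hq : q ≠ 0 := by
    intro h0
    have h1 := congrArg (coeff m) h0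
    rw [coeff_zero, coeff_sum, Finset.sum_eq_single m] at h1
    · rw [coeff_monomial, if_pos rfl] at h1
      exact hl h1
    · intro s _ hs
      rw [coeff_monomial, if_neg hs]
    · intro h2
      exact absurd (mem_support_iff.2 hm) h2
  obtain ⟨z, hz1, hz2, hz3⟩ := h q hq
  refine ⟨z, hz1, hz2, fun h0 => hz3 ?_⟩
  have h1 : aeval (fun i => z (c i)) q = l (aeval (fun i => algebraMap k L (z (c i))) Q) := by
    rw [aeval_def (S₁ := L), eval₂_eq', map_sum, map_sum]
    refine Finset.sum_congr rfl fun s _ => ?_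
    rw [aeval_monomial, Finsupp.prod_fintype _ _ (fun i => pow_zero _)]
    have h2 : algebraMap L L (Q.coeff s) * ∏ i, algebraMap k L (z (c i)) ^ s i =
        (∏ i, z (c i) ^ s i) • Q.coeff s := by
      rw [Algebra.smul_def, map_prod]
      simp only [map_pow, Algebra.algebraMap_self, RingHom.id_apply]
      rw [mul_comm]
    rw [h2, map_smul, smul_eq_mul, mul_comm]
    rfl
  rw [h1, h0, map_zero]

end Pool.Agent.H58.AC
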