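import Pool.Agent.H58.AC.Alg

/-!
# Bounds for the transcendence degree
-/

set_option autoImplicit false
set_option linter.unusedSectionVars false

namespace Pool.Agent.H58.AC

open Pool.Agent.K1H80.EC (IsD isD_left isD_right exists_ext exists_der_ext)
open Pool.Agent.K1H80.AV Pool.Agent.K1H80
open MvPolynomial Module Set

theorem euler' {k0 K : Type} [Field k0] [Field K] [Algebra k0 K] {N e : ℕ}
    {eqn : Fin e → MvPolynomial (Fin N) k0} {deg : Fin e → ℕ}
    (hom : ∀ i, (eqn i).IsHomogeneous (deg i)) {x : Fin N → K} (hx : ∀ i, aeval x (eqn i) = 0) :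
    x ∈ tangent eqn x := by
  intro i
  have h1 := (hom i).sum_X_mul_pderiv
  have h2 := congrArg (aeval x) h1
  rw [map_sum, map_nsmul, hx i, smul_zero] at h2
  rw [← h2]
  refine Finset.sum_congr rfl fun c _ => ?_
  rw [map_mul, aeval_X, mul_comm]

/-- the tangent space bounds the transcendence degree -/
theorem dim_bound {k0 F U : Type} [Field k0] [Field F] [Field U] [CharZero U] [Algebra k0 F]
    [Algebra F U] [Algebra k0 U] [IsScalarTower k0 F U] {N e g : ℕ}
    {eqn : Fin e → MvPolynomial (Fin N) k0} {deg : Fin e → ℕ}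
    (hom : ∀ i, (eqn i).IsHomogeneous (deg i)) {y : Fin N → U} (hy : ∀ i, aeval y (eqn i) = 0)
    {c : Fin N} (hc : y c = 1) (hdim : finrank U (tangent eqn y) = g + 1) {m : ℕ}
    {b : Fin m → Fin N} (hb : AlgebraicIndependent F (fun i => y (b i))) : m ≤ g := by
  choose δ hδ0 hδ using fun i : Fin m => exists_der_ext (k := F) (E := F) (K := U) 0 _ hb
    (fun j => if j = i then 1 else 0)
  have hmem : ∀ i, (fun a => δ i (y a)) ∈ tangent eqn y := by
    intro i j
    have h1 := chain_mv (k := k0) (isD_left (δ i) (RingHom.id U)) (fun t => by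
      change δ i (algebraMap k0 U t) = 0
      rw [IsScalarTower.algebraMap_apply k0 F U]
      exact (δ i).map_algebraMap _) y (eqn j)
    have h2 : δ i (aeval y (eqn j)) = 0 := by rw [hy j, map_zero]
    exact h1.symm.trans h2
  let v : Fin m ⊕ Unit → Fin N → U := Sum.elim (fun i a => δ i (y a)) (fun _ => y)
  have hv : ∀ s, v s ∈ tangent eqn y := by
    rintro (i | _)
    · exact hmem i
    · exact euler' hom hy
  have hli : LinearIndependent U v := by
    rw [Fintype.linearIndependent_iff]
    intro α hα
    rw [Fintype.sum_sum_type] at hα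
    simp only [v, Sum.elim_inl, Sum.elim_inr, Finset.univ_unique, Finset.sum_singleton] at hα
    have h1 := congrFun hα c
    simp only [Pi.add_apply, Finset.sum_apply, Pi.smul_apply, smul_eq_mul, hc,
      Derivation.map_one_eq_zero, mul_zero, Finset.sum_const_zero, zero_add, mul_one,
      Pi.zero_apply] at h1
    have h2 : ∀ j, α (Sum.inl j) = 0 := by
      intro j
      have h3 := congrFun hα (b j)
      simp only [Pi.add_apply, Finset.sum_apply, Pi.smul_apply, smul_eq_mul, Pi.zero_apply] at h3
      rw [h1, zero_mul, add_zero, Finset.sum_eq_single j] at h3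
      · rwa [hδ, if_pos rfl, mul_one] at h3
      · intro i _ hi
        rw [hδ, if_neg (Ne.symm hi), mul_zero]
      · intro h; exact absurd (Finset.mem_univ j) h
    rintro (i | ⟨⟩)
    · exact h2 i
    · exact h1
  have hli' : LinearIndependent U (fun s => (⟨v s, hv s⟩ : tangent eqn y)) := by
    refine LinearIndependent.of_comp (tangent eqn y).subtype ?_
    exact hli
  have h3 := hli'.fintype_card_le_finrank
  rw [hdim, Fintype.card_sum, Fintype.card_fin, Fintype.card_unit] at h3
  omega

/-- the tangent spaces of proportional vectors -/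
theorem tangent_smul {k0 K : Type} [Field k0] [Field K] [Algebra k0 K] {N e : ℕ}
    {eqn : Fin e → MvPolynomial (Fin N) k0} {deg : Fin e → ℕ}
    (hom : ∀ i, (eqn i).IsHomogeneous (deg i)) (x : Fin N → K) (b : K) {v : Fin N → K}
    (hv : v ∈ tangent eqn x) : v ∈ tangent eqn (fun a => b * x a) := by
  intro i
  have h1 : ∀ c, aeval (fun a => b * x a) (pderiv c (eqn i)) =
      b ^ (deg i - 1) * aeval x (pderiv c (eqn i)) := fun c =>
    aeval_smul ((hom i).pderiv) b x
  simp only [h1, mul_assoc]
  rw [← Finset.mul_sum, hv i, mul_zero]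

end Pool.Agent.H58.AC
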