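import Pool.Agent.H58.AC.Id

/-!
# The two families have no common zeros in codimension one
-/

set_option autoImplicit false
set_option linter.unusedSectionVars false

namespace Pool.Agent.H58.AC

open Pool.Agent.K1H80.EC (IsD isD_left isD_right exists_ext exists_der_ext)
open Pool.Agent.K1H80.AV Pool.Agent.K1H80
open MvPolynomial Module

variable {k F E U : Type} [Field k] [CharZero k] [Field F] [Field E] [Field U] [Algebra k F]
  [Algebra k E] [Algebra k U] [Algebra F E] [Algebra F U] [Algebra E U] [IsScalarTower k F E]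
  [IsScalarTower k E U] [IsScalarTower F E U] {N M r m' ν e R' : ℕ}
  {𝔡 : Dat k F N M r m' ν e R'} {D : Derivation k U U} {Y : 𝔡.A.Co U} {u : Fin M → U}
  {c : Fin M} {z0 : Fin ν → E} {ez : Fin ν → Fin m' → E} {n : ℕ}
  (S : Sys 𝔡 E D Y u c z0 ez n) (c' : Fin N) (B : Subalgebra E U)
  (hB : RZ E (nz 𝔡.A Y c') ≤ B) (huB : ∀ a, u a ∈ B)

theorem nozero_of {ι : Type} (Ψ : ι → B)
    (H : ∀ (κ : Type) [Field κ] [CharZero κ] [Algebra k κ] [Algebra F κ] [Algebra E κ]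
      [IsScalarTower F E κ] [IsScalarTower k E κ] (φ : B →ₐ[E] κ), Big c' B hB φ →
      (∀ i, φ (Ψ i) = 0) → False) : NoZero hB Ψ := by
  intro m s0 hint T _ s hm 𝔔 h𝔔 hΨ hind
  have hdom : IsDomain (B ⧸ 𝔔) := Ideal.Quotient.isDomain 𝔔
  let iF : Field (FractionRing (B ⧸ 𝔔)) := inferInstance
  have hcκ : CharZero (FractionRing (B ⧸ 𝔔)) :=
    charZero_of_injective_algebraMap (algebraMap k (FractionRing (B ⧸ 𝔔))).injective
  let φ : B →ₐ[E] FractionRing (B ⧸ 𝔔) :=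
    (IsScalarTower.toAlgHom E (B ⧸ 𝔔) (FractionRing (B ⧸ 𝔔))).comp (Ideal.Quotient.mkₐ E 𝔔)
  refine H (FractionRing (B ⧸ 𝔔)) φ ⟨m, s0, hint, T, inferInstance, s, hm, ?_⟩ fun i => ?_
  · have h1 := hind.map' (f := IsScalarTower.toAlgHom E (B ⧸ 𝔔) (FractionRing (B ⧸ 𝔔)))
      (IsFractionRing.injective _ _)
    exact h1
  · change algebraMap (B ⧸ 𝔔) (FractionRing (B ⧸ 𝔔)) (Ideal.Quotient.mk 𝔔 (Ψ i)) = 0
    rw [Ideal.Quotient.eq_zero_iff_mem.2 (hΨ i), map_zero]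

/-- the first family -/
noncomputable def Ps1 : ((Fin r → Fin e) × Fin R') ⊕ (((Fin r → Fin e) × Fin R') × Col M m') → B
  | Sum.inl i => (matB c z0 ez c' B hB huB i.1 i.2).det
  | Sum.inr i => muB S c' B hB huB i.1.1 i.1.2 i.2

/-- the second family -/
noncomputable def Ps2 {w : ℕ} (G : Fin w → MvPolynomial (Fin M) F) :
    (((Fin r → Fin e) × Fin R') × Fin w) ⊕ ((((Fin r → Fin e) × Fin R') × Fin w) ⊕
      ((((Fin r → Fin e) × Fin R') × Col M m') × Fin w)) → B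
  | Sum.inl i => (matB c z0 ez c' B hB huB i.1.1 i.1.2).det * gB B huB (G i.2)
  | Sum.inr (Sum.inl i) => dgB S c' B hB huB i.1.1 i.1.2 (G i.2)
  | Sum.inr (Sum.inr i) => muB S c' B hB huB i.1.1.1 i.1.1.2 i.1.2 * gB B huB (G i.2)

theorem nozero1 (hc' : Y.1 c' ≠ 0) : NoZero hB (Ps1 S c' B hB huB) := by
  refine nozero_of c' B hB _ fun κ _ _ _ _ _ _ _ φ hbig h => ?_
  exact ra1 S c' B hB huB φ hc' hbig (fun I l => h (Sum.inl (I, l)))
    (fun I l q => h (Sum.inr ((I, l), q)))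

theorem nozero2 (hc' : Y.1 c' ≠ 0) {w : ℕ} {G : Fin w → MvPolynomial (Fin M) F}
    {d : Fin w → ℕ} (hGd : ∀ j, (G j).IsHomogeneous (d j)) (hred : Red1 𝔡.eqn n G)
    (hne : ∃ j, aeval u (G j) ≠ 0) : NoZero hB (Ps2 S c' B hB huB G) := by
  refine nozero_of c' B hB _ fun κ _ _ _ _ _ _ _ φ hbig h => ?_
  exact ra2 S c' B hB huB φ hc' hbig hGd hred hne (fun I l j => h (Sum.inl ((I, l), j)))
    (fun I l j => h (Sum.inr (Sum.inl ((I, l), j))))
    (fun I l q j => h (Sum.inr (Sum.inr (((I, l), q), j))))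

end Pool.Agent.H58.AC
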