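import Pool.Agent.H58.AC.Ins

/-!
# The inequality in the ultraproduct for a morphism to an abelian variety
-/

set_option autoImplicit false
set_option linter.unusedSectionVars false
set_option linter.unusedVariables false

namespace Pool.Agent.H58.AC

open Pool.Agent.K1H80 Pool.Agent.K1H80.AV
open FF Filter MvPolynomial Module Pool.Agent.W603.LV Pool.Agent.W603.PV Pool.Agent.W603.CZ
open Pool.Agent.Y731.FG
open scoped Classical

theorem indep_of_pl {K : Type} [Field K] {n M : ℕ} {T : Fin (n + 1) → Fin M → K}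
    {s : Fin (n + 1) → Fin M} (h : pl T s ≠ 0) : LinearIndependent K T := by
  let f : (Fin M → K) →ₗ[K] (Fin (n + 1) → K) := LinearMap.funLeft K K s
  refine LinearIndependent.of_comp f ?_
  have h1 : IsUnit (Matrix.of fun i j => T i (s j)) :=
    (Matrix.isUnit_iff_isUnit_det _).2 (IsUnit.mk0 _ h)
  exact Matrix.linearIndependent_rows_iff_isUnit.2 h1

theorem red1_of {k F F1 : Type} [Field k] [Field F] [Field F1] [Algebra k F] [Algebra F F1]
    {M N m' r : ℕ} {X : SmoothVariety F M} {A : AbelianVariety k N} (π : Morphism k X A) {U : Type}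
    [Field U] [Algebra F U] (x : Fin M → U) (b3 : Fin m' → Fin N)
    (hr : X.dim + r + 1 = M) (hm : X.dim + m' = A.dim) {w : ℕ}
    {G : Fin w → MvPolynomial (Fin M) F} (hG : X.IsReducedInCodimOne G) :
    Red1 (dat π F1 x b3 hr hm).eqn X.dim (fun j => map (algebraMap F F1) (G j)) := by
  intro K _ _ q hq hGq hdG b hb a hind
  let _ : Algebra F K := ((algebraMap F1 K).comp (algebraMap F F1)).toAlgebra
  have : IsScalarTower F F1 K := IsScalarTower.of_algebraMap_eq fun _ => rfl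
  have hq' : ∀ i, aeval q (X.eqn i) = 0 := by
    intro i
    have := hq i
    change aeval q (map (algebraMap F F1) (X.eqn i)) = 0 at this
    rwa [aeval_map_algebraMap] at this
  refine hG K q ⟨⟨b, IsUnit.mk0 _ hb⟩, hq'⟩ (fun j => ?_) (fun j v hv => ?_) b hb a ?_
  · have := hGq j
    rwa [aeval_map_algebraMap] at this
  · have h1 := hdG j v ((mem_tangent_map X.eqn q v).2 hv)
    rw [← h1]
    refine Finset.sum_congr rfl fun c _ => ?_
    rw [pderiv_map, aeval_map_algebraMap]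
  · exact hind.restrictScalars (algebraMap F F1).injective

variable {I : Type} {𝒰 : Ultrafilter I} {k F : Type} [Field k] [IsAlgClosed k] [CharZero k]
  [Field F] [Algebra k F] {L : I → Type} [∀ i, Field (L i)] [∀ i, Algebra k (L i)]
  [∀ i, Algebra F (L i)] [∀ i, IsScalarTower k F (L i)]
  [∀ i, IsFF k (L i)] {Δ : Dt 𝒰 k F L} {M N : ℕ} {X : SmoothVariety F M}
  {A : AbelianVariety k N}

theorem aeval_mem_adj {F1 σ : Type} [Field F1] [Algebra F1 Δ.E] [Algebra F1 (UL 𝒰 L)]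
    [IsScalarTower F1 Δ.E (UL 𝒰 L)] {B : Subalgebra Δ.E (UL 𝒰 L)} {v : σ → UL 𝒰 L}
    (hv : ∀ s, v s ∈ B) (p : MvPolynomial σ F1) : aeval v p ∈ B := by
  induction p using MvPolynomial.induction_on with
  | C a =>
    rw [aeval_C, IsScalarTower.algebraMap_apply F1 Δ.E (UL 𝒰 L)]
    exact B.algebraMap_mem _
  | add p q hp hq => rw [map_add]; exact B.add_mem hp hq
  | mul_X p i hp => rw [map_mul, aeval_X]; exact B.mul_mem hp (hv i)

/-- **The inequality in the ultraproduct.** -/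
theorem up_ineq {F1 : Type} [Field F1] [Algebra k F1] [Algebra F F1] [Algebra F1 Δ.E]
    [Algebra F1 (UL 𝒰 L)] [IsScalarTower k F F1] [IsScalarTower k F1 Δ.E]
    [IsScalarTower F F1 Δ.E] [IsScalarTower F F1 (UL 𝒰 L)]
    [IsScalarTower F1 Δ.E (UL 𝒰 L)] (π : Morphism k X A) {x : ∀ i, Fin M → L i}
    (hx0 : ∀ i, ∃ c, x i c ≠ 0)
    (hx : IsCoord X.eqn fun a => um 𝒰 (fun i => x i a))
    (hgen : ∀ (f : MvPolynomial (Fin M) F) (d : ℕ), f.IsHomogeneous d →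
      aeval (fun a => um 𝒰 (fun i => x i a)) f = 0 →
      ∀ (K : Type) [Field K] [Algebra F K] (y : Fin M → K), IsCoord X.eqn y → aeval y f = 0)
    {m' r : ℕ} (b3 : Fin m' → Fin N) (hr : X.dim + r + 1 = M) (hm : X.dim + m' = A.dim)
    {Y Y' : A.Co (UL 𝒰 L)} (hY : π.IsImage (fun a => um 𝒰 (fun i => x i a)) Y.1)
    {z0 : Fin N → Δ.E} (hz0 : IsCoord A.eqn z0)
    (hadd : pt A.eqn Y + pt A.eqn (cmap (IsScalarTower.toAlgHom k Δ.E (UL 𝒰 L)) ⟨z0, hz0⟩) =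
      pt A.eqn Y')
    (gF : Gs F Δ.E A (uD Δ.D) Y') (g1 : Gs F1 Δ.E A (uD Δ.D) Y')
    (Dz0 : ∀ t, uD Δ.D (algebraMap Δ.E (UL 𝒰 L) (z0 t)) = 0)
    {ez : Fin N → Fin m' → Δ.E}
    (hez : ∀ (κ : Type) [Field κ] [CharZero κ] [Algebra F1 κ] [Algebra Δ.E κ]
      [IsScalarTower F1 Δ.E κ]
      (δ : Derivation F1 κ κ) (t : Fin N), δ (algebraMap Δ.E κ (z0 t)) =
        ∑ s, algebraMap Δ.E κ (ez t s) * δ (algebraMap Δ.E κ (z0 (b3 s))))
    (halg : ∃ s : Fin A.dim → UL 𝒰 L,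
      (∀ c, um 𝒰 (fun i => x i c) ≠ 0 → ∀ a, IsAlgebraic (Algebra.adjoin F1 (Set.range s))
        ((um 𝒰 (fun i => x i c))⁻¹ * um 𝒰 (fun i => x i a))) ∧
      (∀ t, IsAlgebraic (Algebra.adjoin F1 (Set.range s)) (algebraMap Δ.E (UL 𝒰 L) (z0 t))) ∧
      (∀ t s', IsAlgebraic (Algebra.adjoin F1 (Set.range s))
        (algebraMap Δ.E (UL 𝒰 L) (ez t s'))) ∧
      ∀ c' t, IsAlgebraic (Algebra.adjoin F1 (Set.range s)) (nz A Y' c' t))
    {w : ℕ} (G : Fin w → MvPolynomial (Fin M) F) (d : Fin w → ℕ)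
    (hGd : ∀ j, (G j).IsHomogeneous (d j)) (hred : X.IsReducedInCodimOne G)
    (hxG : ∀ i, ∃ j, aeval (x i) (G j) ≠ 0)
    (t : ∀ i, Fin (X.dim + 1) → Fin M → L i) (ht : ∀ i, LinearIndependent (L i) (t i))
    (htt : ∀ i j, t i j ∈ tangent X.eqn (x i)) {ε : ℝ} (hε : 0 < ε) :
    ∃ B : ℝ, ∀ᶠ i in (𝒰 : Filter I), ((hgtP k (pl (t i)) - (X.dim + 1) * hgtP k (x i) +
      ∑ᶠ P : Place k (L i), locH G d P (x i) : ℤ) : ℝ) ≤
        ({P : Place k (L i) | 0 < locH G d P (x i)}.ncard : ℝ) + ε * (hgtP k (x i) : ℝ) +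
          B * Δ.χ i := by
  set xu : Fin M → UL 𝒰 L := fun a => um 𝒰 (fun i => x i a) with hxu
  set 𝔡 := dat π F1 xu b3 hr hm with h𝔡
  have S : ∀ c, xu c ≠ 0 → Sys 𝔡 Δ.E (uD Δ.D) Y' (ux xu c) c z0 ez X.dim := fun c hc =>
    sys_of π hx hgen b3 hr hm hY hz0 hadd g1 Dz0 hez halg hc
  obtain ⟨c0, hc0⟩ := hx.1
  have hc0' : xu c0 ≠ 0 := hc0.ne_zero
  obtain ⟨θ, hθ0, hθ1⟩ := (S c0 hc0').exists_theta
  set G1 : Fin w → MvPolynomial (Fin M) F1 := fun j => map (algebraMap F F1) (G j) with hG1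
  have hG1x : ∀ j, aeval xu (G1 j) = aeval xu (G j) := fun j => aeval_map_algebraMap _ _ _
  have hne : ∃ j, aeval xu (G1 j) ≠ 0 := by
    have h8 : ∀ᶠ i in (𝒰 : Filter I), ∃ j, aeval (x i) (G j) ≠ 0 :=
      Eventually.of_forall hxG
    obtain ⟨j, hj⟩ := Pool.Agent.Y852.FG.ev_exists h8
    refine ⟨j, ?_⟩
    rw [hG1x, hxu, ← um_aeval 𝒰 (fun c i => x i c) (G j), um_ne_iff]
    exact hj
  have hH0 : ∀ᶠ i in (𝒰 : Filter I), 0 ≤ hp k xu i := hp_nonneg' ⟨c0, hc0'⟩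
  have hH : ∃ C B : ℕ, ∀ᶠ i in (𝒰 : Filter I), hp k Y'.1 i ≤ C * hp k xu i + B * Δ.χ i := by
    have hcU : CharZero (UL 𝒰 L) :=
      charZero_of_injective_algebraMap (algebraMap k (UL 𝒰 L)).injective
    obtain ⟨l, t0, hlt⟩ := (S c0 hc0').hbp (UL 𝒰 L) (ux xu c0) (S c0 hc0').hu (S c0 hc0').huc
    obtain ⟨b, hb⟩ := (S c0 hc0').hp l
    refine hp_image (Δ := Δ) hc0' (P := fun t => aeval (Sum.elim (ux xu c0)
      fun t => algebraMap Δ.E (UL 𝒰 L) (z0 t)) (𝔡.p l t)) (fun t => ?_) hb hlt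
    refine aeval_mem_adj (F1 := F1) ?_ _
    rintro (a | a)
    · exact Algebra.subset_adjoin ⟨a, rfl⟩
    · exact Subalgebra.algebraMap_mem _ _
  obtain ⟨e1, he1, h1⟩ := core (Δ := Δ) (𝔡 := 𝔡) ⟨c0, hc0'⟩ hr S gF θ hθ0 hθ1
    (fun j => (hGd j).map _) (red1_of π xu b3 hr hm hred) hne hH hH0
  -- the tangent vectors
  set T : Fin (X.dim + 1) → Fin M → UL 𝒰 L := fun j a => um 𝒰 (fun i => t i j a) with hT
  have hTi : LinearIndependent (UL 𝒰 L) T := by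
    obtain ⟨s, hs⟩ : ∃ s : Fin (X.dim + 1) → Fin M, ∀ᶠ i in (𝒰 : Filter I), pl (t i) s ≠ 0 := by
      by_contra hc
      push Not at hc
      have h2 : ∀ᶠ i in (𝒰 : Filter I), ∀ s, ¬ pl (t i) s ≠ 0 :=
        eventually_all.2 fun s => (hc s).mono fun i hi => not_not.2 hi
      obtain ⟨i, hi⟩ := h2.exists
      obtain ⟨s, hs⟩ := exists_pl (ht i)
      exact hi s hs
    refine indep_of_pl (s := s) ?_
    rw [← um_pl]
    exact um_ne_iff.2 hs
  have hTt : ∀ j, T j ∈ tangent X.eqn xu := by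
    intro j i'
    have h2 : ∀ c, aeval xu (pderiv c (X.eqn i')) * T j c =
        um 𝒰 (fun i => aeval (x i) (pderiv c (X.eqn i')) * t i j c) := by
      intro c
      rw [hxu, ← um_aeval 𝒰 (fun c i => x i c) (pderiv c (X.eqn i')), hT]
      exact (map_mul (Ideal.Quotient.mk (ui 𝒰 L)) _ _).symm
    rw [Finset.sum_congr rfl fun c _ => h2 c]
    have h3 : ∑ c, um 𝒰 (fun i => aeval (x i) (pderiv c (X.eqn i')) * t i j c) =
        um 𝒰 (fun i => ∑ c, aeval (x i) (pderiv c (X.eqn i')) * t i j c) := by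
      have h4 := map_sum (Ideal.Quotient.mk (ui 𝒰 L))
        (fun c => ((fun i => aeval (x i) (pderiv c (X.eqn i')) * t i j c) : ∀ i, L i)) Finset.univ
      refine Eq.trans h4.symm ?_
      change _ = Ideal.Quotient.mk (ui 𝒰 L) _
      congr 1
      funext i
      rw [Finset.sum_apply]
    rw [h3, um_zero_iff]
    exact Eventually.of_forall fun i => htt i j i'
  have hTt' : ∀ j, T j ∈ tangent 𝔡.eqn (ux xu c0) := fun j =>
    (mem_tangent_map X.eqn _ _).2 (tangent_smul X.homogeneous xu _ (hTt j))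
  have hrM : r + (X.dim + 1) = M := by omega
  let e'' : Fin r ⊕ Fin (X.dim + 1) ≃ Fin M := finSumFinEquiv.trans (finCongr hrM)
  obtain ⟨γ, hγ0, hγ⟩ := Wd_basis (S c0 hc0') θ hθ0 hθ1 e'' T hTt' hTi
  have hxs : xu = fun a => xu c0 * ux xu c0 a := by
    funext a
    rw [ux, mul_inv_cancel_left₀ hc0']
  refine asm G d x hx0 hxG t ht e''
    (fun s => Wd 𝔡 θ xu (fun s => algebraMap Δ.E (UL 𝒰 L) (z0 (𝔡.b0 s))) s)
    (γ := xu c0 ^ (X.dim + 1) * γ) (mul_ne_zero (pow_ne_zero _ hc0') hγ0) (fun s => ?_)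
    ⟨e1, he1, ?_⟩ hε
  · have h2 : Wd 𝔡 θ xu (fun s => algebraMap Δ.E (UL 𝒰 L) (z0 (𝔡.b0 s))) s =
        xu c0 ^ (X.dim + 1) *
          Wd 𝔡 θ (ux xu c0) (fun s => algebraMap Δ.E (UL 𝒰 L) (z0 (𝔡.b0 s))) s := by
      conv_lhs => rw [hxs]
      exact Wd_smul 𝔡 hr θ (ux xu c0) _ s hc0'
    rw [h2, hγ s, mul_assoc]
  · filter_upwards [h1] with ω h2 s hs m hm'
    exact h2 s hs m (fun j => by rw [hG1x]; exact hm' j)

end Pool.Agent.H58.AC
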