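import Pool.Agent.H58.AC.Pe

/-!
# The truncated inequality for varieties of maximal Albanese dimension
-/

set_option autoImplicit false
set_option linter.unusedSectionVars false
set_option linter.unusedVariables false

namespace Pool.Agent.H58.AC

open Pool.Agent.K1H80 Pool.Agent.K1H80.AV
open FF Filter MvPolynomial Module Pool.Agent.W603.LV Pool.Agent.W603.PV Pool.Agent.W603.CZ
open Pool.Agent.Y731.FG
open scoped Classical

section up

variable {I : Type} {𝒰 : Ultrafilter I} {k F : Type} [Field k] [IsAlgClosed k] [CharZero k]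
  [Field F] [Algebra k F] {L : I → Type} [∀ i, Field (L i)] [∀ i, Algebra k (L i)]
  [∀ i, Algebra F (L i)] [∀ i, IsScalarTower k F (L i)]
  [∀ i, IsFF k (L i)] {Δ : Dt 𝒰 k F L} {M N : ℕ} {X : SmoothVariety F M}
  {A : AbelianVariety k N}

/-- **The inequality in the ultraproduct**, for points in general position. -/
theorem up_pos (π : Morphism k X A) (hπ : π.IsGenericallyFinite) {x : ∀ i, Fin M → L i}
    (hx0 : ∀ i, ∃ c, x i c ≠ 0)
    (hx : IsCoord X.eqn fun a => um 𝒰 (fun i => x i a))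
    (hgen : ∀ (f : MvPolynomial (Fin M) F) (d : ℕ), f.IsHomogeneous d →
      aeval (fun a => um 𝒰 (fun i => x i a)) f = 0 →
      ∀ (K : Type) [Field K] [Algebra F K] (y : Fin M → K), IsCoord X.eqn y → aeval y f = 0)
    {b : Fin M} (hb : um 𝒰 (fun i => x i b) ≠ 0) {a : Fin X.dim → Fin M}
    {z0 : Fin N → Δ.E} (hz0 : IsCoord A.eqn z0) {dd : Fin N} (hzd : z0 dd = 1)
    {c : Fin A.dim → Fin N}
    (hind : AlgebraicIndependent F (Sum.elim (fun i => algebraMap Δ.E (UL 𝒰 L) (z0 (c i)))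
      (fun j => (um 𝒰 (fun i => x i b))⁻¹ * um 𝒰 (fun i => x i (a j)))))
    (Dz0 : ∀ t, uD Δ.D (algebraMap Δ.E (UL 𝒰 L) (z0 t)) = 0)
    {w : ℕ} (G : Fin w → MvPolynomial (Fin M) F) (d : Fin w → ℕ)
    (hGd : ∀ j, (G j).IsHomogeneous (d j)) (hred : X.IsReducedInCodimOne G)
    (hxG : ∀ i, ∃ j, aeval (x i) (G j) ≠ 0)
    (t : ∀ i, Fin (X.dim + 1) → Fin M → L i) (ht : ∀ i, LinearIndependent (L i) (t i))
    (htt : ∀ i j, t i j ∈ tangent X.eqn (x i)) {ε : ℝ} (hε : 0 < ε) :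
    ∃ B : ℝ, ∀ᶠ i in (𝒰 : Filter I), ((hgtP k (pl (t i)) - (X.dim + 1) * hgtP k (x i) +
      ∑ᶠ P : Place k (L i), locH G d P (x i) : ℤ) : ℝ) ≤
        ({P : Place k (L i) | 0 < locH G d P (x i)}.ncard : ℝ) + ε * (hgtP k (x i) : ℝ) +
          B * Δ.χ i := by
  have hcE : CharZero Δ.E := charZero_of_injective_algebraMap (algebraMap k Δ.E).injective
  obtain ⟨Y, Y', hY, hadd, m', b1, b2, b3, c', hc', hm, hi1, hi2, ha1, ha2, ha3, ha4⟩ :=
    exists_pos π hπ hx hgen hb (hz0.map (IsScalarTower.toAlgHom k Δ.E (UL 𝒰 L))) hzd hind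
  -- the field
  let F1 : IntermediateField F Δ.E :=
    IntermediateField.adjoin F (Set.range fun i => z0 (b2 i))
  have hcF1 : CharZero F1 := charZero_of_injective_algebraMap (algebraMap k F1).injective
  have hT1 : IsScalarTower k F1 Δ.E := IsScalarTower.of_algebraMap_eq fun t => rfl
  -- the independence of `B3`
  have hi2' : AlgebraicIndependent F (Sum.elim (fun i => z0 (b3 i)) (fun i => z0 (b2 i))) := by
    refine AlgebraicIndependent.of_comp (IsScalarTower.toAlgHom F Δ.E (UL 𝒰 L)) ?_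
    have h1 : (IsScalarTower.toAlgHom F Δ.E (UL 𝒰 L)) ∘
        (Sum.elim (fun i => z0 (b3 i)) (fun i => z0 (b2 i))) =
        Sum.elim (fun i => algebraMap Δ.E (UL 𝒰 L) (z0 (b3 i)))
          (fun i => algebraMap Δ.E (UL 𝒰 L) (z0 (b2 i))) := by
      funext i
      rcases i with i | i <;> rfl
    rw [h1]
    exact hi2
  have hi3 : AlgebraicIndependent F1 (fun i => z0 (b3 i)) :=
    indep_ext (E := Δ.E) (U := Δ.E) (fun i => z0 (b2 i)) (fun i => z0 (b3 i)) hi2'
  have ha1' : ∀ t, IsAlgebraic (Algebra.adjoin F1 (Set.range fun i => z0 (b3 i))) (z0 t) := by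
    intro t
    have h1 := alg_down (F := F) (E := Δ.E) (U := UL 𝒰 L) (v := z0 t)
      (x := Sum.elim (fun i => z0 (b3 i)) (fun i => z0 (b2 i))) (by
        have h2 : (Set.range fun i => algebraMap Δ.E (UL 𝒰 L)
            (Sum.elim (fun i => z0 (b3 i)) (fun i => z0 (b2 i)) i)) =
            (Set.range fun i => algebraMap Δ.E (UL 𝒰 L) (z0 (b3 i))) ∪
              Set.range fun i => algebraMap Δ.E (UL 𝒰 L) (z0 (b2 i)) := by
          rw [← Set.Sum.elim_range]
          congr 1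
          funext i
          rcases i with i | i <;> rfl
        rw [h2]
        exact ha1 t)
    rw [Set.Sum.elim_range] at h1
    exact alg_ext (E := Δ.E) (U := Δ.E) (x := fun i => z0 (b2 i)) h1
  obtain ⟨ez, hez1, hez2⟩ := der_alg (F := F1) (fun i => z0 (b3 i)) hi3 z0 ha1'
  have hg1 : AlgebraicIndependent F1 (fun i => nz A Y' c' (b1 i)) :=
    indep_ext (fun i => z0 (b2 i)) (fun i => nz A Y' c' (b1 i)) hi1
  have gF : Gs F Δ.E A (uD Δ.D) Y' := gs_of Y' hc' (hi1.comp Sum.inl Sum.inl_injective)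
  have g1 : Gs F1 Δ.E A (uD Δ.D) Y' :=
    { hE := gF.hE, hC := gF.hC, hW := gF.hW, hinter := gF.hinter, hgen := ⟨c', hc', b1, hg1⟩ }
  -- the dimension of the projective space
  obtain ⟨r, hr⟩ : ∃ r, X.dim + r + 1 = M := by
    have h1 := X.smooth (UL 𝒰 L) _ hx
    have h2 := Submodule.finrank_le (tangent X.eqn fun a => um 𝒰 (fun i => x i a))
    rw [h1, Module.finrank_fin_fun] at h2
    exact ⟨M - (X.dim + 1), by omega⟩
  refine up_ineq (F1 := F1) π hx0 hx hgen b3 hr hm hY hz0 hadd gF g1 Dz0 hez2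
    ⟨fun i => nz A Y' c' (b1 i), fun c hc a => alg_ext (ha2 c hc a), fun t => alg_ext (ha3 t),
      fun t s' => ?_, fun c'' t => alg_ext (ha4 c'' t)⟩ G d hGd hred hxG t ht htt hε
  refine alg_trans ?_ (alg_up (U := UL 𝒰 L) (hez1 t s'))
  rintro _ ⟨i, rfl⟩
  exact alg_ext (ha3 (b3 i))

end up

/-- **The main theorem.** -/
theorem acMain {k F : Type} [Field k] [IsAlgClosed k] [CharZero k] [Field F] [Algebra k F]
    [IsFF k F] {M N w : ℕ} (X : SmoothVariety F M) (A : AbelianVariety k N) (π : Morphism k X A)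
    (hπ : π.IsGenericallyFinite) (G : Fin w → MvPolynomial (Fin M) F) (d : Fin w → ℕ)
    (hG : ∀ j, (G j).IsHomogeneous (d j)) (hred : X.IsReducedInCodimOne G)
    (ε : ℝ) (hε : 0 < ε) :
    ∃ (f : MvPolynomial (Fin M) F) (m C : ℕ), f.IsHomogeneous m ∧ X.NonVanishing f ∧
      ∀ (L : Type) [Field L] [Algebra k L] [Algebra F L] [IsScalarTower k F L]
        [FiniteDimensional F L] (x : Fin M → L) (t : Fin (X.dim + 1) → Fin M → L),
        IsCoord X.eqn x → LinearIndependent L t → (∀ j, t j ∈ tangent X.eqn x) →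
        aeval x f ≠ 0 → (∃ j, aeval x (G j) ≠ 0) →
        ((hgtP k (pl t) - (X.dim + 1) * hgtP k x + ∑ᶠ P : Place k L, locH G d P x : ℤ) : ℝ) ≤
          ({P : Place k L | 0 < locH G d P x}.ncard : ℝ) +
            ε * (hgtP k x : ℝ) + C * (Module.finrank F L + disc k F L) := by
  by_contra hcon
  have hF0 : CharZero F := charZero_of_injective_algebraMap (algebraMap k F).injective
  obtain ⟨Ω, iΩ, iFΩ, xg, hxg, hgen0, b, a, hb, hind⟩ := X.generic
  obtain ⟨dd, c, hdens⟩ := dens A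
  let S : Set (MvPolynomial (Fin A.dim ⊕ Fin M) F) := {p | ∃ (f : MvPolynomial (Fin M) F) (m : ℕ),
    f.IsHomogeneous m ∧ aeval xg f ≠ 0 ∧ ∀ (K : Type) [Field K] [Algebra F K] (x : Fin M → K),
      aeval x f ≠ 0 → x b ≠ 0 ∧ pe (Fin A.dim) (fun a => (x b)⁻¹ * x a) p ≠ 0}
  have hS1 : (1 : MvPolynomial (Fin A.dim ⊕ Fin M) F) ∈ S := by
    refine ⟨MvPolynomial.X b, 1, isHomogeneous_X F b, by rw [aeval_X]; exact hb, ?_⟩
    intro K _ _ x hx
    rw [aeval_X] at hx
    exact ⟨hx, by rw [map_one]; exact one_ne_zero⟩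
  obtain ⟨𝒰, h𝒰⟩ := exists_uf S (fun p hp h0 => by
      obtain ⟨f, m, hm, hf, h1⟩ := hp
      exact (h1 Ω xg hf).2 (by rw [h0, map_zero]))
    (fun p hp q hq => by
      obtain ⟨f, m, hm, hf, h1⟩ := hp
      obtain ⟨f', m', hm', hf', h1'⟩ := hq
      refine ⟨f * f', m + m', hm.mul hm', by rw [map_mul]; exact mul_ne_zero hf hf', ?_⟩
      intro K _ _ x hx
      rw [map_mul] at hx
      have h2 := h1 K x (left_ne_zero_of_mul hx)
      have h3 := h1' K x (right_ne_zero_of_mul hx)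
      exact ⟨h2.1, by rw [map_mul]; exact mul_ne_zero h2.2 h3.2⟩)
    ⟨1, hS1⟩
  have hex : ∀ i : S × ℕ, ∃ (L : Type) (_ : Field L) (_ : Algebra k L) (_ : Algebra F L)
      (_ : IsScalarTower k F L) (_ : FiniteDimensional F L) (x : Fin M → L)
      (t : Fin (X.dim + 1) → Fin M → L) (z : Fin N → k), IsCoord X.eqn x ∧
        LinearIndependent L t ∧ (∀ j, t j ∈ tangent X.eqn x) ∧ x b ≠ 0 ∧ IsCoord A.eqn z ∧
        z dd = 1 ∧ aeval (Sum.elim (fun j => algebraMap k L (z (c j)))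
          (fun a => (x b)⁻¹ * x a)) (i.1 : MvPolynomial (Fin A.dim ⊕ Fin M) F) ≠ 0 ∧
        (∃ j, aeval x (G j) ≠ 0) ∧
        ¬ ((hgtP k (pl t) - (X.dim + 1) * hgtP k x + ∑ᶠ P : Place k L, locH G d P x : ℤ) : ℝ) ≤
          ({P : Place k L | 0 < locH G d P x}.ncard : ℝ) +
            ε * (hgtP k x : ℝ) + i.2 * (Module.finrank F L + disc k F L) := by
    rintro ⟨⟨p, f, m, hm, hf, hp⟩, C⟩
    by_contra hno
    apply hcon
    refine ⟨f, m, C, hm, ⟨Ω, iΩ, iFΩ, xg, hxg, hf⟩, ?_⟩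
    intro L _ _ _ _ _ x t h1 h2 h3 h4 h5
    by_contra h7
    obtain ⟨h8, h9⟩ := hp L x h4
    obtain ⟨z, hz1, hz2, hz3⟩ := hdens L _ h9
    rw [aeval_pe] at hz3
    exact hno ⟨L, _, _, _, inferInstance, inferInstance, x, t, z, h1, h2, h3, h8, hz1, hz2, hz3,
      h5, h7⟩
  choose L iF ikL iFL iT iD x t z h1 h2 h3 h4 h5 h6 h7 h8 h9 using hex
  have iFF : ∀ i, IsFF k (L i) := fun i => isFF_of_finite (F := F)
  set χ : S × ℕ → ℤ := fun i => (Module.finrank F (L i) : ℤ) + disc k F (L i) with hχ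
  obtain ⟨Δ, hΔ⟩ := allDT (𝒰 := 𝒰) (k := k) (F := F) (L := L) χ (fun i => le_rfl)
  -- the point of the ultraproduct
  set xu : Fin M → UL 𝒰 L := fun c => um 𝒰 (fun i => x i c) with hxu
  have hxuc : IsCoord X.eqn xu := by
    refine ⟨⟨b, Ne.isUnit (um_ne_iff.2 (Eventually.of_forall h4))⟩, fun l => ?_⟩
    rw [hxu, ← um_aeval 𝒰 (fun c i => x i c) (X.eqn l), um_zero_iff]
    exact Eventually.of_forall fun i => (h1 i).2 l
  have hub : xu b ≠ 0 := um_ne_iff.2 (Eventually.of_forall h4)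
  -- nonvanishing
  have hnv : ∀ p ∈ S, ∀ᶠ i in (𝒰 : Filter (S × ℕ)),
      aeval (Sum.elim (fun j => algebraMap k (L i) (z i (c j))) (fun a => (x i b)⁻¹ * x i a)) p ≠
        0 := by
    intro p hp
    filter_upwards [h𝒰 p hp 0] with i hi h0
    obtain ⟨g, hg⟩ := hi.1
    exact h7 i (by rw [hg, map_mul, h0, zero_mul])
  have hgen : ∀ (f : MvPolynomial (Fin M) F) (m : ℕ), f.IsHomogeneous m → aeval xu f = 0 →
      ∀ (K : Type) [Field K] [Algebra F K] (y : Fin M → K), IsCoord X.eqn y → aeval y f = 0 := by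
    intro f m hm hf
    refine hgen0 f m hm ?_
    by_contra hf0
    have hfS : (rename Sum.inr f : MvPolynomial (Fin A.dim ⊕ Fin M) F) ∈ S := by
      refine ⟨MvPolynomial.X b * f, 1 + m, (isHomogeneous_X F b).mul hm, ?_, ?_⟩
      · rw [map_mul, aeval_X]
        exact mul_ne_zero hb hf0
      · intro K _ _ x' hx'
        rw [map_mul, aeval_X] at hx'
        have h10 := left_ne_zero_of_mul hx'
        refine ⟨h10, ?_⟩
        rw [pe_inr, aeval_smul hm, Ne, C_eq_zero]
        exact mul_ne_zero (pow_ne_zero _ (inv_ne_zero h10)) (right_ne_zero_of_mul hx')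
    rw [hxu, ← um_aeval 𝒰 (fun c i => x i c) f, um_zero_iff] at hf
    obtain ⟨i, hi1, hi2⟩ := (hf.and (hnv _ hfS)).exists
    apply hi2
    rw [aeval_rename]
    have h10 : (Sum.elim (fun j => algebraMap k (L i) (z i (c j))) (fun a => (x i b)⁻¹ * x i a)) ∘
        Sum.inr = fun a => (x i b)⁻¹ * x i a := rfl
    rw [h10, aeval_smul hm]
    have h11 : aeval (x i) f = 0 := hi1
    rw [h11, mul_zero]
  -- the constant point
  let z0 : Fin N → Δ.E := fun s =>
    ⟨um 𝒰 (fun i => algebraMap k (L i) (z i s)),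
      Δ.K0_le (Pool.Agent.Y852.FG.um_const_mem (fun i => z i s))⟩
  have hz0u : ∀ s, algebraMap Δ.E (UL 𝒰 L) (z0 s) =
      um 𝒰 (fun i => algebraMap k (L i) (z i s)) := fun s => rfl
  have hz0d : z0 dd = 1 := by
    apply (algebraMap Δ.E (UL 𝒰 L)).injective
    rw [hz0u, map_one]
    have h10 : um 𝒰 (fun _ : S × ℕ => (1 : L _)) = 1 := map_one (Ideal.Quotient.mk (ui 𝒰 L))
    rw [← h10, um_eq]
    exact Eventually.of_forall fun i => by rw [h6 i, map_one]
  have hz0 : IsCoord A.eqn z0 := by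
    refine ⟨⟨dd, by rw [hz0d]; exact isUnit_one⟩, fun l => ?_⟩
    apply (algebraMap Δ.E (UL 𝒰 L)).injective
    rw [map_zero]
    have h10 := comp_aeval_apply (f := z0) (IsScalarTower.toAlgHom k Δ.E (UL 𝒰 L)) (A.eqn l)
    refine h10.trans ?_
    have h11 := um_aeval 𝒰 (F := k) (fun s i => algebraMap k (L i) (z i s)) (A.eqn l)
    refine Eq.trans h11.symm ?_
    rw [um_zero_iff]
    refine Eventually.of_forall fun i => ?_
    have h12 := comp_aeval_apply (f := z i) (Algebra.ofId k (L i)) (A.eqn l)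
    refine Eq.trans h12.symm ?_
    rw [(h5 i).2 l, map_zero]
  have hindU : AlgebraicIndependent F (Sum.elim (fun i => algebraMap Δ.E (UL 𝒰 L) (z0 (c i)))
      (fun j => (xu b)⁻¹ * xu (a j))) := by
    rw [algebraicIndependent_iff]
    intro P hP
    by_contra hP0
    obtain ⟨Q, hQ0, hQ⟩ := pe_ne hP0
    obtain ⟨f, m, hm, hf⟩ := exists_homog Q b a
    have hPS : (rename (Sum.map id a) P : MvPolynomial (Fin A.dim ⊕ Fin M) F) ∈ S := by
      refine ⟨MvPolynomial.X b * f, 1 + m, (isHomogeneous_X F b).mul hm, ?_, ?_⟩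
      · rw [map_mul, aeval_X, hf Ω xg hb]
        refine mul_ne_zero hb (mul_ne_zero (pow_ne_zero _ hb) fun h => hQ0 ?_)
        exact hind (by rw [h, map_zero])
      · intro K _ _ x' hx'
        rw [map_mul, aeval_X] at hx'
        have h10 := left_ne_zero_of_mul hx'
        refine ⟨h10, ?_⟩
        have h11 := right_ne_zero_of_mul hx'
        rw [hf K x' h10] at h11
        have h12 := hQ K (fun i => (x' b)⁻¹ * x' (a i)) (by
          have h13 : (fun i => (x' b)⁻¹ * x' (a i)) = fun i => x' (a i) / x' b := by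
            funext i
            rw [div_eq_inv_mul]
          rw [h13]
          exact right_ne_zero_of_mul h11)
        intro h0
        apply h12
        rw [← h0]
        unfold pe
        rw [aeval_rename]
        congr 2
        funext i
        rcases i with i | i <;> rfl
    have h10 := hnv _ hPS
    have h11 : um 𝒰 (fun i => aeval (Sum.elim (fun j => algebraMap k (L i) (z i (c j)))
        (fun a => (x i b)⁻¹ * x i a)) (rename (Sum.map id a) P :
          MvPolynomial (Fin A.dim ⊕ Fin M) F)) = 0 := by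
      rw [← hP]
      have h12 : ∀ i, aeval (Sum.elim (fun j => algebraMap k (L i) (z i (c j)))
          (fun a => (x i b)⁻¹ * x i a)) (rename (Sum.map id a) P :
            MvPolynomial (Fin A.dim ⊕ Fin M) F) =
          aeval (fun s => (Sum.elim (fun j i => algebraMap k (L i) (z i (c j)))
            (fun j i => (x i b)⁻¹ * x i (a j)) : Fin A.dim ⊕ Fin X.dim → ∀ i, L i) s i) P := by
        intro i
        rw [aeval_rename]
        congr 2
        funext s
        rcases s with s | s <;> rfl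
      rw [funext h12, um_aeval 𝒰 (F := F)]
      congr 2
      funext s
      rcases s with s | s
      · rfl
      · change um 𝒰 (fun i => (x i b)⁻¹ * x i (a s)) = (xu b)⁻¹ * xu (a s)
        rw [um_mul, um_inv]
    rw [um_zero_iff] at h11
    obtain ⟨i, hi1, hi2⟩ := (h10.and h11).exists
    exact hi1 hi2
  have hx0 : ∀ i, ∃ c, x i c ≠ 0 := fun i => ⟨b, h4 i⟩
  obtain ⟨B, hB⟩ := up_pos (Δ := Δ) π hπ hx0 hxuc hgen hub hz0 hz0d hindU
    (fun s => Pool.Agent.Y852.FG.uD_K0 Δ.D (Pool.Agent.Y852.FG.um_const_mem (fun i => z i s)))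
    G d hG hred h8 t h2 h3 hε
  obtain ⟨C0, hC0⟩ := exists_nat_ge B
  obtain ⟨i, hi1, hi2, hi3⟩ := (hB.and (Δ.nonneg.and (h𝒰 1 hS1 C0))).exists
  apply h9 i
  have g1 : (0 : ℝ) ≤ Δ.χ i := by exact_mod_cast hi2
  have g2 : (B : ℝ) ≤ i.2 := hC0.trans (by exact_mod_cast hi3.2)
  have g3 : (Δ.χ i : ℝ) = Module.finrank F (L i) + disc k F (L i) := by
    rw [hΔ, hχ]
    push_cast
    rfl
  rw [← g3]
  have g9 := mul_le_mul_of_nonneg_right g2 g1
  linarith

end Pool.Agent.H58.AC
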