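import Pool.Agent.H58.AC.Ra

/-!
# Generic points of residue fields
-/

set_option autoImplicit false
set_option linter.unusedSectionVars false

namespace Pool.Agent.H58.AC

open Pool.Agent.K1H80.EC (IsD isD_left isD_right exists_ext exists_der_ext)
open Pool.Agent.K1H80.AV Pool.Agent.K1H80
open MvPolynomial Module

/-- algebraically independent families of maximal size -/
theorem alg_of_card {F U : Type} [Field F] [Field U] [CharZero U] [Algebra F U] {g : ℕ}
    (s : Fin g → U) {w : Fin g → U} (hw : AlgebraicIndependent F w)
    (hws : ∀ i, IsAlgebraic (Algebra.adjoin F (Set.range s)) (w i)) {b : U}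
    (hb : IsAlgebraic (Algebra.adjoin F (Set.range s)) b) :
    IsAlgebraic (Algebra.adjoin F (Set.range w)) b := by
  by_contra hcon
  have h1 := (AlgebraicIndependent.option_iff (a := b)).2 ⟨hw, hcon⟩
  choose δ hδ using fun i : Option (Fin g) => exists_der_ext (k := F) (E := F) (K := U) 0 _ h1
    (fun j => if j = i then 1 else 0)
  have h2 := card_le (F := F) (κ := U) (σ := Option (Fin g)) (τ := Fin g) (ι := Option (Fin g))
    (fun o => o.elim b w) s δ (fun β hβ => by
      funext i
      have h3 := hβ i
      rw [Finset.sum_eq_single i] at h3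
      · rw [(hδ i).2, if_pos rfl, mul_one] at h3
        exact h3
      · intro j _ hj
        rw [(hδ j).2, if_neg (Ne.symm hj), mul_zero]
      · intro h; exact absurd (Finset.mem_univ i) h)
    (fun o => by
      rcases o with _ | i
      · exact hb
      · exact hws i)
  rw [Fintype.card_option, Fintype.card_fin, Nat.card_eq_fintype_card, Fintype.card_fin] at h2
  omega

/-- A homomorphism which keeps a family of maximal size independent is injective on the algebraic
elements. -/
theorem inj_of_indep {F U κ B : Type} [Field F] [Field U] [CharZero U] [Algebra F U] [Field κ]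
    [Algebra F κ] [CommRing B] [IsDomain B] [Algebra F B] (ι : B →ₐ[F] U)
    (hι : Function.Injective ι) (φ : B →ₐ[F] κ) {g : ℕ} (s : Fin g → U) (w : Fin g → B)
    (hws : ∀ i, IsAlgebraic (Algebra.adjoin F (Set.range s)) (ι (w i)))
    (hind : AlgebraicIndependent F (fun i => φ (w i))) {b : B}
    (hb : IsAlgebraic (Algebra.adjoin F (Set.range s)) (ι b)) (hφ : φ b = 0) : b = 0 := by
  by_contra hb0
  have h1 : AlgebraicIndependent F w := hind.of_comp φ
  have h2 : AlgebraicIndependent F (fun i => ι (w i)) := h1.map' (f := ι) hι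
  have h3 := alg_of_card s h2 hws hb
  -- the element is algebraic in the ring
  let R0 : Subalgebra F B := Algebra.adjoin F (Set.range w)
  have h4 : IsAlgebraic R0 b := by
    obtain ⟨p, hp0, hp⟩ := h3
    have hle : ∀ t ∈ Algebra.adjoin F (Set.range fun i => ι (w i)), ∃ t' : R0, ι (t' : B) = t := by
      intro t ht
      have h5 : Algebra.adjoin F (Set.range fun i => ι (w i)) = R0.map ι := by
        rw [AlgHom.map_adjoin]
        congr 1
        rw [← Set.range_comp]
        rfl
      rw [h5] at ht
      obtain ⟨t', ht', rfl⟩ := ht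
      exact ⟨⟨t', ht'⟩, rfl⟩
    choose f hf using fun t : Algebra.adjoin F (Set.range fun i => ι (w i)) => hle t t.2
    have hinj : ∀ x y : R0, ι (x : B) = ι (y : B) → x = y := fun x y h =>
      Subtype.ext (hι h)
    let f' : Algebra.adjoin F (Set.range fun i => ι (w i)) →+* R0 :=
      { toFun := f
        map_one' := hinj _ _ (by rw [hf]; exact (map_one ι).symm)
        map_zero' := hinj _ _ (by rw [hf]; exact (map_zero ι).symm)
        map_add' := fun x y => hinj _ _ (by
          rw [hf, Subalgebra.coe_add, Subalgebra.coe_add, map_add, hf, hf])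
        map_mul' := fun x y => hinj _ _ (by
          rw [hf, Subalgebra.coe_mul, Subalgebra.coe_mul, map_mul, hf, hf]) }
    refine ⟨p.map f', ?_, ?_⟩
    · rw [Ne, Polynomial.map_eq_zero_iff]
      · exact hp0
      · intro x y h
        apply Subtype.ext
        rw [← hf x, ← hf y]
        exact congrArg (fun t : R0 => ι (t : B)) h
    · apply hι
      rw [Polynomial.aeval_def, Polynomial.eval₂_map, map_zero]
      have h5 := Polynomial.hom_eval₂ p ((algebraMap R0 B).comp f') (ι : B →+* U) b
      refine h5.trans ?_
      rw [← hp, Polynomial.aeval_def]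
      have h6 : (ι : B →+* U).comp ((algebraMap R0 B).comp f') = algebraMap _ U := by
        ext x
        exact hf x
      rw [h6]
      rfl
  obtain ⟨r, hr0, c, hc⟩ := h4.exists_nonzero_dvd (mem_nonZeroDivisors_of_ne_zero hb0)
  have h5 : φ (r : B) = 0 := by
    have h6 : (r : B) = b * c := hc
    rw [h6, map_mul, hφ, zero_mul]
  have h6 : (r : B) ∈ Algebra.adjoin F (Set.range w) := r.2
  rw [Algebra.adjoin_range_eq_range_aeval] at h6
  obtain ⟨P, hP⟩ := h6
  have h7 : aeval (fun i => φ (w i)) P = 0 := by
    have h8 := comp_aeval_apply (f := w) φ P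
    rw [← h8]
    have h9 : aeval w P = (r : B) := hP
    rw [h9, h5]
  have h8 : P = 0 := by
    apply hind
    rw [h7, map_zero]
  apply hr0
  apply Subtype.ext
  have h9 : aeval w P = (r : B) := hP
  rw [← h9, h8, map_zero]
  rfl

section rows

variable {F κ : Type} [Field F] [Field κ] [Algebra F κ] {M e r n : ℕ}

/-- enough of the equations -/
theorem exists_rows (eqn : Fin e → MvPolynomial (Fin M) F) (q : Fin M → κ)
    (h : finrank κ (tangent eqn q) = n + 1) (hM : n + r + 1 = M) :
    ∃ I : Fin r → Fin e, ∀ v : Fin M → κ,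
      (∀ i, ∑ a, aeval q (pderiv a (eqn (I i))) * v a = 0) → v ∈ tangent eqn q := by
  classical
  let J : Matrix (Fin e) (Fin M) κ := Matrix.of fun i a => aeval q (pderiv a (eqn i))
  have hker : tangent eqn q = LinearMap.ker J.mulVecLin := by
    ext v
    rw [LinearMap.mem_ker, Matrix.mulVecLin_apply]
    constructor
    · intro hv
      funext i
      exact hv i
    · intro hv i
      exact congrFun hv i
  have hrank : J.rank = r := by
    have h1 := LinearMap.finrank_range_add_finrank_ker J.mulVecLin
    rw [← hker, h, finrank_fin_fun] at h1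
    have h2 : J.rank = finrank κ (LinearMap.range J.mulVecLin) := rfl
    omega
  rw [Matrix.rank_eq_finrank_span_row] at hrank
  obtain ⟨f, hf1, hf2, -⟩ := Submodule.exists_fun_fin_finrank_span_eq κ (Set.range J.row)
  choose I hI using hf1
  refine ⟨fun i => I (Fin.cast hrank.symm i), fun v hv => ?_⟩
  let φ : (Fin M → κ) →ₗ[κ] κ := Fintype.linearCombination κ v
  have hφ : ∀ u, φ u = ∑ a, u a * v a := fun u => by
    rw [Fintype.linearCombination_apply]
    rfl
  have h1 : Submodule.span κ (Set.range f) ≤ LinearMap.ker φ := by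
    rw [Submodule.span_le]
    rintro _ ⟨i, rfl⟩
    have h2 := hv (Fin.cast hrank i)
    rw [SetLike.mem_coe, LinearMap.mem_ker, hφ, ← hI i]
    exact h2
  intro i
  have h2 : J.row i ∈ Submodule.span κ (Set.range f) := by
    rw [hf2]
    exact Submodule.subset_span ⟨i, rfl⟩
  have h3 := h1 h2
  rw [LinearMap.mem_ker, hφ] at h3
  exact h3

end rows

end Pool.Agent.H58.AC
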