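import Pool.Agent.H58.AC.Co

/-!
# Comparison of heights
-/

set_option autoImplicit false
set_option linter.unusedSectionVars false
set_option linter.unusedVariables false

namespace Pool.Agent.H58.AC

open Pool.Agent.K1H80 Pool.Agent.K1H80.AV
open FF Filter MvPolynomial Module Pool.Agent.W603.LV Pool.Agent.W603.PV Pool.Agent.W603.CZ
open Pool.Agent.Y731.FG
open Pool.Agent.K1H80.EC (BQ mem_BQ IsD isD_left isD_right)
open scoped Classical

section one

variable {k : Type} [Field k] [IsAlgClosed k] [CharZero k] {K : Type} [Field K] [Algebra k K]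
  [IsFF k K]

theorem hgtP_le_sum {N : ℕ} {y : Fin N → K} {c : Fin N} (hc : y c ≠ 0) :
    hgtP k y ≤ ∑ t, hgt k ((y c)⁻¹ * y t) := by
  have hc' : (y c)⁻¹ ≠ 0 := inv_ne_zero hc
  rw [← hgtP_smul (k := k) hc' ⟨c, hc⟩]
  set z : Fin N → K := fun t => (y c)⁻¹ * y t with hz
  have hzc : z c ≠ 0 := mul_ne_zero hc' hc
  set T := (minOrd_finite (k := k) (x := z) ⟨c, hzc⟩).toFinset with hT
  rw [hgtP_finset (k := k) ⟨c, hzc⟩ T (fun P hP => by
    rw [hT, Set.Finite.mem_toFinset]; exact hP), ← Finset.sum_neg_distrib]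
  refine le_trans ?_ (Finset.sum_le_sum fun t _ => EC.sum_pole_le (k := k) (z t) T)
  rw [Finset.sum_comm]
  refine Finset.sum_le_sum fun P _ => ?_
  obtain ⟨a, ha, ha2⟩ := exists_minOrd P (x := z) ⟨c, hzc⟩
  rw [← ha2]
  refine (le_max_left _ 0).trans ?_
  exact Finset.single_le_sum (f := fun t => max (-P.ord (z t)) 0) (fun t _ => le_max_right _ _)
    (Finset.mem_univ a)

theorem hgt_div_le' (a b : K) : hgt k (a / b) ≤ hgt k a + hgt k b := by
  rw [div_eq_mul_inv, ← hgt_inv (k := k) b]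
  exact Pool.Agent.W603.CY.hgt_mul_le a b⁻¹

end one

variable {I : Type} {𝒰 : Ultrafilter I} {k F : Type} [Field k] [IsAlgClosed k] [CharZero k]
  [Field F] [Algebra k F] {L : I → Type} [∀ i, Field (L i)] [∀ i, Algebra k (L i)]
  [∀ i, Algebra F (L i)] [∀ i, IsScalarTower k F (L i)]
  [∀ i, IsFF k (L i)] {Δ : Dt 𝒰 k F L} {M N : ℕ}

theorem hp_nonneg' {x : Fin M → UL 𝒰 L} (hx : ∃ c, x c ≠ 0) :
    ∀ᶠ i in (𝒰 : Filter I), 0 ≤ hp k x i := by
  obtain ⟨c, hc⟩ := hx
  filter_upwards [hp_eq (k := k) x, rep_ne hc] with i h1 h2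
  rw [h1]
  exact le_trans (hgt_nonneg _) (hgt_div_le (k := k) (x := fun c => rep (x c) i) c h2)

theorem ht_ux (x : Fin M → UL 𝒰 L) {c : Fin M} (hc : x c ≠ 0) (a : Fin M) :
    ∀ᶠ i in (𝒰 : Filter I), ht k (ux x c a) i ≤ hp k x i := by
  filter_upwards [hp_eq (k := k) x, rep_ne hc, rep_mul (x c)⁻¹ (x a), rep_inv (x c)] with
    i h1 h2 h3 h4
  rw [h1]
  unfold ht ux
  rw [h3, h4]
  exact hgt_div_le (k := k) (x := fun c => rep (x c) i) a h2

theorem hp_le_sum {y : Fin N → UL 𝒰 L} {c : Fin N} (hc : y c ≠ 0) :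
    ∀ᶠ i in (𝒰 : Filter I), hp k y i ≤ ∑ t, ht k (ux y c t) i := by
  have h0 : ∀ᶠ i in (𝒰 : Filter I), ∀ t, rep (ux y c t) i = (rep (y c) i)⁻¹ * rep (y t) i := by
    rw [eventually_all]
    intro t
    filter_upwards [rep_mul (y c)⁻¹ (y t), rep_inv (y c)] with i h3 h4
    unfold ux
    rw [h3, h4]
  filter_upwards [hp_eq (k := k) y, rep_ne hc, h0] with i h1 h2 h3
  rw [h1]
  unfold ht
  simp only [h3]
  exact hgtP_le_sum (k := k) (y := fun c => rep (y c) i) (c := c) h2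

theorem ux_c (x : Fin M → UL 𝒰 L) {c : Fin M} (hc : x c ≠ 0) : ux x c c = 1 :=
  inv_mul_cancel₀ hc

/-- heights of polynomials in the quotients of the coordinates -/
theorem ht_pol (x : Fin M → UL 𝒰 L) {c : Fin M} (hc : x c ≠ 0) {s : UL 𝒰 L}
    (hs : s ∈ Algebra.adjoin Δ.E (Set.range (ux x c))) : ∃ C B : ℕ, ∀ᶠ i in (𝒰 : Filter I),
      ht k s i ≤ C * hp k x i + B * Δ.χ i := by
  let y : Fin M → UL 𝒰 L := fun a => if ux x c a = 0 then 1 else ux x c a
  have hy : ∀ a, y a ≠ 0 := by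
    intro a
    simp only [y]
    split_ifs with h
    · exact one_ne_zero
    · exact h
  have hle : Algebra.adjoin Δ.E (Set.range (ux x c)) ≤ Algebra.adjoin Δ.E (Set.range y) := by
    refine Algebra.adjoin_le ?_
    rintro _ ⟨a, rfl⟩
    by_cases h : ux x c a = 0
    · change ux x c a ∈ Algebra.adjoin Δ.E (Set.range y)
      rw [h]
      exact zero_mem _
    · refine Algebra.subset_adjoin ⟨a, ?_⟩
      simp only [y, if_neg h]
  have hs' := hle hs
  rw [Algebra.adjoin_range_eq_range_aeval] at hs'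
  obtain ⟨p, hp'⟩ := hs'
  obtain ⟨B, hB⟩ := EC.ht_poly (Δ := Δ) y hy p le_rfl
  refine ⟨p.totalDegree * M, B, ?_⟩
  have h1 : ∀ᶠ i in (𝒰 : Filter I), ∀ a, ht k (y a) i ≤ hp k x i := by
    rw [eventually_all]
    intro a
    simp only [y]
    split_ifs with h
    · have h2 := ht_ux (k := k) x hc c
      rw [ux_c x hc] at h2
      exact h2
    · exact ht_ux x hc a
  filter_upwards [hB, h1] with i h2 h3
  have h4 : Hu k y i ≤ M * hp k x i := by
    unfold Hu
    refine (Finset.sum_le_sum fun a _ => h3 a).trans ?_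
    rw [Finset.sum_const, Finset.card_univ, Fintype.card_fin, nsmul_eq_mul]
  have h5 : aeval y p = s := hp'
  rw [h5] at h2
  refine h2.trans ?_
  push_cast
  have h6 := mul_le_mul_of_nonneg_left h4 (Int.natCast_nonneg p.totalDegree)
  linarith

/-- **Heights of the image of a point.** -/
theorem hp_image {x : Fin M → UL 𝒰 L} {c : Fin M} (hc : x c ≠ 0) {y : Fin N → UL 𝒰 L}
    {P : Fin N → UL 𝒰 L} (hP : ∀ t, P t ∈ Algebra.adjoin Δ.E (Set.range (ux x c)))
    {b : UL 𝒰 L} (hy : ∀ t, P t = b * y t) {t0 : Fin N} (ht0 : P t0 ≠ 0) :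
    ∃ C B : ℕ, ∀ᶠ i in (𝒰 : Filter I), hp k y i ≤ C * hp k x i + B * Δ.χ i := by
  choose C B hCB using fun t => ht_pol (Δ := Δ) x hc (hP t)
  have hb : b ≠ 0 := fun h => ht0 (by rw [hy, h, zero_mul])
  have hyt0 : y t0 ≠ 0 := fun h => ht0 (by rw [hy, h, mul_zero])
  refine ⟨∑ t, (C t + C t0), ∑ t, (B t + B t0), ?_⟩
  have hdiv : ∀ t, ux y t0 t = P t / P t0 := by
    intro t
    rw [ux, hy t, hy t0]
    field_simp
  have h1 : ∀ᶠ i in (𝒰 : Filter I), ∀ t, ht k (ux y t0 t) i ≤ ht k (P t) i + ht k (P t0) i := by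
    rw [eventually_all]
    intro t
    rw [hdiv]
    filter_upwards [rep_mul (P t) (P t0)⁻¹, rep_inv (P t0)] with i h2 h3
    unfold ht
    rw [div_eq_mul_inv, h2, h3, ← div_eq_mul_inv]
    exact hgt_div_le' (k := k) _ _
  filter_upwards [hp_le_sum (k := k) hyt0, h1, eventually_all.2 hCB] with i h2 h3 h4
  refine h2.trans ((Finset.sum_le_sum fun t _ => h3 t).trans ?_)
  push_cast
  rw [Finset.sum_mul, Finset.sum_mul, ← Finset.sum_add_distrib]
  refine Finset.sum_le_sum fun t _ => ?_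
  have h5 := h4 t
  have h6 := h4 t0
  linarith

end Pool.Agent.H58.AC
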