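import Pool.Agent.H58.AC.Ra7

/-!
# Contraction of ideals
-/

set_option autoImplicit false
set_option linter.unusedSectionVars false

namespace Pool.Agent.H58.AC

open Pool.Agent.K1H80.AV Pool.Agent.K1H80
open MvPolynomial Module

variable {E U : Type} [Field E] [Field U] [Algebra E U]

/-- the elements of the family have no common zero in codimension one, relative to `R0` -/
def NoZero {R0 B : Subalgebra E U} (hR : R0 ≤ B) {ι : Type} (Ψ : ι → B) : Prop :=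
  ∀ (m : ℕ) (s0 : Fin m → R0), (∀ r : R0, IsIntegral (Algebra.adjoin E (Set.range s0)) r) →
    ∀ (T : Type) [Fintype T] (s : T → R0), m ≤ Fintype.card T + 1 →
    ∀ 𝔔 : Ideal B, 𝔔.IsPrime → (∀ i, Ψ i ∈ 𝔔) →
      ¬ AlgebraicIndependent E (fun a => (Ideal.Quotient.mk 𝔔 (Subalgebra.inclusion hR (s a)) :
        B ⧸ 𝔔))

/-- a prime ideal over the family which contracts into the prime ideal -/
theorem exists_prime {R0 B : Subalgebra E U} (hR : R0 ≤ B) {ι : Type} (Ψ : ι → B)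
    (𝔭 : Ideal R0) (h𝔭 : 𝔭.IsPrime)
    (h : ∀ r : R0, Subalgebra.inclusion hR r ∈ Ideal.span (Set.range Ψ) → r ∈ 𝔭) :
    ∃ 𝔔 : Ideal B, 𝔔.IsPrime ∧ (∀ i, Ψ i ∈ 𝔔) ∧
      ∀ r : R0, Subalgebra.inclusion hR r ∈ 𝔔 → r ∈ 𝔭 := by
  let S : Submonoid B := Submonoid.map (Subalgebra.inclusion hR : R0 →ₐ[E] B) 𝔭.primeCompl
  have hdisj : Disjoint ((Ideal.span (Set.range Ψ) : Ideal B) : Set B) (S : Set B) := by
    rw [Set.disjoint_left]
    rintro _ hx ⟨r, hr, rfl⟩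
    exact hr (h r hx)
  obtain ⟨𝔔, h1, h2, h3⟩ := Ideal.exists_le_prime_disjoint _ S hdisj
  refine ⟨𝔔, h1, fun i => h2 (Ideal.subset_span ⟨i, rfl⟩), fun r hr => ?_⟩
  by_contra hcon
  exact Set.disjoint_left.1 h3 hr ⟨r, hcon, rfl⟩

/-- **Contraction of ideals.** -/
theorem ideal_step {R0 B : Subalgebra E U} (hR : R0 ≤ B) (hfg : Algebra.FiniteType E R0)
    {ι : Type} (Ψ : ι → B) (H : NoZero hR Ψ) :
    ∃ (w : ℕ) (ψ : Fin w → R0), (∀ j, Subalgebra.inclusion hR (ψ j) ∈ Ideal.span (Set.range Ψ)) ∧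
      (∃ j, ψ j ≠ 0) ∧ ∀ (m : ℕ) (s0 : Fin m → R0),
        (∀ r : R0, IsIntegral (Algebra.adjoin E (Set.range s0)) r) →
        ∀ 𝔭 : Ideal R0, 𝔭.IsPrime → (∀ j, ψ j ∈ 𝔭) → ∀ a0,
          ¬ AlgebraicIndependent E (fun a : {a : Fin m // a ≠ a0} =>
            (Ideal.Quotient.mk 𝔭 (s0 a) : R0 ⧸ 𝔭)) := by
  have hno : IsNoetherianRing R0 := Algebra.FiniteType.isNoetherianRing E _
  let 𝔞 : Ideal R0 := (Ideal.span (Set.range Ψ)).comap (Subalgebra.inclusion hR : R0 →ₐ[E] B)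
  obtain ⟨w, ψ, hψ⟩ := Submodule.fg_iff_exists_fin_generating_family.1
    ((isNoetherianRing_iff_ideal_fg R0).1 hno 𝔞)
  have key : ∀ 𝔭 : Ideal R0, 𝔭.IsPrime → (∀ j, ψ j ∈ 𝔭) → ∃ 𝔔 : Ideal B, 𝔔.IsPrime ∧
      (∀ i, Ψ i ∈ 𝔔) ∧ ∀ r : R0, Subalgebra.inclusion hR r ∈ 𝔔 → r ∈ 𝔭 := by
    intro 𝔭 h𝔭 hj
    refine exists_prime hR Ψ 𝔭 h𝔭 fun r hr => ?_
    have h1 : r ∈ 𝔞 := hr
    rw [← hψ] at h1
    exact (Submodule.span_le.2 (by rintro _ ⟨j, rfl⟩; exact hj j)) h1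
  refine ⟨w, ψ, fun j => ?_, ?_, fun m s0 hint 𝔭 h𝔭 hj a0 hind => ?_⟩
  · have h1 : ψ j ∈ 𝔞 := by
      rw [← hψ]
      exact Submodule.subset_span ⟨j, rfl⟩
    exact h1
  · by_contra hcon
    push Not at hcon
    obtain ⟨𝔔, h1, h2, h3⟩ := key ⊥ Ideal.isPrime_bot (fun j => by rw [hcon j]; exact zero_mem _)
    obtain ⟨m, g0, hg1, hg2⟩ := exists_finite_inj_algHom_of_fg E R0
    let s0 : Fin m → R0 := fun i => g0 (MvPolynomial.X i)
    have hgs : g0 = aeval s0 := by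
      apply MvPolynomial.algHom_ext
      intro i
      rw [aeval_X]
    have hs0 : AlgebraicIndependent E s0 := by
      intro p q h
      apply hg1
      rw [hgs]
      exact h
    have hint : ∀ r : R0, IsIntegral (Algebra.adjoin E (Set.range s0)) r := by
      intro r
      obtain ⟨p, hp0, hp⟩ := hg2.to_isIntegral r
      have hle : ∀ q : MvPolynomial (Fin m) E, g0 q ∈ Algebra.adjoin E (Set.range s0) := by
        intro q
        rw [Algebra.adjoin_range_eq_range_aeval, hgs]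
        exact ⟨q, rfl⟩
      let f : MvPolynomial (Fin m) E →+* Algebra.adjoin E (Set.range s0) :=
        (g0 : MvPolynomial (Fin m) E →+* R0).codRestrict
          (Algebra.adjoin E (Set.range s0)).toSubring hle
      refine ⟨p.map f, hp0.map f, ?_⟩
      rw [Polynomial.eval₂_map]
      exact hp
    refine H m s0 hint (Fin m) s0 (by rw [Fintype.card_fin]; omega) 𝔔 h1 h2 ?_
    let f : R0 →ₐ[E] B ⧸ 𝔔 := (Ideal.Quotient.mkₐ E 𝔔).comp (Subalgebra.inclusion hR)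
    have hf : Function.Injective f := by
      rw [injective_iff_map_eq_zero]
      intro r hr
      have h4 : Subalgebra.inclusion hR r ∈ 𝔔 := Ideal.Quotient.eq_zero_iff_mem.1 hr
      exact h3 r h4
    exact hs0.map' (f := f) hf
  · obtain ⟨𝔔, h1, h2, h3⟩ := key 𝔭 h𝔭 hj
    refine H m s0 hint {a : Fin m // a ≠ a0} (fun a => s0 a) (card_ne a0).ge 𝔔 h1 h2 ?_
    intro p q hpq
    apply hind
    -- the difference
    have h4 : aeval (fun a : {a : Fin m // a ≠ a0} => s0 a) (p - q) ∈ 𝔭 := by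
      apply h3
      rw [← Ideal.Quotient.eq_zero_iff_mem]
      have h5 := comp_aeval_apply (f := fun a : {a : Fin m // a ≠ a0} => s0 a)
        ((Ideal.Quotient.mkₐ E 𝔔).comp (Subalgebra.inclusion hR)) (p - q)
      refine h5.trans ?_
      rw [map_sub, sub_eq_zero]
      exact hpq
    have h5 := comp_aeval_apply (f := fun a : {a : Fin m // a ≠ a0} => s0 a)
        (Ideal.Quotient.mkₐ E 𝔭) (p - q)
    have h6 : (Ideal.Quotient.mkₐ E 𝔭) (aeval (fun a : {a : Fin m // a ≠ a0} => s0 a) (p - q)) = 0 :=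
      Ideal.Quotient.eq_zero_iff_mem.2 h4
    rw [h6, map_sub] at h5
    exact sub_eq_zero.1 h5.symm

end Pool.Agent.H58.AC
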