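import Pool.Agent.H58.AC.Pos
import Pool.Agent.H58.AC.Asm

/-!
# The data of a morphism to an abelian variety
-/

set_option autoImplicit false
set_option linter.unusedSectionVars false
set_option linter.unusedVariables false

namespace Pool.Agent.H58.AC

open Pool.Agent.K1H80.AV Pool.Agent.K1H80
open MvPolynomial Module
open scoped Classical

section defs

variable {k F : Type} [Field k] [Field F] [Algebra k F] {M N : ℕ} {X : SmoothVariety F M}
  {A : AbelianVariety k N}

/-- the forms for the sum of the image and a point -/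
noncomputable def padd (π : Morphism k X A) (l1 : Fin π.R) (l2 : Fin A.r) (t : Fin N) :
    MvPolynomial (Fin M ⊕ Fin N) F :=
  aeval (Sum.elim (fun t' => rename Sum.inl (π.p l1 t')) (fun t' => MvPolynomial.X (Sum.inr t')))
    (A.add l2 t)

theorem aeval_padd (π : Morphism k X A) (l1 : Fin π.R) (l2 : Fin A.r) (t : Fin N) {S : Type}
    [CommRing S] [Algebra k S] [Algebra F S] [IsScalarTower k F S] (u : Fin M → S)
    (z : Fin N → S) : aeval (Sum.elim u z) (padd π l1 l2 t) =
      aeval (Sum.elim (fun t' => aeval u (π.p l1 t')) z) (A.add l2 t) := by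
  have h1 := comp_aeval_apply (f := Sum.elim (fun t' => rename Sum.inl (π.p l1 t'))
    (fun t' => (MvPolynomial.X (Sum.inr t') : MvPolynomial (Fin M ⊕ Fin N) F)))
    ((aeval (Sum.elim u z) : MvPolynomial (Fin M ⊕ Fin N) F →ₐ[F] S).restrictScalars k)
    (A.add l2 t)
  have h2 : (fun i => ((aeval (Sum.elim u z) : MvPolynomial (Fin M ⊕ Fin N) F →ₐ[F] S).restrictScalars
      k) (Sum.elim (fun t' => rename Sum.inl (π.p l1 t'))
        (fun t' => (MvPolynomial.X (Sum.inr t') : MvPolynomial (Fin M ⊕ Fin N) F)) i)) =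
      Sum.elim (fun t' => aeval u (π.p l1 t')) z := by
    funext i
    rcases i with i | i
    · change aeval (Sum.elim u z) (rename Sum.inl (π.p l1 i)) = _
      rw [aeval_rename]
      rfl
    · change aeval (Sum.elim u z) (MvPolynomial.X (Sum.inr i)) = _
      rw [aeval_X]
      rfl
  rw [h2] at h1
  exact h1

/-- the data over the field `F1` -/
noncomputable def dat (π : Morphism k X A) (F1 : Type) [Field F1] [Algebra F F1] {U : Type}
    [Field U] [Algebra F U] (x : Fin M → U) {m' r : ℕ} (b3 : Fin m' → Fin N)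
    (hr : X.dim + r + 1 = M) (hm : X.dim + m' = A.dim) :
    Dat k F1 N M r m' N X.e (π.R * A.r) where
  A := A
  eqn := fun i => map (algebraMap F F1) (X.eqn i)
  p := fun l t => if ∃ t, aeval x (π.p (finProdFinEquiv.symm l).1 t) ≠ 0 then
    map (algebraMap F F1) (padd π (finProdFinEquiv.symm l).1 (finProdFinEquiv.symm l).2 t) else 0
  b0 := b3
  dim_eq := by
    simp only [Fintype.card_sum, Fintype.card_fin, Fintype.card_unit]
    omega

theorem mem_tangent_map {F1 K : Type} [Field F1] [Field K] [Algebra F F1] [Algebra F1 K]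
    [Algebra F K] [IsScalarTower F F1 K] {e : ℕ} (eqn : Fin e → MvPolynomial (Fin M) F)
    (q v : Fin M → K) :
    v ∈ tangent (fun i => map (algebraMap F F1) (eqn i)) q ↔ v ∈ tangent eqn q := by
  have h : ∀ i, ∑ c, aeval q (pderiv c (map (algebraMap F F1) (eqn i))) * v c =
      ∑ c, aeval q (pderiv c (eqn i)) * v c := by
    intro i
    refine Finset.sum_congr rfl fun c _ => ?_
    rw [pderiv_map, aeval_map_algebraMap]
  constructor
  · intro h1 i
    rw [← h i]
    exact h1 i
  · intro h1 i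
    refine (h i).trans (h1 i)

end defs

variable {k F F1 E U : Type} [Field k] [CharZero k] [Field F] [Field F1] [Field E] [Field U]
  [Algebra k F] [Algebra k F1] [Algebra k E] [Algebra k U] [Algebra F F1] [Algebra F E]
  [Algebra F U] [Algebra F1 E] [Algebra F1 U] [Algebra E U] [IsScalarTower k F F1]
  [IsScalarTower k F E] [IsScalarTower k F U] [IsScalarTower k F1 E]
  [IsScalarTower k E U] [IsScalarTower F F1 E] [IsScalarTower F E U] [IsScalarTower F F1 U]
  [IsScalarTower F1 E U] {M N : ℕ}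
  {X : SmoothVariety F M} {A : AbelianVariety k N}

/-- **The system.** -/
theorem sys_of (π : Morphism k X A) {x : Fin M → U} (hx : IsCoord X.eqn x)
    (hgen : ∀ (f : MvPolynomial (Fin M) F) (d : ℕ), f.IsHomogeneous d → aeval x f = 0 →
      ∀ (K : Type) [Field K] [Algebra F K] (y : Fin M → K), IsCoord X.eqn y → aeval y f = 0)
    {m' r : ℕ} (b3 : Fin m' → Fin N) (hr : X.dim + r + 1 = M) (hm : X.dim + m' = A.dim)
    {D : Derivation k U U} {Y Y' : A.Co U} (hY : π.IsImage x Y.1) {z0 : Fin N → E}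
    (hz0 : IsCoord A.eqn z0)
    (hadd : pt A.eqn Y + pt A.eqn (cmap (IsScalarTower.toAlgHom k E U) ⟨z0, hz0⟩) = pt A.eqn Y')
    (gF : Gs F1 E A D Y') (Dz0 : ∀ t, D (algebraMap E U (z0 t)) = 0)
    {ez : Fin N → Fin m' → E}
    (hez : ∀ (κ : Type) [Field κ] [CharZero κ] [Algebra F1 κ] [Algebra E κ] [IsScalarTower F1 E κ]
      (δ : Derivation F1 κ κ) (t : Fin N), δ (algebraMap E κ (z0 t)) =
        ∑ s, algebraMap E κ (ez t s) * δ (algebraMap E κ (z0 (b3 s))))
    (halg : ∃ s : Fin A.dim → U,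
      (∀ c, x c ≠ 0 → ∀ a, IsAlgebraic (Algebra.adjoin F1 (Set.range s)) ((x c)⁻¹ * x a)) ∧
      (∀ t, IsAlgebraic (Algebra.adjoin F1 (Set.range s)) (algebraMap E U (z0 t))) ∧
      (∀ t s', IsAlgebraic (Algebra.adjoin F1 (Set.range s)) (algebraMap E U (ez t s'))) ∧
      ∀ c' t, IsAlgebraic (Algebra.adjoin F1 (Set.range s)) (nz A Y' c' t))
    {c : Fin M} (hc : x c ≠ 0) :
    Sys (dat π F1 x b3 hr hm) E D Y' (fun a => (x c)⁻¹ * x a) c z0 ez X.dim where
  g := gF
  hn := hm
  hM := hr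
  hu := fun i => by
    change aeval _ (map (algebraMap F F1) (X.eqn i)) = 0
    rw [aeval_map_algebraMap]
    exact (hx.smul X.homogeneous (IsUnit.mk0 _ (inv_ne_zero hc))).2 i
  huc := inv_mul_cancel₀ hc
  hp := fun l => by
    obtain ⟨⟨l1, l2⟩, rfl⟩ := finProdFinEquiv.surjective l
    by_cases h : ∃ t, aeval x (π.p l1 t) ≠ 0
    · obtain ⟨s, hs⟩ := hY.2 l1
      obtain ⟨t1, ht1⟩ := h
      have hs0 : s ≠ 0 := fun h => ht1 (by rw [hs, h, zero_mul])
      have h1 : ∀ t, aeval (fun a => (x c)⁻¹ * x a) (π.p l1 t) =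
          ((x c)⁻¹ ^ π.deg l1 * s) * Y.1 t := by
        intro t
        rw [aeval_smul (π.homogeneous l1 t), hs, mul_assoc]
      have hr0 : (x c)⁻¹ ^ π.deg l1 * s ≠ 0 := mul_ne_zero (pow_ne_zero _ (inv_ne_zero hc)) hs0
      let Yn : A.Co U := ⟨fun t => ((x c)⁻¹ ^ π.deg l1 * s) * Y.1 t,
        Y.2.smul A.homogeneous (IsUnit.mk0 _ hr0)⟩
      have hYn : pt A.eqn Yn = pt A.eqn Y := (pt_eq_iff.2 ⟨Units.mk0 _ hr0, fun c => rfl⟩).symm
      obtain ⟨h2, -⟩ := A.rep_add (x := Yn) (y := cmap (IsScalarTower.toAlgHom k E U) ⟨z0, hz0⟩)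
        (z := Y') (by rw [hYn, hadd])
      obtain ⟨s', hs'⟩ := h2 l2
      refine ⟨s', fun t => ?_⟩
      change aeval _ (if ∃ t, aeval x (π.p (finProdFinEquiv.symm (finProdFinEquiv (l1, l2))).1 t) ≠ 0
        then map (algebraMap F F1) (padd π (finProdFinEquiv.symm (finProdFinEquiv (l1, l2))).1
          (finProdFinEquiv.symm (finProdFinEquiv (l1, l2))).2 t) else 0) = _
      rw [Equiv.symm_apply_apply, if_pos ⟨t1, ht1⟩, aeval_map_algebraMap, aeval_padd]
      simp only [h1]
      exact hs' t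
    · refine ⟨0, fun t => ?_⟩
      change aeval _ (if ∃ t, aeval x (π.p (finProdFinEquiv.symm (finProdFinEquiv (l1, l2))).1 t) ≠ 0
        then map (algebraMap F F1) (padd π (finProdFinEquiv.symm (finProdFinEquiv (l1, l2))).1
          (finProdFinEquiv.symm (finProdFinEquiv (l1, l2))).2 t) else 0) = _
      rw [Equiv.symm_apply_apply, if_neg h, map_zero, zero_mul]
  Dz0 := Dz0
  hez := hez
  halg := by
    obtain ⟨s, h1, h2, h3, h4⟩ := halg
    exact ⟨s, h1 c hc, h2, h3, h4⟩
  hsm := fun κ _ _ _ q hq hqc => by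
    let _ : Algebra F κ := ((algebraMap F1 κ).comp (algebraMap F F1)).toAlgebra
    have : IsScalarTower F F1 κ := IsScalarTower.of_algebraMap_eq fun _ => rfl
    have hq' : ∀ i, aeval q (X.eqn i) = 0 := by
      intro i
      have := hq i
      change aeval q (map (algebraMap F F1) (X.eqn i)) = 0 at this
      rwa [aeval_map_algebraMap] at this
    have hq2 : IsCoord X.eqn q := ⟨⟨c, by rw [hqc]; exact isUnit_one⟩, hq'⟩
    have ht : tangent (dat π F1 x b3 hr hm).eqn q = tangent X.eqn q := by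
      ext v
      exact mem_tangent_map X.eqn q v
    rw [ht]
    exact ⟨euler' X.homogeneous hq', X.smooth κ q hq2⟩
  hbp := fun κ _ _ _ _ _ _ _ q hq hqc => by
    let _ : Algebra F κ := ((algebraMap F1 κ).comp (algebraMap F F1)).toAlgebra
    have : IsScalarTower F F1 κ := IsScalarTower.of_algebraMap_eq fun _ => rfl
    have : IsScalarTower k F κ := IsScalarTower.of_algebraMap_eq fun t => by
      change _ = algebraMap F1 κ (algebraMap F F1 (algebraMap k F t))
      rw [IsScalarTower.algebraMap_apply k E κ, IsScalarTower.algebraMap_apply F1 E κ,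
        ← IsScalarTower.algebraMap_apply k F F1, ← IsScalarTower.algebraMap_apply k F1 E]
    have hq' : ∀ i, aeval q (X.eqn i) = 0 := by
      intro i
      have := hq i
      change aeval q (map (algebraMap F F1) (X.eqn i)) = 0 at this
      rwa [aeval_map_algebraMap] at this
    have hq2 : IsCoord X.eqn q := ⟨⟨c, by rw [hqc]; exact isUnit_one⟩, hq'⟩
    obtain ⟨y, hy1, hy2, l1, t1, hlt⟩ := π.spec κ q hq2
    obtain ⟨s, hs⟩ := hy2 l1
    have hs0 : s ≠ 0 := fun h => hlt (by rw [hs, h, zero_mul])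
    have hx1 : ∃ t, aeval x (π.p l1 t) ≠ 0 := by
      by_contra hcon
      push Not at hcon
      exact hlt (hgen _ _ (π.homogeneous l1 t1) (hcon t1) κ q hq2)
    let Yn : A.Co κ := ⟨fun t => s * y t, hy1.smul A.homogeneous (IsUnit.mk0 _ hs0)⟩
    let Z : A.Co κ := cmap (IsScalarTower.toAlgHom k E κ) ⟨z0, hz0⟩
    obtain ⟨w, hw⟩ := exists_pt (pt A.eqn Yn + pt A.eqn Z)
    obtain ⟨-, l2, t2, h2⟩ := A.rep_add hw.symm
    refine ⟨finProdFinEquiv (l1, l2), t2, ?_⟩
    change aeval _ (if ∃ t, aeval x (π.p (finProdFinEquiv.symm (finProdFinEquiv (l1, l2))).1 t) ≠ 0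
      then map (algebraMap F F1) (padd π (finProdFinEquiv.symm (finProdFinEquiv (l1, l2))).1
        (finProdFinEquiv.symm (finProdFinEquiv (l1, l2))).2 t2) else 0) ≠ 0
    rw [Equiv.symm_apply_apply, if_pos hx1, aeval_map_algebraMap, aeval_padd]
    simp only [hs]
    exact h2.ne_zero

end Pool.Agent.H58.AC
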