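import Mathlib

/-!
# Linear algebra for square systems with one-dimensional kernel
-/

set_option autoImplicit false
set_option linter.unusedSectionVars false

namespace Pool.Agent.H58.AC

open Matrix Module

variable {κ : Type*} [Field κ] {ι : Type*} [Fintype ι] [DecidableEq ι]

/-- Cramer's rule, when the kernel is at most one-dimensional: if the columns can nowhere be replaced
by `b` such that the matrix becomes regular, then the system is solvable. -/
theorem exists_sol {K : Matrix ι ι κ} {b : ι → κ} {t0 : ι → κ} (ht0 : K *ᵥ t0 = 0) (ht : t0 ≠ 0)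
    (hker : ∀ v, K *ᵥ v = 0 → ∃ β : κ, v = β • t0) (hb : ∀ j, (K.updateCol j b).det = 0) :
    ∃ w, K *ᵥ w = b := by
  obtain ⟨j, hj⟩ : ∃ j, t0 j ≠ 0 := by
    by_contra h
    push Not at h
    exact ht (funext h)
  obtain ⟨c, hc0, hc⟩ := Matrix.exists_mulVec_eq_zero_iff.2 (hb j)
  -- the relation between the columns
  have h1 : K *ᵥ (Function.update c j 0) + c j • b = 0 := by
    rw [← hc]
    funext i
    simp only [Pi.add_apply, Pi.smul_apply, Matrix.mulVec, dotProduct, smul_eq_mul]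
    rw [← Finset.add_sum_erase _ _ (Finset.mem_univ j), ← Finset.add_sum_erase Finset.univ
      (fun l => K.updateCol j b i l * c l) (Finset.mem_univ j)]
    rw [Function.update_self, mul_zero, zero_add, Matrix.updateCol_self]
    rw [add_comm, mul_comm]
    congr 1
    refine Finset.sum_congr rfl fun l hl => ?_
    have hlj : l ≠ j := Finset.ne_of_mem_erase hl
    rw [Function.update_of_ne hlj, Matrix.updateCol_ne hlj]
  by_cases hcj : c j = 0
  · exfalso
    have h2 : Function.update c j 0 = c := by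
      rw [← hcj, Function.update_eq_self]
    rw [hcj, zero_smul, add_zero, h2] at h1
    obtain ⟨β, hβ⟩ := hker c h1
    have h3 : β * t0 j = 0 := by
      have := congrFun hβ j
      rw [hcj] at this
      exact this.symm
    rcases mul_eq_zero.1 h3 with h | h
    · exact hc0 (by rw [hβ, h, zero_smul])
    · exact hj h
  · refine ⟨-(c j)⁻¹ • Function.update c j 0, ?_⟩
    rw [Matrix.mulVec_smul, eq_neg_of_add_eq_zero_left h1, neg_smul, smul_neg, neg_neg, smul_smul,
      inv_mul_cancel₀ hcj, one_smul]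

/-- a subspace of codimension one and a complement -/
theorem exists_split {V T : Submodule κ (ι → κ)} (hVT : V ≤ T) (hdim : finrank κ T ≤ finrank κ V + 1)
    {t : ι → κ} (ht : t ∈ T) (htV : t ∉ V) {v : ι → κ} (hv : v ∈ T) : ∃ β : κ, v - β • t ∈ V := by
  by_contra hcon
  push Not at hcon
  have h1 : finrank κ (V ⊔ κ ∙ t : Submodule κ (ι → κ)) ≥ finrank κ V + 1 := by
    have h2 : V < V ⊔ κ ∙ t := by
      refine lt_of_le_of_ne le_sup_left fun h => htV ?_
      rw [h]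
      exact Submodule.mem_sup_right (Submodule.mem_span_singleton_self t)
    exact Submodule.finrank_lt_finrank_of_lt h2
  have h3 : V ⊔ κ ∙ t ≤ T := sup_le hVT ((Submodule.span_singleton_le_iff_mem _ _).2 ht)
  have h4 : V ⊔ κ ∙ t = T := Submodule.eq_of_le_of_finrank_le h3 (by omega)
  rw [← h4, Submodule.mem_sup] at hv
  obtain ⟨a, ha, b, hb, hab⟩ := hv
  obtain ⟨β, rfl⟩ := Submodule.mem_span_singleton.1 hb
  apply hcon β
  rw [← hab, add_sub_cancel_right]
  exact ha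

/-- The main case: the matrix is singular. -/
theorem lin_sing {K : Matrix ι ι κ} {b c0 : ι → κ} {V T : Submodule κ (ι → κ)} (hVT : V ≤ T)
    (hdim : finrank κ T ≤ finrank κ V + 1) (H : Set ι) (hT : ∀ v, (∀ i ∈ H, (K *ᵥ v) i = 0) → v ∈ T)
    (hinj : ∀ v ∈ V, K *ᵥ v = 0 → v = 0) (hb : ∀ i ∈ H, b i = (K *ᵥ c0) i) (hdet : K.det = 0)
    (hcr : ∀ j, (K.updateCol j b).det = 0) : ∃ v ∈ V, K *ᵥ (c0 + v) = b := by
  obtain ⟨t0, ht0, hK⟩ := Matrix.exists_mulVec_eq_zero_iff.2 hdet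
  have ht0T : t0 ∈ T := hT t0 fun i _ => by rw [hK]; rfl
  have ht0V : t0 ∉ V := fun h => ht0 (hinj t0 h hK)
  obtain ⟨w, hw⟩ := exists_sol hK ht0 (fun v hv => by
    obtain ⟨β, hβ⟩ := exists_split hVT hdim ht0T ht0V (hT v fun i _ => by rw [hv]; rfl)
    refine ⟨β, sub_eq_zero.1 (hinj _ hβ ?_)⟩
    rw [Matrix.mulVec_sub, Matrix.mulVec_smul, hv, hK, smul_zero, sub_zero]) hcr
  obtain ⟨β, hβ⟩ := exists_split hVT hdim ht0T ht0V (v := w - c0) (hT _ fun i hi => by
    rw [Matrix.mulVec_sub, Pi.sub_apply, hw, hb i hi, sub_self])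
  refine ⟨_, hβ, ?_⟩
  rw [show c0 + (w - c0 - β • t0) = w - β • t0 by abel, Matrix.mulVec_sub, Matrix.mulVec_smul, hK,
    smul_zero, sub_zero, hw]

/-- the solution of Cramer's rule, for a singular matrix -/
theorem cramer_sing {K : Matrix ι ι κ} {b : ι → κ} {V T : Submodule κ (ι → κ)} (hVT : V ≤ T)
    (hdim : finrank κ T ≤ finrank κ V + 1) (H : Set ι) (hT : ∀ v, (∀ i ∈ H, (K *ᵥ v) i = 0) → v ∈ T)
    (hinj : ∀ v ∈ V, K *ᵥ v = 0 → v = 0) (hdet : K.det = 0) {j : ι}
    (hcr : (K.updateCol j b).det ≠ 0) (l : (ι → κ) →ₗ[κ] κ) (hl : ∀ v ∈ V, l v = 0)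
    (hl2 : l (fun i => (K.updateCol i b).det) = 0) : ∀ t ∈ T, l t = 0 := by
  have h1 : (fun i => (K.updateCol i b).det) = K.cramer b := by
    funext i
    rw [Matrix.cramer_apply]
  have h2 : K *ᵥ (fun i => (K.updateCol i b).det) = 0 := by
    rw [h1, Matrix.mulVec_cramer, hdet, zero_smul]
  set μ : ι → κ := fun i => (K.updateCol i b).det with hμ
  have hμT : μ ∈ T := hT μ fun i _ => by rw [h2]; rfl
  have hμV : μ ∉ V := fun h => hcr (congrFun (hinj μ h h2) j)
  intro t ht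
  obtain ⟨β, hβ⟩ := exists_split hVT hdim hμT hμV ht
  have h3 := hl _ hβ
  rw [map_sub, map_smul, hl2, smul_zero, sub_zero] at h3
  exact h3

/-- the regular case -/
theorem lin_reg {K : Matrix ι ι κ} {b c0 w : ι → κ} {V T : Submodule κ (ι → κ)} (hVT : V ≤ T)
    (hdim : finrank κ T ≤ finrank κ V + 1) (H : Set ι) (hT : ∀ v, (∀ i ∈ H, (K *ᵥ v) i = 0) → v ∈ T)
    (hb : ∀ i ∈ H, b i = (K *ᵥ c0) i) (hw : K *ᵥ w = b) (l : (ι → κ) →ₗ[κ] κ)
    (hl : ∀ v ∈ V, l v = 0) (hl2 : l (w - c0) = 0) (hl3 : ∃ t ∈ T, l t ≠ 0) :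
    ∃ v ∈ V, K *ᵥ (c0 + v) = b := by
  obtain ⟨t, ht, hlt⟩ := hl3
  have h1 : w - c0 ∈ T := hT _ fun i hi => by
    rw [Matrix.mulVec_sub, Pi.sub_apply, hw, hb i hi, sub_self]
  have htV : t ∉ V := fun h => hlt (hl t h)
  obtain ⟨β, hβ⟩ := exists_split hVT hdim ht htV h1
  have h2 := hl _ hβ
  rw [map_sub, map_smul, hl2, zero_sub, neg_eq_zero, smul_eq_mul] at h2
  have h3 : β = 0 := (mul_eq_zero.1 h2).resolve_right hlt
  rw [h3, zero_smul, sub_zero] at hβ
  refine ⟨_, hβ, ?_⟩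
  rw [add_sub_cancel, hw]

end Pool.Agent.H58.AC
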