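import Pool.Agent.H58.AC.Wd3
import Pool.Graph.R_pool_sql_team_seeded_efc1946e.K1H80.AV.Main

/-!
# The local inequalities in the ultraproduct
-/

set_option autoImplicit false
set_option linter.unusedSectionVars false
set_option linter.unusedVariables false

namespace Pool.Agent.H58.AC

open Pool.Agent.K1H80 Pool.Agent.K1H80.AV
open FF Filter MvPolynomial Module Pool.Agent.W603.LV Pool.Agent.W603.PV Pool.Agent.W603.CZ
open Pool.Agent.Y731.FG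
open Pool.Agent.K1H80.EC (BQ mem_BQ IsD isD_left isD_right)
open scoped Classical

variable {I : Type} {𝒰 : Ultrafilter I} {k F : Type} [Field k] [IsAlgClosed k] [CharZero k]
  [Field F] [Algebra k F] {L : I → Type} [∀ i, Field (L i)] [∀ i, Algebra k (L i)]
  [∀ i, Algebra F (L i)] [∀ i, IsScalarTower k F (L i)]
  [∀ i, IsFF k (L i)] {Δ : Dt 𝒰 k F L}

/-- elements of the ideal generated by a family -/
theorem span_ge {B : Subalgebra Δ.E (UL 𝒰 L)} {Q : Set (Om k L)} (hBQ : B ≤ BQ Δ Q) {ι : Type}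
    [Fintype ι] (Ψ : ι → B) {y : B} (hy : y ∈ Ideal.span (Set.range Ψ)) :
    ∃ e : Om k L → ℤ, Bd 𝒰 Δ.χ e ∧ (∀ ω, 0 ≤ e ω) ∧ ∀ᶠ ω in EV 𝒰 k L, ω ∈ Q → ∀ m : ℤ,
      (∀ i, (Ψ i : UL 𝒰 L) = 0 ∨ m ≤ oo (Ψ i : UL 𝒰 L) ω) →
      ((y : UL 𝒰 L) = 0 ∨ m - e ω ≤ oo (y : UL 𝒰 L) ω) := by
  obtain ⟨b, hb⟩ := (Submodule.mem_span_range_iff_exists_fun B).1 hy
  choose e he he0 h using fun i : ι => mem_BQ.1 (hBQ (b i).2)
  refine ⟨fun ω => ∑ i, e i ω, Bd.sum Δ.nonneg Finset.univ fun i _ => he i,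
    fun ω => Finset.sum_nonneg fun i _ => he0 i ω, ?_⟩
  have hmul : ∀ᶠ ω in EV 𝒰 k L, ∀ i, (b i : UL 𝒰 L) = 0 ∨ (Ψ i : UL 𝒰 L) = 0 ∨
      oo ((b i : UL 𝒰 L) * (Ψ i : UL 𝒰 L)) ω = oo (b i : UL 𝒰 L) ω + oo (Ψ i : UL 𝒰 L) ω := by
    rw [eventually_all]
    intro i
    by_cases h1 : (b i : UL 𝒰 L) = 0
    · exact Eventually.of_forall fun ω => Or.inl h1
    by_cases h2 : (Ψ i : UL 𝒰 L) = 0
    · exact Eventually.of_forall fun ω => Or.inr (Or.inl h2)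
    filter_upwards [oo_mul (k := k) h1 h2] with ω h3
    exact Or.inr (Or.inr h3)
  have hy2 : (y : UL 𝒰 L) = ∑ i, (b i : UL 𝒰 L) * (Ψ i : UL 𝒰 L) := by
    rw [← hb]
    push_cast
    rfl
  filter_upwards [eventually_all.2 h, hmul,
    oo_sum (k := k) Finset.univ fun i => (b i : UL 𝒰 L) * (Ψ i : UL 𝒰 L)] with ω h1 h2 h3 hω m hm
  rw [hy2]
  refine h3 _ fun i _ => ?_
  have h4 : e i ω ≤ ∑ i, e i ω := Finset.single_le_sum (f := fun i => e i ω)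
    (fun i _ => he0 i ω) (Finset.mem_univ i)
  rcases h2 i with h5 | h5 | h5
  · left; rw [h5, zero_mul]
  · left; rw [h5, mul_zero]
  · rcases h1 i hω with h6 | h6
    · left; rw [h6, zero_mul]
    · rcases hm i with h7 | h7
      · left; rw [h7, mul_zero]
      · right
        rw [h5]
        linarith

/-- the negligible error of a family without common zeros in codimension one -/
theorem ng_family {N : ℕ} {A : AbelianVariety k N} {Y : A.Co (UL 𝒰 L)}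
    (gF : Gs F Δ.E A (uD Δ.D) Y) {c' : Fin N} (hc' : Y.1 c' ≠ 0)
    {B : Subalgebra Δ.E (UL 𝒰 L)} (hB : RZ Δ.E (nz A Y c') ≤ B) {Q : Set (Om k L)}
    (hBQ : B ≤ BQ Δ Q) (hQ : Q ⊆ QC Y.1 c') {ι : Type} [Fintype ι] (Ψ : ι → B)
    (H : NoZero hB Ψ) :
    ∃ e : Om k L → ℤ, Ng 𝒰 Δ.χ (hp k Y.1) e ∧ ∀ᶠ ω in EV 𝒰 k L, ω ∈ Q → ∀ m : ℤ,
      (∀ i, (Ψ i : UL 𝒰 L) = 0 ∨ m ≤ oo (Ψ i : UL 𝒰 L) ω) → m ≤ e ω := by
  have hfg : Algebra.FiniteType Δ.E (RZ Δ.E (nz A Y c')) := by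
    rw [← Subalgebra.fg_iff_finiteType]
    exact Subalgebra.fg_def.2 ⟨_, Set.finite_range _, rfl⟩
  obtain ⟨w, ψ, h1, h2, h3⟩ := ideal_step hB hfg Ψ H
  have hct := ctA gF hc' ψ h3 h2
  choose e he he0 h4 using fun j => span_ge (Δ := Δ) hBQ Ψ (h1 j)
  refine ⟨fun ω => max (if ω ∈ QC Y.1 c' then mo (fun j => (ψ j : UL 𝒰 L)) ω else 0) 0 +
    ∑ j, e j ω, hct.pos.add ((Bd.sum Δ.nonneg Finset.univ fun j _ => he j).ng (hp_nonneg Y)), ?_⟩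
  filter_upwards [eventually_all.2 h4] with ω h5 hω m hm
  obtain ⟨j0, hj0⟩ := h2
  obtain ⟨j, hj, hj2⟩ := exists_mo (fun j => (ψ j : UL 𝒰 L))
    ⟨j0, fun h => hj0 (Subtype.ext h)⟩ ω
  have h6 : m - e j ω ≤ oo (ψ j : UL 𝒰 L) ω := (h5 j hω m hm).resolve_left hj
  rw [hj2] at h6
  have h7 : e j ω ≤ ∑ j, e j ω := Finset.single_le_sum (f := fun j => e j ω)
    (fun j _ => he0 j ω) (Finset.mem_univ j)
  have h8 := le_max_left (if ω ∈ QC Y.1 c' then mo (fun j => (ψ j : UL 𝒰 L)) ω else 0) 0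
  rw [if_pos (hQ hω)] at h8 ⊢
  linarith

end Pool.Agent.H58.AC
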