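import Pool.Agent.H58.AC.Lo

/-!
# The local inequalities in the ultraproduct: the two cases
-/

set_option autoImplicit false
set_option linter.unusedSectionVars false
set_option linter.unusedVariables false

namespace Pool.Agent.H58.AC

open Pool.Agent.K1H80 Pool.Agent.K1H80.AV
open FF Filter MvPolynomial Module Pool.Agent.W603.LV Pool.Agent.W603.PV Pool.Agent.W603.CZ
open Pool.Agent.Y731.FG
open Pool.Agent.K1H80.EC (BQ mem_BQ IsD isD_left isD_right)
open scoped Classical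

section field

variable {k F E U : Type} [Field k] [CharZero k] [Field F] [Field E] [Field U] [Algebra k F]
  [Algebra k E] [Algebra k U] [Algebra F E] [Algebra F U] [Algebra E U] [IsScalarTower k F E]
  [IsScalarTower k E U] [IsScalarTower F E U] {N M r m' ν e R' : ℕ}
  {𝔡 : Dat k F N M r m' ν e R'} {D : Derivation k U U} {Y : 𝔡.A.Co U} {u : Fin M → U}
  {c : Fin M} {z0 : Fin ν → E} {ez : Fin ν → Fin m' → E} {n : ℕ}
  (S : Sys 𝔡 E D Y u c z0 ez n) (c' : Fin N) (B : Subalgebra E U)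
  (hB : RZ E (nz 𝔡.A Y c') ≤ B) (huB : ∀ a, u a ∈ B)

theorem coe_uB (P : MvPolynomial (Fin M) F) : ((aeval (uB B huB) P : B) : U) = aeval u P :=
  comp_aeval_apply (f := uB B huB) (B.val.restrictScalars F) P

theorem coe_pB (P : MvPolynomial (Fin M ⊕ Fin ν) F) :
    ((aeval (Sum.elim (uB B huB) fun t => algebraMap E B (z0 t)) P : B) : U) =
      aeval (Sum.elim u fun t => algebraMap E U (z0 t)) P := by
  have h := comp_aeval_apply (f := Sum.elim (uB B huB) fun t => algebraMap E B (z0 t))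
    (B.val.restrictScalars F) P
  refine h.trans ?_
  congr 2
  funext i
  rcases i with i | i <;> rfl

/-- the determinant as an element of the field -/
theorem det_U (I : Fin r → Fin e) (l : Fin R') :
    (((matB c z0 ez c' B hB huB I l).det : B) : U) =
      (𝔡.mat I l c c' u (fun t => algebraMap E U (z0 t)) (fun t s => algebraMap E U (ez t s))
        (nz 𝔡.A Y c')).det := by
  have h1 : (((matB c z0 ez c' B hB huB I l).det : B) : U) =
      ((B.val : B →+* U).mapMatrix (matB c z0 ez c' B hB huB I l)).det :=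
    RingHom.map_det (B.val : B →+* U) _
  rw [h1]
  congr 1
  ext x q
  exact 𝔡.map_ent (comp_val (k := k) (F := F) B) I l c c' (uB B huB)
    (fun t => algebraMap E B (z0 t)) (fun t s => algebraMap E B (ez t s)) (zB c' B hB)
    (𝔡.eq.symm x) q

/-- the derivatives of the equations of the divisor -/
theorem dgB_U (hc' : Y.1 c' ≠ 0) (I : Fin r → Fin e) (l : Fin R') (G : MvPolynomial (Fin M) F) :
    ((dgB S c' B hB huB I l G : B) : U) =
      (((matB c z0 ez c' B hB huB I l).det : B) : U) * D (aeval u G) := by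
  have h1 := chain_cd (isD_left D (RingHom.id U)) u G
  have h2 : D (aeval u G) = ∑ s, aeval u (pderiv s G) * D (u s) +
      cd (fun a => D (algebraMap F U a)) u G := h1
  have h3 : ((cd (fun f => algebraMap E B (S.eF f)) (uB B huB) G : B) : U) =
      cd (fun a => D (algebraMap F U a)) u G := by
    have h4 := map_cd (B.val : B →+* U) (fun f => algebraMap E B (S.eF f)) (uB B huB) G
    refine h4.trans ?_
    congr 1
    funext f
    exact (S.eF_spec f).symm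
  rw [h2, mul_add, Finset.mul_sum]
  unfold dgB
  push_cast
  rw [h3]
  congr 1
  refine Finset.sum_congr rfl fun a _ => ?_
  rw [mu_U S c' B hB huB hc' I l, coe_uB]
  simp only [Sum.elim_inl]
  ring

end field

variable {I : Type} {𝒰 : Ultrafilter I} {k F : Type} [Field k] [IsAlgClosed k] [CharZero k]
  [Field F] [Algebra k F] {L : I → Type} [∀ i, Field (L i)] [∀ i, Algebra k (L i)]
  [∀ i, Algebra F (L i)] [∀ i, IsScalarTower k F (L i)]
  [∀ i, IsFF k (L i)] {Δ : Dt 𝒰 k F L} {F1 : Type} [Field F1]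
    [Algebra k F1] [Algebra F1 Δ.E] [Algebra F1 (UL 𝒰 L)] [IsScalarTower k F1 Δ.E]
    [IsScalarTower F1 Δ.E (UL 𝒰 L)] {N M r m' ν e R' n : ℕ} {𝔡 : Dat k F1 N M r m' ν e R'}
    {Y : 𝔡.A.Co (UL 𝒰 L)} {u : Fin M → UL 𝒰 L} {c : Fin M} {z0 : Fin ν → Δ.E}
    {ez : Fin ν → Fin m' → Δ.E} (S : Sys 𝔡 Δ.E (uD Δ.D) Y u c z0 ez n) {c' : Fin N}
    {B : Subalgebra Δ.E (UL 𝒰 L)} (hB : RZ Δ.E (nz 𝔡.A Y c') ≤ B) (huB : ∀ a, u a ∈ B)
    {Q : Set (Om k L)} (hBQ : B ≤ BQ Δ Q)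

include S hBQ in
/-- the orders of the determinants -/
theorem det_ge (hc' : Y.1 c' ≠ 0) (θ : Fin 𝔡.A.dim → Derivation k (UL 𝒰 L) (UL 𝒰 L))
    (hθ0 : ∀ i (f : F1), θ i (algebraMap F1 (UL 𝒰 L) f) = 0)
    (hθ1 : ∀ i, WW Y (θ i) = Pi.single i 1) :
    ∃ e0 : Om k L → ℤ, Bd 𝒰 Δ.χ e0 ∧ (∀ ω, 0 ≤ e0 ω) ∧ ∀ᶠ ω in EV 𝒰 k L, ω ∈ Q →
      ∀ (J : (Fin r → Fin e) × Fin R') (s : Fin r → Fin M),
        Wd 𝔡 θ u (fun s => algebraMap Δ.E (UL 𝒰 L) (z0 (𝔡.b0 s))) s = 0 ∨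
        (((matB c z0 ez c' B hB huB J.1 J.2).det : B) : UL 𝒰 L) = 0 ∨
        -oo (Wd 𝔡 θ u (fun s => algebraMap Δ.E (UL 𝒰 L) (z0 (𝔡.b0 s))) s) ω - e0 ω ≤
          oo (((matB c z0 ez c' B hB huB J.1 J.2).det : B) : UL 𝒰 L) ω := by
  -- the right hand side of the fundamental identity
  let h : ((Fin r → Fin e) × Fin R') × (Fin r → Fin M) → B := fun J =>
    (Matrix.of fun i j => aeval (uB B huB) (pderiv (J.2 j) (𝔡.eqn (J.1.1 i)))).det *
      aeval (Sum.elim (uB B huB) fun t => algebraMap Δ.E B (z0 t)) (𝔡.p J.1.2 c') ^ 𝔡.A.dim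
  have hh : ∀ J, ((h J : B) : UL 𝒰 L) = (((matB c z0 ez c' B hB huB J.1.1 J.1.2).det : B) : UL 𝒰 L) *
      Wd 𝔡 θ u (fun s => algebraMap Δ.E (UL 𝒰 L) (z0 (𝔡.b0 s))) J.2 := by
    intro J
    rw [det_U, det_KW S c' hc' θ hθ0 hθ1]
    simp only [h]
    push_cast
    rw [coe_pB]
    congr 1
    have h1 : (((Matrix.of fun i j => aeval (uB B huB) (pderiv (J.2 j) (𝔡.eqn (J.1.1 i)))).det :
        B) : UL 𝒰 L) = ((B.val : B →+* UL 𝒰 L).mapMatrix
          (Matrix.of fun i j => aeval (uB B huB) (pderiv (J.2 j) (𝔡.eqn (J.1.1 i))))).det :=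
      RingHom.map_det (B.val : B →+* UL 𝒰 L) _
    rw [h1]
    congr 1
    ext i j
    exact coe_uB B huB _
  choose e1 he he0 h1 using fun J => mem_BQ.1 (hBQ (h J).2)
  refine ⟨fun ω => ∑ J, e1 J ω, Bd.sum Δ.nonneg Finset.univ fun i _ => he i,
    fun ω => Finset.sum_nonneg fun i _ => he0 i ω, ?_⟩
  have hmul : ∀ᶠ ω in EV 𝒰 k L, ∀ J : ((Fin r → Fin e) × Fin R') × (Fin r → Fin M),
      Wd 𝔡 θ u (fun s => algebraMap Δ.E (UL 𝒰 L) (z0 (𝔡.b0 s))) J.2 = 0 ∨
      (((matB c z0 ez c' B hB huB J.1.1 J.1.2).det : B) : UL 𝒰 L) = 0 ∨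
      oo (h J : UL 𝒰 L) ω = oo (((matB c z0 ez c' B hB huB J.1.1 J.1.2).det : B) : UL 𝒰 L) ω +
        oo (Wd 𝔡 θ u (fun s => algebraMap Δ.E (UL 𝒰 L) (z0 (𝔡.b0 s))) J.2) ω := by
    rw [eventually_all]
    intro J
    by_cases h2 : Wd 𝔡 θ u (fun s => algebraMap Δ.E (UL 𝒰 L) (z0 (𝔡.b0 s))) J.2 = 0
    · exact Eventually.of_forall fun ω => Or.inl h2
    by_cases h3 : (((matB c z0 ez c' B hB huB J.1.1 J.1.2).det : B) : UL 𝒰 L) = 0
    · exact Eventually.of_forall fun ω => Or.inr (Or.inl h3)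
    filter_upwards [oo_mul (k := k) h3 h2] with ω h4
    right; right
    rw [hh, h4]
  filter_upwards [eventually_all.2 h1, hmul] with ω h2 h3 hω J s
  rcases h3 (J, s) with h4 | h4 | h4
  · exact Or.inl h4
  · exact Or.inr (Or.inl h4)
  by_cases h5 : Wd 𝔡 θ u (fun s => algebraMap Δ.E (UL 𝒰 L) (z0 (𝔡.b0 s))) s = 0
  · exact Or.inl h5
  by_cases h6 : (((matB c z0 ez c' B hB huB J.1 J.2).det : B) : UL 𝒰 L) = 0
  · exact Or.inr (Or.inl h6)
  right; right
  have h7 : (h (J, s) : UL 𝒰 L) ≠ 0 := by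
    rw [hh]
    exact mul_ne_zero h6 h5
  have h8 := (h2 (J, s) hω).resolve_left h7
  have h9 : e1 (J, s) ω ≤ ∑ J, e1 J ω := Finset.single_le_sum (f := fun J => e1 J ω)
    (fun i _ => he0 i ω) (Finset.mem_univ (J, s))
  rw [h4] at h8
  linarith

end Pool.Agent.H58.AC
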