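import Pool.Agent.H58.AC.Lo2

/-!
# The local inequalities in the ultraproduct: conclusions
-/

set_option autoImplicit false
set_option linter.unusedSectionVars false
set_option linter.unusedVariables false

namespace Pool.Agent.H58.AC

open Pool.Agent.K1H80 Pool.Agent.K1H80.AV
open FF Filter MvPolynomial Module Pool.Agent.W603.LV Pool.Agent.W603.PV Pool.Agent.W603.CZ
open Pool.Agent.Y731.FG
open Pool.Agent.K1H80.EC (BQ mem_BQ IsD isD_left isD_right)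
open scoped Classical

variable {I : Type} {𝒰 : Ultrafilter I} {k F : Type} [Field k] [IsAlgClosed k] [CharZero k]
  [Field F] [Algebra k F] {L : I → Type} [∀ i, Field (L i)] [∀ i, Algebra k (L i)]
  [∀ i, Algebra F (L i)] [∀ i, IsScalarTower k F (L i)]
  [∀ i, IsFF k (L i)] {Δ : Dt 𝒰 k F L} {F1 : Type} [Field F1]
    [Algebra k F1] [Algebra F1 Δ.E] [Algebra F1 (UL 𝒰 L)] [IsScalarTower k F1 Δ.E]
    [IsScalarTower F1 Δ.E (UL 𝒰 L)] {N M r m' ν e R' n : ℕ} {𝔡 : Dat k F1 N M r m' ν e R'}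
    {Y : 𝔡.A.Co (UL 𝒰 L)} {u : Fin M → UL 𝒰 L} {c : Fin M} {z0 : Fin ν → Δ.E}
    {ez : Fin ν → Fin m' → Δ.E} (S : Sys 𝔡 Δ.E (uD Δ.D) Y u c z0 ez n) {c' : Fin N}
    {B : Subalgebra Δ.E (UL 𝒰 L)} (hB : RZ Δ.E (nz 𝔡.A Y c') ≤ B) (huB : ∀ a, u a ∈ B)
    {Q : Set (Om k L)} (hBQ : B ≤ BQ Δ Q)

include S hBQ in
/-- the orders of the numerators of the solution -/
theorem mu_ge (hc' : Y.1 c' ≠ 0) (θ : Fin 𝔡.A.dim → Derivation k (UL 𝒰 L) (UL 𝒰 L))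
    (hθ0 : ∀ i (f : F1), θ i (algebraMap F1 (UL 𝒰 L) f) = 0)
    (hθ1 : ∀ i, WW Y (θ i) = Pi.single i 1)
    (hu : ∀ a, ∀ᶠ ω in EV 𝒰 k L, ω ∈ Q → u a = 0 ∨ 0 ≤ oo (u a) ω) :
    ∃ e0 : Om k L → ℤ, Bd 𝒰 Δ.χ e0 ∧ (∀ ω, 0 ≤ e0 ω) ∧ ∀ᶠ ω in EV 𝒰 k L, ω ∈ Q →
      ∀ (J : (Fin r → Fin e) × Fin R') (q : Col M m') (s : Fin r → Fin M),
        Wd 𝔡 θ u (fun s => algebraMap Δ.E (UL 𝒰 L) (z0 (𝔡.b0 s))) s = 0 ∨
        ((muB S c' B hB huB J.1 J.2 q : B) : UL 𝒰 L) = 0 ∨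
        -oo (Wd 𝔡 θ u (fun s => algebraMap Δ.E (UL 𝒰 L) (z0 (𝔡.b0 s))) s) ω - e0 ω ≤
          oo ((muB S c' B hB huB J.1 J.2 q : B) : UL 𝒰 L) ω := by
  obtain ⟨e1, g1, g2, g3⟩ := det_ge S hB huB hBQ hc' θ hθ0 hθ1
  choose e2 he he0 h1 using fun a => mem_BQ.1 (der_mem (Δ := Δ) (Q := Q) (hu a))
  refine ⟨fun ω => e1 ω + ∑ a, e2 a ω, g1.add (Bd.sum Δ.nonneg Finset.univ fun i _ => he i),
    fun ω => add_nonneg (g2 ω) (Finset.sum_nonneg fun i _ => he0 i ω), ?_⟩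
  have hmul : ∀ᶠ ω in EV 𝒰 k L, ∀ (J : ((Fin r → Fin e) × Fin R') × Fin M),
      (((matB c z0 ez c' B hB huB J.1.1 J.1.2).det : B) : UL 𝒰 L) = 0 ∨ uD Δ.D (u J.2) = 0 ∨
      oo ((((matB c z0 ez c' B hB huB J.1.1 J.1.2).det : B) : UL 𝒰 L) * uD Δ.D (u J.2)) ω =
        oo (((matB c z0 ez c' B hB huB J.1.1 J.1.2).det : B) : UL 𝒰 L) ω +
          oo (uD Δ.D (u J.2)) ω := by
    rw [eventually_all]
    intro J
    by_cases h2 : (((matB c z0 ez c' B hB huB J.1.1 J.1.2).det : B) : UL 𝒰 L) = 0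
    · exact Eventually.of_forall fun ω => Or.inl h2
    by_cases h3 : uD Δ.D (u J.2) = 0
    · exact Eventually.of_forall fun ω => Or.inr (Or.inl h3)
    filter_upwards [oo_mul (k := k) h2 h3] with ω h4
    right; right
    exact h4
  filter_upwards [eventually_all.2 h1, hmul, g3] with ω h2 h3 h4 hω J q s
  have h5 := mu_U S c' B hB huB hc' J.1 J.2 q
  rcases q with a | s'
  · simp only [Sum.elim_inl] at h5
    by_cases h6 : Wd 𝔡 θ u (fun s => algebraMap Δ.E (UL 𝒰 L) (z0 (𝔡.b0 s))) s = 0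
    · exact Or.inl h6
    right
    rw [h5]
    rcases h3 (J, a) with h7 | h7 | h7
    · left; rw [h7, zero_mul]
    · left; rw [h7, mul_zero]
    rcases h4 hω J s with h8 | h8 | h8
    · exact absurd h8 h6
    · left; rw [h8, zero_mul]
    rcases h2 a hω with h9 | h9
    · left; rw [h9, mul_zero]
    right
    rw [h7]
    have h10 : e2 a ω ≤ ∑ a, e2 a ω := Finset.single_le_sum (f := fun a => e2 a ω)
      (fun i _ => he0 i ω) (Finset.mem_univ a)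
    linarith
  · right; left
    rw [h5]
    simp only [Sum.elim_inr]
    rw [S.Dz0, mul_zero]

include S hB huB hBQ in
/-- **The first inequality.** -/
theorem local1 (gF : Gs F Δ.E 𝔡.A (uD Δ.D) Y) (hQ : Q ⊆ QC Y.1 c')
    (hc' : Y.1 c' ≠ 0) (θ : Fin 𝔡.A.dim → Derivation k (UL 𝒰 L) (UL 𝒰 L))
    (hθ0 : ∀ i (f : F1), θ i (algebraMap F1 (UL 𝒰 L) f) = 0)
    (hθ1 : ∀ i, WW Y (θ i) = Pi.single i 1)
    (hu : ∀ a, ∀ᶠ ω in EV 𝒰 k L, ω ∈ Q → u a = 0 ∨ 0 ≤ oo (u a) ω) :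
    ∃ e1 : Om k L → ℤ, Ng 𝒰 Δ.χ (hp k Y.1) e1 ∧ ∀ᶠ ω in EV 𝒰 k L, ω ∈ Q →
      ∀ (s : Fin r → Fin M),
        Wd 𝔡 θ u (fun s => algebraMap Δ.E (UL 𝒰 L) (z0 (𝔡.b0 s))) s ≠ 0 →
        -oo (Wd 𝔡 θ u (fun s => algebraMap Δ.E (UL 𝒰 L) (z0 (𝔡.b0 s))) s) ω ≤ e1 ω := by
  obtain ⟨e1, he1, h1⟩ := ng_family gF hc' hB hBQ hQ _ (nozero1 S c' B hB huB hc')
  obtain ⟨e2, g1, g2, g3⟩ := det_ge S hB huB hBQ hc' θ hθ0 hθ1
  obtain ⟨e3, f1, f2, f3⟩ := mu_ge S hB huB hBQ hc' θ hθ0 hθ1 hu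
  refine ⟨fun ω => e1 ω + (e2 ω + e3 ω), he1.add ((g1.add f1).ng (hp_nonneg Y)), ?_⟩
  filter_upwards [h1, g3, f3] with ω h2 h3 h4 hω s hs
  have h5 := h2 hω (-oo (Wd 𝔡 θ u (fun s => algebraMap Δ.E (UL 𝒰 L) (z0 (𝔡.b0 s))) s) ω -
    (e2 ω + e3 ω)) (fun i => ?_)
  · linarith
  · have h6 := g2 ω
    have h7 := f2 ω
    rcases i with J | J
    · rcases h3 hω J s with h8 | h8 | h8
      · exact absurd h8 hs
      · exact Or.inl h8
      · right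
        change _ ≤ oo (((matB c z0 ez c' B hB huB J.1 J.2).det : B) : UL 𝒰 L) ω
        linarith
    · rcases h4 hω J.1 J.2 s with h8 | h8 | h8
      · exact absurd h8 hs
      · exact Or.inl h8
      · right
        change _ ≤ oo ((muB S c' B hB huB J.1.1 J.1.2 J.2 : B) : UL 𝒰 L) ω
        linarith

include S hB huB hBQ in
/-- **The second inequality.** -/
theorem local2 (gF : Gs F Δ.E 𝔡.A (uD Δ.D) Y) (hQ : Q ⊆ QC Y.1 c')
    (hc' : Y.1 c' ≠ 0) (θ : Fin 𝔡.A.dim → Derivation k (UL 𝒰 L) (UL 𝒰 L))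
    (hθ0 : ∀ i (f : F1), θ i (algebraMap F1 (UL 𝒰 L) f) = 0)
    (hθ1 : ∀ i, WW Y (θ i) = Pi.single i 1)
    (hu : ∀ a, ∀ᶠ ω in EV 𝒰 k L, ω ∈ Q → u a = 0 ∨ 0 ≤ oo (u a) ω)
    {w : ℕ} {G : Fin w → MvPolynomial (Fin M) F1}
    {d : Fin w → ℕ} (hGd : ∀ j, (G j).IsHomogeneous (d j)) (hred : Red1 𝔡.eqn n G)
    (hne : ∃ j, aeval u (G j) ≠ 0) :
    ∃ e1 : Om k L → ℤ, Ng 𝒰 Δ.χ (hp k Y.1) e1 ∧ ∀ᶠ ω in EV 𝒰 k L, ω ∈ Q →
      ∀ (s : Fin r → Fin M),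
        Wd 𝔡 θ u (fun s => algebraMap Δ.E (UL 𝒰 L) (z0 (𝔡.b0 s))) s ≠ 0 →
        ∀ m : ℤ, (∀ j, aeval u (G j) = 0 ∨ m ≤ oo (aeval u (G j)) ω) →
        -oo (Wd 𝔡 θ u (fun s => algebraMap Δ.E (UL 𝒰 L) (z0 (𝔡.b0 s))) s) ω + m - 1 ≤ e1 ω := by
  obtain ⟨e1, he1, h1⟩ := ng_family gF hc' hB hBQ hQ _ (nozero2 S c' B hB huB hc' hGd hred hne)
  obtain ⟨e2, g1, g2, g3⟩ := det_ge S hB huB hBQ hc' θ hθ0 hθ1
  obtain ⟨e3, f1, f2, f3⟩ := mu_ge S hB huB hBQ hc' θ hθ0 hθ1 hu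
  refine ⟨fun ω => e1 ω + (e2 ω + e3 ω + |vo ω.2 (Δ.D ω.1)|),
    he1.add (((g1.add f1).add Δ.vo_bd).ng (hp_nonneg Y)), ?_⟩
  have hgval : ∀ j, ((gB B huB (G j) : B) : UL 𝒰 L) = aeval u (G j) := fun j => coe_uB B huB _
  -- orders of the products
  have hm1 : ∀ᶠ ω in EV 𝒰 k L, ∀ (J : ((Fin r → Fin e) × Fin R') × Fin w),
      (((matB c z0 ez c' B hB huB J.1.1 J.1.2).det : B) : UL 𝒰 L) = 0 ∨ aeval u (G J.2) = 0 ∨
      oo ((((matB c z0 ez c' B hB huB J.1.1 J.1.2).det : B) : UL 𝒰 L) * aeval u (G J.2)) ω =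
        oo (((matB c z0 ez c' B hB huB J.1.1 J.1.2).det : B) : UL 𝒰 L) ω +
          oo (aeval u (G J.2)) ω := by
    rw [eventually_all]
    intro J
    by_cases h2 : (((matB c z0 ez c' B hB huB J.1.1 J.1.2).det : B) : UL 𝒰 L) = 0
    · exact Eventually.of_forall fun ω => Or.inl h2
    by_cases h3 : aeval u (G J.2) = 0
    · exact Eventually.of_forall fun ω => Or.inr (Or.inl h3)
    filter_upwards [oo_mul (k := k) h2 h3] with ω h4
    right; right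
    exact h4
  have hm2 : ∀ᶠ ω in EV 𝒰 k L, ∀ (J : ((Fin r → Fin e) × Fin R') × Fin w),
      (((matB c z0 ez c' B hB huB J.1.1 J.1.2).det : B) : UL 𝒰 L) = 0 ∨
        uD Δ.D (aeval u (G J.2)) = 0 ∨
      oo ((((matB c z0 ez c' B hB huB J.1.1 J.1.2).det : B) : UL 𝒰 L) *
        uD Δ.D (aeval u (G J.2))) ω =
        oo (((matB c z0 ez c' B hB huB J.1.1 J.1.2).det : B) : UL 𝒰 L) ω +
          oo (uD Δ.D (aeval u (G J.2))) ω := by
    rw [eventually_all]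
    intro J
    by_cases h2 : (((matB c z0 ez c' B hB huB J.1.1 J.1.2).det : B) : UL 𝒰 L) = 0
    · exact Eventually.of_forall fun ω => Or.inl h2
    by_cases h3 : uD Δ.D (aeval u (G J.2)) = 0
    · exact Eventually.of_forall fun ω => Or.inr (Or.inl h3)
    filter_upwards [oo_mul (k := k) h2 h3] with ω h4
    right; right
    exact h4
  have hm3 : ∀ᶠ ω in EV 𝒰 k L, ∀ (J : (((Fin r → Fin e) × Fin R') × Col M m') × Fin w),
      ((muB S c' B hB huB J.1.1.1 J.1.1.2 J.1.2 : B) : UL 𝒰 L) = 0 ∨ aeval u (G J.2) = 0 ∨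
      oo (((muB S c' B hB huB J.1.1.1 J.1.1.2 J.1.2 : B) : UL 𝒰 L) * aeval u (G J.2)) ω =
        oo ((muB S c' B hB huB J.1.1.1 J.1.1.2 J.1.2 : B) : UL 𝒰 L) ω +
          oo (aeval u (G J.2)) ω := by
    rw [eventually_all]
    intro J
    by_cases h2 : ((muB S c' B hB huB J.1.1.1 J.1.1.2 J.1.2 : B) : UL 𝒰 L) = 0
    · exact Eventually.of_forall fun ω => Or.inl h2
    by_cases h3 : aeval u (G J.2) = 0
    · exact Eventually.of_forall fun ω => Or.inr (Or.inl h3)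
    filter_upwards [oo_mul (k := k) h2 h3] with ω h4
    right; right
    exact h4
  have hder : ∀ᶠ ω in EV 𝒰 k L, ∀ (j : Fin w), uD Δ.D (aeval u (G j)) = 0 ∨
      oo (aeval u (G j)) ω - 1 - |vo ω.2 (Δ.D ω.1)| ≤ oo (uD Δ.D (aeval u (G j))) ω :=
    eventually_all.2 fun j => EC.oo_uD_ge Δ _
  filter_upwards [h1, g3, f3, hm1, hm2, hm3, hder] with ω h2 h3 h4 k1 k2 k3 kd hω s hs m hm
  have hv := abs_nonneg (vo ω.2 (Δ.D ω.1))
  have h5 := h2 hω (-oo (Wd 𝔡 θ u (fun s => algebraMap Δ.E (UL 𝒰 L) (z0 (𝔡.b0 s))) s) ω + m - 1 -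
    (e2 ω + e3 ω + |vo ω.2 (Δ.D ω.1)|)) (fun i => ?_)
  · linarith
  · have h6 := g2 ω
    have h7 := f2 ω
    rcases i with J | J | J
    · have hval : (((matB c z0 ez c' B hB huB J.1.1 J.1.2).det * gB B huB (G J.2) : B) :
          UL 𝒰 L) = (((matB c z0 ez c' B hB huB J.1.1 J.1.2).det : B) : UL 𝒰 L) *
            aeval u (G J.2) := by
        push_cast
        rw [hgval]
      change (((matB c z0 ez c' B hB huB J.1.1 J.1.2).det * gB B huB (G J.2) : B) :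
          UL 𝒰 L) = 0 ∨ _ ≤ oo (((matB c z0 ez c' B hB huB J.1.1 J.1.2).det *
            gB B huB (G J.2) : B) : UL 𝒰 L) ω
      rw [hval]
      rcases k1 J with h8 | h8 | h8
      · left; rw [h8, zero_mul]
      · left; rw [h8, mul_zero]
      rcases h3 hω J.1 s with h9 | h9 | h9
      · exact absurd h9 hs
      · left; rw [h9, zero_mul]
      rcases hm J.2 with h10 | h10
      · left; rw [h10, mul_zero]
      right
      rw [h8]
      linarith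
    · have hval := dgB_U S c' B hB huB hc' J.1.1 J.1.2 (G J.2)
      change ((dgB S c' B hB huB J.1.1 J.1.2 (G J.2) : B) : UL 𝒰 L) = 0 ∨
        _ ≤ oo ((dgB S c' B hB huB J.1.1 J.1.2 (G J.2) : B) : UL 𝒰 L) ω
      rw [hval]
      rcases k2 J with h8 | h8 | h8
      · left; rw [h8, zero_mul]
      · left; rw [h8, mul_zero]
      rcases h3 hω J.1 s with h9 | h9 | h9
      · exact absurd h9 hs
      · left; rw [h9, zero_mul]
      rcases kd J.2 with h11 | h11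
      · left; rw [h11, mul_zero]
      rcases hm J.2 with h10 | h10
      · left; rw [h10, map_zero, mul_zero]
      right
      rw [h8]
      linarith
    · have hval : ((muB S c' B hB huB J.1.1.1 J.1.1.2 J.1.2 * gB B huB (G J.2) : B) :
          UL 𝒰 L) = ((muB S c' B hB huB J.1.1.1 J.1.1.2 J.1.2 : B) : UL 𝒰 L) *
            aeval u (G J.2) := by
        push_cast
        rw [hgval]
      change ((muB S c' B hB huB J.1.1.1 J.1.1.2 J.1.2 * gB B huB (G J.2) : B) :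
          UL 𝒰 L) = 0 ∨ _ ≤ oo ((muB S c' B hB huB J.1.1.1 J.1.1.2 J.1.2 *
            gB B huB (G J.2) : B) : UL 𝒰 L) ω
      rw [hval]
      rcases k3 J with h8 | h8 | h8
      · left; rw [h8, zero_mul]
      · left; rw [h8, mul_zero]
      rcases h4 hω J.1.1 J.1.2 s with h9 | h9 | h9
      · exact absurd h9 hs
      · left; rw [h9, zero_mul]
      rcases hm J.2 with h10 | h10
      · left; rw [h10, mul_zero]
      right
      rw [h8]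
      linarith

end Pool.Agent.H58.AC
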