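import Pool.Agent.H58.AC.Cd

/-!
# The system of linear equations for the derivatives of the coordinates
-/

set_option autoImplicit false
set_option linter.unusedSectionVars false

namespace Pool.Agent.H58.AC

open Pool.Agent.K1H80.EC (IsD isD_left isD_right)
open Pool.Agent.K1H80.AV
open MvPolynomial

variable {k F : Type} [Field k] [Field F] {N M r m' ν e R' : ℕ}

/-- the rows -/
abbrev Row (A : AbelianVariety k N) (r : ℕ) : Type := Fin r ⊕ (Fin A.dim ⊕ Unit)

/-- the columns -/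
abbrev Col (M m' : ℕ) : Type := Fin M ⊕ Fin m'

/-- The data: equations, a morphism to an abelian variety depending on parameters. -/
structure Dat (k F : Type) [Field k] [Field F] (N M r m' ν e R' : ℕ) where
  A : AbelianVariety k N
  eqn : Fin e → MvPolynomial (Fin M) F
  p : Fin R' → Fin N → MvPolynomial (Fin M ⊕ Fin ν) F
  b0 : Fin m' → Fin ν
  dim_eq : Fintype.card (Row A r) = Fintype.card (Col M m')

variable (𝔡 : Dat k F N M r m' ν e R')

/-- the entries of the matrix -/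
noncomputable def Dat.ent (I : Fin r → Fin e) (l : Fin R') (c : Fin M) (c' : Fin N) {S : Type}
    [CommRing S] [Algebra k S] [Algebra F S] (u : Fin M → S) (z0 : Fin ν → S)
    (ez : Fin ν → Fin m' → S) (z : Fin N → S) : Row 𝔡.A r → Col M m' → S
  | Sum.inl i, Sum.inl a => aeval u (pderiv a (𝔡.eqn (I i)))
  | Sum.inl _, Sum.inr _ => 0
  | Sum.inr (Sum.inl j), Sum.inl a => ∑ t, aeval z (𝔡.A.eta c' j t) *
      (aeval (Sum.elim u z0) (pderiv (Sum.inl a) (𝔡.p l t)) -
        z t * aeval (Sum.elim u z0) (pderiv (Sum.inl a) (𝔡.p l c')))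
  | Sum.inr (Sum.inl j), Sum.inr s => ∑ t, aeval z (𝔡.A.eta c' j t) * ∑ t', ez t' s *
      (aeval (Sum.elim u z0) (pderiv (Sum.inr t') (𝔡.p l t)) -
        z t * aeval (Sum.elim u z0) (pderiv (Sum.inr t') (𝔡.p l c')))
  | Sum.inr (Sum.inr _), Sum.inl a => if a = c then 1 else 0
  | Sum.inr (Sum.inr _), Sum.inr _ => 0

/-- the right hand side -/
noncomputable def Dat.rhs (I : Fin r → Fin e) (l : Fin R') (c' : Fin N) {S : Type}
    [CommRing S] [Algebra k S] [Algebra F S] (e' : F → S) (u : Fin M → S) (z0 : Fin ν → S)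
    (z : Fin N → S) (ww : Fin 𝔡.A.dim → S) : Row 𝔡.A r → S
  | Sum.inl i => -cd e' u (𝔡.eqn (I i))
  | Sum.inr (Sum.inl j) => aeval (Sum.elim u z0) (𝔡.p l c') * ww j -
      ∑ t, aeval z (𝔡.A.eta c' j t) *
        (cd e' (Sum.elim u z0) (𝔡.p l t) - z t * cd e' (Sum.elim u z0) (𝔡.p l c'))
  | Sum.inr (Sum.inr _) => 0

section hom

variable {S S' : Type} [CommRing S] [Algebra k S] [Algebra F S] [CommRing S'] [Algebra k S']
  [Algebra F S'] (ψ : S →+* S')

/-- compatibility with the scalars -/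
structure Comp (k F : Type) [Field k] [Field F] {S S' : Type} [CommRing S] [Algebra k S]
    [Algebra F S] [CommRing S'] [Algebra k S'] [Algebra F S'] (ψ : S →+* S') : Prop where
  hk : ∀ a : k, ψ (algebraMap k S a) = algebraMap k S' a
  hF : ∀ a : F, ψ (algebraMap F S a) = algebraMap F S' a

variable {ψ} (hψ : Comp k F ψ)

include hψ in
theorem Comp.aevalk {σ : Type} (w : σ → S) (P : MvPolynomial σ k) :
    ψ (aeval w P) = aeval (fun i => ψ (w i)) P := by
  let ψ' : S →ₐ[k] S' := { toRingHom := ψ, commutes' := hψ.hk }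
  exact comp_aeval_apply (f := w) ψ' P

include hψ in
theorem Comp.aevalF {σ : Type} (w : σ → S) (P : MvPolynomial σ F) :
    ψ (aeval w P) = aeval (fun i => ψ (w i)) P := by
  let ψ' : S →ₐ[F] S' := { toRingHom := ψ, commutes' := hψ.hF }
  exact comp_aeval_apply (f := w) ψ' P

theorem elim_map (ψ : S →+* S') (u : Fin M → S) (z0 : Fin ν → S) :
    (fun i => ψ (Sum.elim u z0 i)) = Sum.elim (fun a => ψ (u a)) (fun t => ψ (z0 t)) := by
  funext i
  rcases i with i | i <;> rfl

include hψ in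
theorem Dat.map_ent (I : Fin r → Fin e) (l : Fin R') (c : Fin M) (c' : Fin N) (u : Fin M → S)
    (z0 : Fin ν → S) (ez : Fin ν → Fin m' → S) (z : Fin N → S) (ρ : Row 𝔡.A r) (q : Col M m') :
    ψ (𝔡.ent I l c c' u z0 ez z ρ q) = 𝔡.ent I l c c' (fun a => ψ (u a)) (fun t => ψ (z0 t))
      (fun t s => ψ (ez t s)) (fun t => ψ (z t)) ρ q := by
  rcases ρ with i | j | _ <;> rcases q with a | s
  · exact hψ.aevalF _ _
  · exact map_zero ψ
  · simp only [Dat.ent, map_sum, map_mul, map_sub, hψ.aevalk, hψ.aevalF, elim_map]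
  · simp only [Dat.ent, map_sum, map_mul, map_sub, hψ.aevalk, hψ.aevalF, elim_map]
  · simp only [Dat.ent]
    split_ifs
    · exact map_one ψ
    · exact map_zero ψ
  · exact map_zero ψ

include hψ in
theorem Dat.map_rhs (I : Fin r → Fin e) (l : Fin R') (c' : Fin N) (e' : F → S) (u : Fin M → S)
    (z0 : Fin ν → S) (z : Fin N → S) (ww : Fin 𝔡.A.dim → S) (ρ : Row 𝔡.A r) :
    ψ (𝔡.rhs I l c' e' u z0 z ww ρ) = 𝔡.rhs I l c' (fun a => ψ (e' a)) (fun a => ψ (u a))
      (fun t => ψ (z0 t)) (fun t => ψ (z t)) (fun j => ψ (ww j)) ρ := by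
  rcases ρ with i | j | _
  · simp only [Dat.rhs, map_neg, map_cd]
  · simp only [Dat.rhs, map_sub, map_mul, map_sum, hψ.aevalk, hψ.aevalF, map_cd, elim_map]
  · exact map_zero ψ

include hψ in
/-- **The equations for the derivatives.** -/
theorem Dat.eqs {I : Fin r → Fin e} {l : Fin R'} {c : Fin M} {c' : Fin N} {u : Fin M → S}
    {z0 : Fin ν → S} {ez : Fin ν → Fin m' → S} {z : Fin N → S} {d : S → S'} (hd : IsD ψ d)
    (hu : ∀ i, aeval u (𝔡.eqn i) = 0) (huc : u c = 1)
    (hp : ∀ t, aeval (Sum.elim u z0) (𝔡.p l t) = z t * aeval (Sum.elim u z0) (𝔡.p l c'))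
    (hz0 : ∀ t, d (z0 t) = ∑ s, ψ (ez t s) * d (z0 (𝔡.b0 s))) (ρ : Row 𝔡.A r) :
    ∑ q, 𝔡.ent I l c c' (fun a => ψ (u a)) (fun t => ψ (z0 t)) (fun t s => ψ (ez t s))
      (fun t => ψ (z t)) ρ q * Sum.elim (fun a => d (u a)) (fun s => d (z0 (𝔡.b0 s))) q =
    𝔡.rhs I l c' (fun a => d (algebraMap F S a)) (fun a => ψ (u a)) (fun t => ψ (z0 t))
      (fun t => ψ (z t)) (fun j => ∑ t, aeval (fun t => ψ (z t)) (𝔡.A.eta c' j t) * d (z t)) ρ := by
  rw [Fintype.sum_sum_type]
  simp only [Sum.elim_inl, Sum.elim_inr]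
  rcases ρ with i | j | _
  · simp only [Dat.ent, Dat.rhs, zero_mul, Finset.sum_const_zero, add_zero]
    have h1 := chain_cd hd u (𝔡.eqn (I i))
    rw [hu, hd.zero'] at h1
    rw [eq_neg_iff_add_eq_zero, h1]
    simp only [hψ.aevalF]
  · simp only [Dat.ent, Dat.rhs]
    -- the derivatives of the coordinates of the point of the abelian variety
    have h1 : ∀ t, ∑ a, aeval (Sum.elim (fun a => ψ (u a)) fun t => ψ (z0 t))
          (pderiv (Sum.inl a) (𝔡.p l t)) * d (u a) +
        ∑ t', aeval (Sum.elim (fun a => ψ (u a)) fun t => ψ (z0 t))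
          (pderiv (Sum.inr t') (𝔡.p l t)) * d (z0 t') =
        d (aeval (Sum.elim u z0) (𝔡.p l t)) - cd (fun a => d (algebraMap F S a))
          (Sum.elim (fun a => ψ (u a)) fun t => ψ (z0 t)) (𝔡.p l t) := by
      intro t
      rw [chain_cd hd, Fintype.sum_sum_type]
      simp only [hψ.aevalF, elim_map, Sum.elim_inl, Sum.elim_inr]
      ring
    have h2 : ∀ t, d (aeval (Sum.elim u z0) (𝔡.p l t)) = ψ (z t) *
        d (aeval (Sum.elim u z0) (𝔡.p l c')) +
        aeval (Sum.elim (fun a => ψ (u a)) fun t => ψ (z0 t)) (𝔡.p l c') * d (z t) := by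
      intro t
      rw [hp t, hd.mul, hψ.aevalF, elim_map]
    have h3 : ∀ (f : Fin N → Fin ν → S'), ∑ s, (∑ t, aeval (fun t => ψ (z t))
        (𝔡.A.eta c' j t) * ∑ t', ψ (ez t' s) * f t t') * d (z0 (𝔡.b0 s)) =
        ∑ t, aeval (fun t => ψ (z t)) (𝔡.A.eta c' j t) * ∑ t', f t t' * d (z0 t') := by
      intro f
      simp only [Finset.sum_mul]
      rw [Finset.sum_comm]
      refine Finset.sum_congr rfl fun t _ => ?_
      have h4 : ∀ t', f t t' * d (z0 t') = ∑ s, ψ (ez t' s) * f t t' * d (z0 (𝔡.b0 s)) := by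
        intro t'
        rw [hz0 t', Finset.mul_sum]
        exact Finset.sum_congr rfl fun s _ => by ring
      rw [Finset.sum_congr rfl fun t' _ => h4 t', Finset.sum_comm, Finset.mul_sum]
      refine Finset.sum_congr rfl fun s _ => ?_
      rw [mul_assoc, Finset.sum_mul]
    rw [h3]
    simp only [Finset.sum_mul]
    rw [Finset.sum_comm, ← Finset.sum_add_distrib]
    rw [Finset.mul_sum, ← Finset.sum_sub_distrib]
    refine Finset.sum_congr rfl fun t _ => ?_
    have h5 := h1 t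
    have h6 := h1 c'
    rw [h2 t] at h5
    simp only [sub_mul, mul_assoc, Finset.sum_sub_distrib, ← Finset.mul_sum] at h5 h6 ⊢
    linear_combination (aeval (fun t => ψ (z t)) (𝔡.A.eta c' j t)) * h5 -
      (aeval (fun t => ψ (z t)) (𝔡.A.eta c' j t)) * ψ (z t) * h6
  · simp only [Dat.ent, Dat.rhs, zero_mul, Finset.sum_const_zero, add_zero, ite_mul, one_mul]
    rw [Finset.sum_ite_eq' Finset.univ c, if_pos (Finset.mem_univ c), huc, hd.one']

end hom

section mat

/-- an identification of rows and columns -/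
noncomputable def Dat.eq : Row 𝔡.A r ≃ Col M m' := Fintype.equivOfCardEq 𝔡.dim_eq

variable {S : Type} [CommRing S] [Algebra k S] [Algebra F S]

/-- the matrix -/
noncomputable def Dat.mat (I : Fin r → Fin e) (l : Fin R') (c : Fin M) (c' : Fin N)
    (u : Fin M → S) (z0 : Fin ν → S) (ez : Fin ν → Fin m' → S) (z : Fin N → S) :
    Matrix (Col M m') (Col M m') S :=
  Matrix.of fun x y => 𝔡.ent I l c c' u z0 ez z (𝔡.eq.symm x) y

/-- the right hand side -/
noncomputable def Dat.vec (I : Fin r → Fin e) (l : Fin R') (c' : Fin N) (e' : F → S)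
    (u : Fin M → S) (z0 : Fin ν → S) (z : Fin N → S) (ww : Fin 𝔡.A.dim → S) : Col M m' → S :=
  fun x => 𝔡.rhs I l c' e' u z0 z ww (𝔡.eq.symm x)

end mat

end Pool.Agent.H58.AC
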