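import Mathlib

/-!
# Transcendence bases adapted to a decomposition
-/

set_option autoImplicit false

namespace Pool.Agent.H58.AC

open Set

/-- adapted bases in a matroid -/
theorem mtr_split {α : Type} (M : Matroid α) (hE : M.E = univ) {R1 R2 R3 : Set α} {n g : ℕ}
    (h1 : M.eRk R1 ≤ g) (h2 : M.eRk R2 ≤ g) (h3 : M.eRk R3 ≤ n) (h23 : (n : ℕ∞) + g ≤ M.eRk (R2 ∪ R3))
    (hc1 : R2 ⊆ M.closure (R1 ∪ R3)) (hc2 : R3 ⊆ M.closure (R1 ∪ R2))
    (hc3 : R1 ⊆ M.closure (R2 ∪ R3)) :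
    ∃ B1 B2 B3 : Set α, B1 ⊆ R1 ∧ B2 ⊆ R2 ∧ B3 ⊆ R2 ∧ M.Indep (B1 ∪ B2) ∧ Disjoint B1 B2 ∧
      M.Indep (B2 ∪ B3) ∧ Disjoint B2 B3 ∧ B1.encard = g ∧ B2.encard = n ∧
      (n : ℕ∞) + B3.encard = g ∧ R1 ∪ R2 ∪ R3 ⊆ M.closure (B1 ∪ B2) ∧ R2 ⊆ M.closure (B2 ∪ B3) := by
  have hsub : ∀ X : Set α, X ⊆ M.E := fun X => by rw [hE]; exact subset_univ X
  have hn : (n : ℕ∞) ≠ ⊤ := ENat.natCast_ne_top n
  have hg : (g : ℕ∞) ≠ ⊤ := ENat.natCast_ne_top g
  have hcl : ∀ X : Set α, X ⊆ M.closure X := fun X => M.subset_closure X (hsub X)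
  -- the rank of `R1`
  have e1 : M.eRk R1 = g := by
    refine le_antisymm h1 ?_
    have h4 : M.eRk (R2 ∪ R3) ≤ M.eRk (R1 ∪ R3) := by
      rw [← M.eRk_closure_eq (R1 ∪ R3)]
      exact M.eRk_mono (union_subset hc1 (subset_union_right.trans (hcl _)))
    have h5 : (n : ℕ∞) + g ≤ n + M.eRk R1 := by
      refine h23.trans (h4.trans ((M.eRk_union_le_eRk_add_eRk R1 R3).trans ?_))
      rw [add_comm]
      exact add_le_add h3 le_rfl
    exact (ENat.add_le_add_iff_left hn).1 h5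
  have e12 : M.eRk (R1 ∪ R2) = (n : ℕ∞) + g := by
    refine le_antisymm ?_ ?_
    · have h4 : M.eRk (R1 ∪ R2) ≤ M.eRk (R2 ∪ R3) := by
        rw [← M.eRk_closure_eq (R2 ∪ R3)]
        exact M.eRk_mono (union_subset hc3 (subset_union_left.trans (hcl _)))
      refine h4.trans ((M.eRk_union_le_eRk_add_eRk R2 R3).trans ?_)
      rw [add_comm]
      exact add_le_add h3 h2
    · refine h23.trans ?_
      rw [← M.eRk_closure_eq (R1 ∪ R2)]
      exact M.eRk_mono (union_subset (subset_union_right.trans (hcl _)) hc2)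
  have e2 : M.eRk R2 = g := by
    refine le_antisymm h2 ?_
    have h5 : (n : ℕ∞) + g ≤ n + M.eRk R2 := by
      refine h23.trans ((M.eRk_union_le_eRk_add_eRk R2 R3).trans ?_)
      rw [add_comm]
      exact add_le_add h3 le_rfl
    exact (ENat.add_le_add_iff_left hn).1 h5
  obtain ⟨B1, hB1⟩ := M.exists_isBasis R1 (hsub _)
  obtain ⟨J, hJ, hBJ⟩ := hB1.indep.subset_isBasis_of_subset (hB1.subset.trans subset_union_left)
    (hsub (R1 ∪ R2))
  have hd1 : Disjoint B1 (J \ B1) := disjoint_sdiff_right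
  have hu1 : B1 ∪ J \ B1 = J := union_sdiff_cancel hBJ
  have hB2 : J \ B1 ⊆ R2 := by
    intro x hx
    rcases hJ.subset hx.1 with h | h
    · exfalso
      have h4 : B1 = J ∩ R1 := hB1.eq_of_subset_indep (hJ.indep.subset inter_subset_left)
        (subset_inter hBJ hB1.subset) inter_subset_right
      exact hx.2 (by rw [h4]; exact ⟨hx.1, h⟩)
    · exact h
  have c1 : B1.encard = g := by rw [hB1.encard_eq_eRk, e1]
  have c2 : (J \ B1).encard = n := by
    have h4 : B1.encard + (J \ B1).encard = g + n := by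
      rw [← encard_union_eq hd1, hu1, hJ.encard_eq_eRk, e12, add_comm]
    rw [c1] at h4
    exact ENat.add_right_injective_of_ne_top hg h4
  obtain ⟨J', hJ', hBJ'⟩ := (hJ.indep.subset sdiff_subset).subset_isBasis_of_subset hB2 (hsub R2)
  have hd2 : Disjoint (J \ B1) (J' \ (J \ B1)) := disjoint_sdiff_right
  have hu2 : J \ B1 ∪ J' \ (J \ B1) = J' := union_sdiff_cancel hBJ'
  refine ⟨B1, J \ B1, J' \ (J \ B1), hB1.subset, hB2, sdiff_subset.trans hJ'.subset, ?_, hd1, ?_, hd2,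
    c1, c2, ?_, ?_, ?_⟩
  · rw [hu1]; exact hJ.indep
  · rw [hu2]; exact hJ'.indep
  · rw [← c2, ← encard_union_eq hd2, hu2, hJ'.encard_eq_eRk, e2]
  · rw [hu1, hJ.closure_eq_closure]
    exact union_subset (hcl _) hc2
  · rw [hu2, hJ'.closure_eq_closure]
    exact hcl _

/-- enumeration of a subset of the range -/
theorem exists_enum {α : Type} {N m : ℕ} (q : Fin N → α) {B : Set α} (hB : B ⊆ range q)
    (hm : B.encard = m) : ∃ b : Fin m → Fin N, Function.Injective (fun i => q (b i)) ∧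
      range (fun i => q (b i)) = B := by
  have hfin : B.Finite := finite_of_encard_eq_coe hm
  have := hfin.fintype
  have hcard : Fintype.card B = m := by
    have h1 : B.encard = Fintype.card B := by
      rw [← Set.coe_fintypeCard]
    rw [h1] at hm
    exact_mod_cast hm
  let e : Fin m ≃ B := (Fintype.equivFinOfCardEq hcard).symm
  choose f hf using fun x : B => hB x.2
  refine ⟨fun i => f (e i), ?_, ?_⟩
  · intro i j h
    simp only [hf] at h
    exact e.injective (Subtype.ext h)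
  · simp only [hf]
    ext x
    constructor
    · rintro ⟨i, rfl⟩
      exact (e i).2
    · intro hx
      exact ⟨e.symm ⟨x, hx⟩, by simp⟩

end Pool.Agent.H58.AC
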