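import Pool.Agent.H58.AC.Mat

/-!
# Derivations of the residue field at a point of an abelian variety
-/

set_option autoImplicit false
set_option linter.unusedSectionVars false

namespace Pool.Agent.H58.AC

open Pool.Agent.K1H80.EC (IsD isD_left isD_right exists_ext exists_der_ext)
open Pool.Agent.K1H80.AV Pool.Agent.K1H80
open MvPolynomial Module

section dual

variable {k : Type} [Field k] {N : ℕ} (A : AbelianVariety k N) {K : Type} [Field K] [Algebra k K]

/-- the invariant vector fields are tangent, and dual to the invariant differentials -/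
theorem dual_xi {x : Fin N → K} (hx : IsCoord A.eqn x) {c : Fin N} (hc : x c = 1) (i j : Fin A.dim) :
    ∑ t, aeval x (A.eta c j t) * aeval x (A.xi c i t) = if j = i then 1 else 0 := by
  classical
  -- the tangent vectors whose coordinate `c` is zero
  let T0 : Submodule K (Fin N → K) := tangent A.eqn x ⊓ LinearMap.ker (LinearMap.proj c)
  have hT0 : ∀ v, v ∈ T0 ↔ v ∈ tangent A.eqn x ∧ v c = 0 := fun v => Iff.rfl
  let f : T0 →ₗ[K] (Fin A.dim → K) :=
    { toFun := fun v i => ∑ t, aeval x (A.eta c i t) * v.1 t
      map_add' := fun v w => by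
        funext i
        simp only [Submodule.coe_add, Pi.add_apply, mul_add, Finset.sum_add_distrib]
      map_smul' := fun r v => by
        funext i
        simp only [Submodule.coe_smul, Pi.smul_apply, smul_eq_mul, RingHom.id_apply,
          Finset.mul_sum]
        exact Finset.sum_congr rfl fun t _ => by ring }
  have hfr : ∀ v : T0, ∀ a, v.1 a = ∑ i, aeval x (A.xi c i a) * f v i := fun v a =>
    A.frame hx v.2.1 hc v.2.2 a
  have hinj : Function.Injective f := by
    rw [← LinearMap.ker_eq_bot, LinearMap.ker_eq_bot']
    intro v hv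
    apply Subtype.ext
    funext a
    rw [hfr v a, hv]
    simp
  have hdim : finrank K T0 = A.dim := by
    have h1 : finrank K T0 ≤ A.dim := by
      have := LinearMap.finrank_le_finrank_of_injective hinj
      rwa [finrank_fin_fun] at this
    have h2 : A.dim + 1 ≤ finrank K T0 + 1 := by
      have h3 : tangent A.eqn x ≤ T0 ⊔ K ∙ x := by
        intro v hv
        have h4 : v - v c • x ∈ T0 := by
          refine ⟨Submodule.sub_mem _ hv (Submodule.smul_mem _ _ (A.euler hx)), ?_⟩
          change (v - v c • x) c = 0
          rw [Pi.sub_apply, Pi.smul_apply, hc, smul_eq_mul, mul_one, sub_self]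
        have h5 : v = (v - v c • x) + v c • x := by abel
        rw [h5]
        exact add_mem (Submodule.mem_sup_left h4)
          (Submodule.mem_sup_right (Submodule.smul_mem _ _ (Submodule.mem_span_singleton_self x)))
      have h4 := Submodule.finrank_mono h3
      rw [A.smooth K x hx] at h4
      refine h4.trans ((Submodule.finrank_add_le_finrank_add_finrank _ _).trans ?_)
      exact Nat.add_le_add_left ((finrank_span_le_card {x}).trans (by simp)) _
    omega
  have hsurj : Function.Surjective f :=
    (LinearMap.injective_iff_surjective_of_finrank_eq_finrank (by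
      rw [hdim, finrank_fin_fun])).1 hinj
  obtain ⟨v, hv⟩ := hsurj (Pi.single i 1)
  have h1 : ∀ t, v.1 t = aeval x (A.xi c i t) := by
    intro t
    rw [hfr v t, hv, Finset.sum_eq_single i]
    · rw [Pi.single_eq_same, mul_one]
    · intro j _ hj
      rw [Pi.single_eq_of_ne hj, mul_zero]
    · intro h; exact absurd (Finset.mem_univ i) h
  have h2 := congrFun hv j
  change ∑ t, aeval x (A.eta c j t) * v.1 t = _ at h2
  simp only [h1] at h2
  rw [h2, Pi.single_apply]

end dual

section der

variable {F κ : Type} [Field F] [Field κ] [CharZero κ] [Algebra F κ]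

/-- A derivation of the field with prescribed values at the `q t`, if these are compatible with the
relations. -/
theorem exists_der_of_rel {N : ℕ} (q ξ : Fin N → κ)
    (h : ∀ P : MvPolynomial (Fin N) F, aeval q P = 0 → ∑ t, aeval q (pderiv t P) * ξ t = 0) :
    ∃ δ : Derivation F κ κ, ∀ t, δ (q t) = ξ t := by
  classical
  let R : Subalgebra F κ := (aeval q : MvPolynomial (Fin N) F →ₐ[F] κ).range
  have hR : ∀ x : R, ∃ P : MvPolynomial (Fin N) F, aeval q P = (x : κ) := fun x => x.2
  choose P hP using hR
  let L : MvPolynomial (Fin N) F → κ := fun Q => ∑ t, aeval q (pderiv t Q) * ξ t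
  have hLadd : ∀ Q Q', L (Q + Q') = L Q + L Q' := fun Q Q' => by
    simp only [L, map_add, add_mul, Finset.sum_add_distrib]
  have hLsub : ∀ Q Q', L (Q - Q') = L Q - L Q' := fun Q Q' => by
    simp only [L, map_sub, sub_mul, Finset.sum_sub_distrib]
  have hLmul : ∀ Q Q', L (Q * Q') = aeval q Q * L Q' + aeval q Q' * L Q := fun Q Q' => by
    simp only [L, pderiv_mul, map_add, map_mul, add_mul, Finset.sum_add_distrib, Finset.mul_sum]
    rw [add_comm]
    congr 1
    · exact Finset.sum_congr rfl fun t _ => by ring
    · exact Finset.sum_congr rfl fun t _ => by ring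
  have hLeq : ∀ Q Q', aeval q Q = aeval q Q' → L Q = L Q' := fun Q Q' hQ => by
    rw [← sub_eq_zero, ← hLsub]
    exact h _ (by rw [map_sub, hQ, sub_self])
  let d : Derivation F R κ := Derivation.mk'
    { toFun := fun x => L (P x)
      map_add' := fun x y => by
        rw [← hLadd]
        exact hLeq _ _ (by rw [hP, map_add, hP, hP]; rfl)
      map_smul' := fun a x => by
        have h1 : L (P (a • x)) = L (C a * P x) := hLeq _ _ (by
          rw [hP, map_mul, hP, aeval_C]
          change a • (x : κ) = _
          rw [Algebra.smul_def])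
        have h2 : L (C a) = 0 := by
          simp only [L, pderiv_C, map_zero, zero_mul, Finset.sum_const_zero]
        rw [h1, hLmul, h2, mul_zero, add_zero, aeval_C, RingHom.id_apply, Algebra.smul_def] }
    (fun x y => by
      change L (P (x * y)) = x • L (P y) + y • L (P x)
      have h1 : L (P (x * y)) = L (P x * P y) := hLeq _ _ (by
        rw [hP, map_mul, hP, hP]; rfl)
      rw [h1, hLmul, hP, hP]
      rfl)
  obtain ⟨δ, hδ⟩ := exists_ext (k := F) (R := R) (K := κ) Subtype.val_injective d
  refine ⟨δ, fun t => ?_⟩
  have h1 : q t ∈ R := ⟨X t, aeval_X q t⟩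
  have h2 := hδ ⟨q t, h1⟩
  have h3 : L (P ⟨q t, h1⟩) = L (X t) := hLeq _ _ (by rw [hP, aeval_X])
  have h4 : L (X t) = ξ t := by
    simp only [L]
    rw [Finset.sum_eq_single t]
    · rw [pderiv_X_self, map_one, one_mul]
    · intro b _ hb
      rw [pderiv_X_of_ne hb.symm, map_zero, zero_mul]
    · intro h; exact absurd (Finset.mem_univ t) h
  exact h2.trans (h3.trans h4)

end der

end Pool.Agent.H58.AC
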