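import Pool.Agent.H58.AC.Fin1

/-!
# Partial evaluation
-/

set_option autoImplicit false
set_option linter.unusedSectionVars false

namespace Pool.Agent.H58.AC

open MvPolynomial Pool.Agent.K1H80.AV

section pe

variable {F K : Type} [Field F] [Field K] [Algebra F K] {σ τ : Type}

/-- partial evaluation -/
noncomputable def pe (σ : Type) (v : τ → K) : MvPolynomial (σ ⊕ τ) F →ₐ[F] MvPolynomial σ K :=
  aeval (Sum.elim MvPolynomial.X (fun a => C (v a)))

theorem aeval_pe (v : τ → K) (ζ : σ → K) (p : MvPolynomial (σ ⊕ τ) F) :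
    aeval ζ (pe σ v p) = aeval (Sum.elim ζ v) p := by
  have h1 := comp_aeval_apply (f := Sum.elim MvPolynomial.X (fun a => C (v a)))
    ((aeval ζ : MvPolynomial σ K →ₐ[K] K).restrictScalars F) p
  refine h1.trans ?_
  congr 2
  funext i
  rcases i with i | i
  · exact aeval_X _ _
  · exact aeval_C _ _

theorem pe_inr (v : τ → K) (f : MvPolynomial τ F) :
    pe σ v (rename Sum.inr f) = C (aeval v f) := by
  unfold pe
  rw [aeval_rename]
  have h1 := comp_aeval_apply (f := v) ((Algebra.ofId K (MvPolynomial σ K)).restrictScalars F) f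
  exact h1.symm

theorem pe_ne {n : ℕ} [Finite σ] {P : MvPolynomial (σ ⊕ Fin n) F} (hP : P ≠ 0) :
    ∃ Q : MvPolynomial (Fin n) F, Q ≠ 0 ∧ ∀ (K : Type) [Field K] [Algebra F K] (v : Fin n → K),
      aeval v Q ≠ 0 → pe σ v P ≠ 0 := by
  have h1 : sumAlgEquiv F σ (Fin n) P ≠ 0 := by
    intro h
    exact hP ((sumAlgEquiv F σ (Fin n)).injective (by rw [h, map_zero]))
  obtain ⟨α, hα⟩ := ne_zero_iff.1 h1
  refine ⟨_, hα, fun K _ _ v hv h0 => hv ?_⟩
  have h2 : pe σ v P = map ((aeval v : MvPolynomial (Fin n) F →ₐ[F] K) : MvPolynomial (Fin n) F →+* K)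
      (sumAlgEquiv F σ (Fin n) P) := by
    have h3 : (pe σ v : MvPolynomial (σ ⊕ Fin n) F →ₐ[F] MvPolynomial σ K).toRingHom =
        (map ((aeval v : MvPolynomial (Fin n) F →ₐ[F] K) : MvPolynomial (Fin n) F →+* K)).comp
          (sumAlgEquiv F σ (Fin n)).toAlgHom.toRingHom := by
      refine MvPolynomial.ringHom_ext (fun r => ?_) (fun i => ?_)
      · change pe σ v (C r) = map _ (sumAlgEquiv F σ (Fin n) (C r))
        rw [sumAlgEquiv_C_inl, map_C]
        unfold pe
        rw [aeval_C]
        change _ = C (aeval v (C r))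
        rw [aeval_C]
        rfl
      · change pe σ v (MvPolynomial.X i) = map _ (sumAlgEquiv F σ (Fin n) (MvPolynomial.X i))
        unfold pe
        rw [aeval_X]
        rcases i with i | i
        · rw [sumAlgEquiv_X_inl, map_X]
          rfl
        · rw [sumAlgEquiv_X_inr, map_C]
          change C (v i) = C (aeval v (MvPolynomial.X i))
          rw [aeval_X]
    exact congrArg (fun g : MvPolynomial (σ ⊕ Fin n) F →+* MvPolynomial σ K => g P) h3
  rw [h2] at h0
  have h4 := congrArg (coeff α) h0
  rw [coeff_map, coeff_zero] at h4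
  exact h4

end pe

section up

variable {F E U : Type} [Field F] [Field E] [Field U] [Algebra F E] [Algebra F U] [Algebra E U]
  [IsScalarTower F E U]

theorem alg_up {ι : Type} {x : ι → E} {v : E} (hv : IsAlgebraic (Algebra.adjoin F (Set.range x)) v) :
    IsAlgebraic (Algebra.adjoin F (Set.range fun i => algebraMap E U (x i))) (algebraMap E U v) := by
  obtain ⟨p, hp0, hp⟩ := hv
  let ψ : E →ₐ[F] U := IsScalarTower.toAlgHom F E U
  have hmem : ∀ t : Algebra.adjoin F (Set.range x), ψ t ∈
      Algebra.adjoin F (Set.range fun i => algebraMap E U (x i)) := by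
    intro t
    have h2 : (Algebra.adjoin F (Set.range x)).map ψ =
        Algebra.adjoin F (Set.range fun i => algebraMap E U (x i)) := by
      rw [AlgHom.map_adjoin, ← Set.range_comp]
      rfl
    rw [← h2]
    exact ⟨t, t.2, rfl⟩
  let f : Algebra.adjoin F (Set.range x) →+*
      Algebra.adjoin F (Set.range fun i => algebraMap E U (x i)) :=
    ((ψ.toRingHom.comp (Algebra.adjoin F (Set.range x)).val.toRingHom).codRestrict
      (Algebra.adjoin F (Set.range fun i => algebraMap E U (x i))).toSubring hmem)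
  have hf : Function.Injective f := by
    intro a b hab
    have h3 : ψ a = ψ b := congrArg Subtype.val hab
    exact Subtype.ext ((algebraMap E U).injective h3)
  refine ⟨p.map f, (Polynomial.map_ne_zero_iff hf).2 hp0, ?_⟩
  rw [Polynomial.aeval_def, Polynomial.eval₂_map]
  have h4 : (algebraMap E U) (Polynomial.aeval v p) = 0 := by rw [hp, map_zero]
  rw [Polynomial.aeval_def, Polynomial.hom_eval₂] at h4
  exact h4

end up

end Pool.Agent.H58.AC
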