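import Pool.Agent.H58.AC.Dens
import Pool.Agent.H58.AC.Def

/-!
# Points in general position
-/

set_option autoImplicit false
set_option linter.unusedSectionVars false
set_option linter.unusedVariables false

namespace Pool.Agent.H58.AC

open Pool.Agent.K1H80.AV Pool.Agent.K1H80
open MvPolynomial Module Set

/-- an independent set of the size of the rank -/
theorem mtr_span {α : Type} (M : Matroid α) (hE : M.E = univ) {I R : Set α} {n : ℕ}
    (hI : M.Indep I) (hIR : I ⊆ M.closure R) (hn : I.encard = n) (hR : M.eRk R ≤ n) :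
    R ⊆ M.closure I := by
  obtain ⟨J, hJ, hIJ⟩ := hI.subset_isBasis_of_subset hIR (by rw [hE]; exact subset_univ _)
  have h1 : J.encard ≤ I.encard := by
    rw [hJ.encard_eq_eRk, M.eRk_closure_eq, hn]
    exact hR
  have hfin : J.Finite := finite_of_encard_le_coe (h1.trans (le_of_eq hn))
  have h2 : I = J := hfin.eq_of_subset_of_encard_le' hIJ h1
  rw [h2, hJ.closure_eq_closure, M.closure_closure]
  exact M.subset_closure R (by rw [hE]; exact subset_univ _)

section image

variable {k F : Type} [Field k] [Field F] [Algebra k F] {M N : ℕ} {X : SmoothVariety F M}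
  {A : AbelianVariety k N}

/-- The image of a generic point. -/
theorem indep_image (π : Morphism k X A) (hπ : π.IsGenericallyFinite) {U : Type} [Field U]
    [Algebra k U] [Algebra F U] [IsScalarTower k F U] {x : Fin M → U} (hx : IsCoord X.eqn x)
    (hgen : ∀ (f : MvPolynomial (Fin M) F) (d : ℕ), f.IsHomogeneous d → aeval x f = 0 →
      ∀ (K : Type) [Field K] [Algebra F K] (y : Fin M → K), IsCoord X.eqn y → aeval y f = 0)
    {y : Fin N → U} (hy : π.IsImage x y) :
    ∃ (b : Fin N) (a : Fin X.dim → Fin N), y b ≠ 0 ∧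
      AlgebraicIndependent F fun i => y (a i) / y b := by
  obtain ⟨K, iK, ikK, iFK, iT, x', y', hx', ⟨hy'1, hy'2⟩, b, a, hb, hind⟩ := hπ
  -- the point `x'` and its image
  obtain ⟨y'', hy''1, hy''2, l, t, hlt⟩ := π.spec K x' hx'
  have hnz : ∃ s : K, s ≠ 0 ∧ ∀ t, aeval x' (π.p l t) = s * y' t := by
    obtain ⟨s, hs⟩ := hy'2 l
    exact ⟨s, fun h => hlt (by rw [hs, h, zero_mul]), hs⟩
  obtain ⟨s', hs'0, hs'⟩ := hnz
  obtain ⟨s, hs⟩ := hy.2 l
  -- transfer of forms
  have key : ∀ (f : MvPolynomial (Fin N) F) (m : ℕ), f.IsHomogeneous m → aeval y f = 0 →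
      aeval y' f = 0 := by
    intro f m hm hf
    let g : MvPolynomial (Fin M) F := aeval (fun t => π.p l t) f
    have hg : g.IsHomogeneous (m * π.deg l) := by
      have := hm.aeval (g := fun t => π.p l t) (n := π.deg l) (fun t => π.homogeneous l t)
      rw [mul_comm]
      exact this
    have hgx : ∀ (K' : Type) [Field K'] [Algebra F K'] (w : Fin M → K') (v : Fin N → K') (r : K'),
        (∀ t, aeval w (π.p l t) = r * v t) → aeval w g = r ^ m * aeval v f := by
      intro K' _ _ w v r h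
      have h1 : aeval w g = aeval (fun t => aeval w (π.p l t)) f :=
        (comp_aeval_apply (f := fun t => π.p l t) (aeval w) f)
      rw [h1]
      simp only [h]
      exact aeval_smul hm r v
    have h1 := hgen g _ hg (by rw [hgx U x y s hs, hf, mul_zero]) K x' hx'
    rw [hgx K x' y' s' hs'] at h1
    exact (mul_eq_zero.1 h1).resolve_left (pow_ne_zero m hs'0)
  have hb' : y b ≠ 0 := fun h => hb (by
    have := key (MvPolynomial.X b) 1 (isHomogeneous_X F b) (by rw [aeval_X]; exact h)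
    rwa [aeval_X] at this)
  refine ⟨b, a, hb', ?_⟩
  rw [algebraicIndependent_iff]
  intro P hP
  obtain ⟨f, m, hm, hf⟩ := exists_homog P b a
  have h1 := key f m hm (by rw [hf _ y hb', hP, mul_zero])
  rw [hf _ y' hb] at h1
  exact hind (by rw [(mul_eq_zero.1 h1).resolve_left (pow_ne_zero _ hb), map_zero])

end image

variable {k F E U : Type} [Field k] [CharZero k] [Field F] [Field E] [Field U] [Algebra k F]
  [Algebra k E] [Algebra k U] [Algebra F E] [Algebra F U] [Algebra E U] [IsScalarTower k F E]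
  [IsScalarTower k F U] [IsScalarTower k E U] [IsScalarTower F E U] {M N : ℕ}
  {X : SmoothVariety F M} {A : AbelianVariety k N}

/-- `k` is algebraic over adjoined rings -/
theorem k_alg (k : Type) {F U : Type} [Field k] [Field F] [Field U] [Algebra k F] [Algebra k U]
    [Algebra F U] [IsScalarTower k F U] (S : Set U) (t : k) :
    IsAlgebraic (Algebra.adjoin F S) (algebraMap k U t) := by
  rw [IsScalarTower.algebraMap_apply k F U]
  exact isAlgebraic_algebraMap (R := Algebra.adjoin F S)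
    (algebraMap F (Algebra.adjoin F S) (algebraMap k F t))

theorem mem_alg {F U : Type} [Field F] [Field U] [Algebra F U] {S : Set U} {v : U} (hv : v ∈ S) :
    IsAlgebraic (Algebra.adjoin F S) v :=
  isAlgebraic_algebraMap (R := Algebra.adjoin F S)
    (⟨v, Algebra.subset_adjoin hv⟩ : Algebra.adjoin F S)

/-- coordinates of the image in terms of the quotients of the coordinates -/
theorem exists_Yn (π : Morphism k X A) {x : Fin M → U} (hx : IsCoord X.eqn x) {b : Fin M}
    (hb : x b ≠ 0) {Y : A.Co U} (hY : π.IsImage x Y.1) :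
    ∃ Yn : A.Co U, pt A.eqn Yn = pt A.eqn Y ∧
      ∀ t, IsAlgebraic (Algebra.adjoin F (range fun a => (x b)⁻¹ * x a)) (Yn.1 t) := by
  obtain ⟨y, hy1, hy2, l, t0, hlt⟩ := π.spec U x hx
  obtain ⟨s, hs⟩ := hY.2 l
  have hs0 : s ≠ 0 := fun h => hlt (by rw [hs, h, zero_mul])
  have h1 : ∀ t, aeval (fun a => (x b)⁻¹ * x a) (π.p l t) = ((x b)⁻¹ ^ π.deg l * s) * Y.1 t := by
    intro t
    rw [aeval_smul (π.homogeneous l t), hs, mul_assoc]
  have hr0 : (x b)⁻¹ ^ π.deg l * s ≠ 0 := mul_ne_zero (pow_ne_zero _ (inv_ne_zero hb)) hs0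
  refine ⟨⟨fun t => ((x b)⁻¹ ^ π.deg l * s) * Y.1 t, Y.2.smul A.homogeneous (IsUnit.mk0 _ hr0)⟩,
    ?_, fun t => ?_⟩
  · symm
    exact pt_eq_iff.2 ⟨Units.mk0 _ hr0, fun c => rfl⟩
  · change IsAlgebraic _ (((x b)⁻¹ ^ π.deg l * s) * Y.1 t)
    rw [← h1]
    refine alg_aeval (R0 := Algebra.adjoin F (range fun a => (x b)⁻¹ * x a)) _ (fun f => ?_)
      (fun i => mem_alg (mem_range_self i)) _
    exact isAlgebraic_algebraMap (R := Algebra.adjoin F (range fun a => (x b)⁻¹ * x a))
      (algebraMap F _ f)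

theorem alg_mono {S T : Set U} (h : S ⊆ T) {v : U} (hv : IsAlgebraic (Algebra.adjoin F S) v) :
    IsAlgebraic (Algebra.adjoin F T) v := by
  rw [← mem_cl] at hv ⊢
  exact (AlgebraicIndependent.matroid F U).closure_subset_closure h hv

theorem alg_trans {S T : Set U} (h : ∀ s ∈ S, IsAlgebraic (Algebra.adjoin F T) s) {v : U}
    (hv : IsAlgebraic (Algebra.adjoin F S) v) : IsAlgebraic (Algebra.adjoin F T) v := by
  rw [← mem_cl] at hv ⊢
  have h1 : S ⊆ (AlgebraicIndependent.matroid F U).closure T := fun s hs => mem_cl.2 (h s hs)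
  have h2 := (AlgebraicIndependent.matroid F U).closure_subset_closure h1 hv
  rwa [Matroid.closure_closure] at h2

/-- **General position.** -/
theorem exists_pos (π : Morphism k X A) (hπ : π.IsGenericallyFinite)
    {x : Fin M → U} (hx : IsCoord X.eqn x)
    (hgen : ∀ (f : MvPolynomial (Fin M) F) (d : ℕ), f.IsHomogeneous d → aeval x f = 0 →
      ∀ (K : Type) [Field K] [Algebra F K] (y : Fin M → K), IsCoord X.eqn y → aeval y f = 0)
    {b : Fin M} (hb : x b ≠ 0) {a : Fin X.dim → Fin M} {z0 : Fin N → E} {d : Fin N}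
    (hz : IsCoord A.eqn fun t => algebraMap E U (z0 t)) (hzd : z0 d = 1) {c : Fin A.dim → Fin N}
    (hind : AlgebraicIndependent F (Sum.elim (fun i => algebraMap E U (z0 (c i)))
      (fun i => (x b)⁻¹ * x (a i)))) :
    ∃ (Y Y' : A.Co U), π.IsImage x Y.1 ∧
      pt A.eqn Y + pt A.eqn (⟨fun t => algebraMap E U (z0 t), hz⟩ : A.Co U) = pt A.eqn Y' ∧
      ∃ (m' : ℕ) (b1 : Fin A.dim → Fin N) (b2 : Fin X.dim → Fin N) (b3 : Fin m' → Fin N)
        (c' : Fin N), Y'.1 c' ≠ 0 ∧ X.dim + m' = A.dim ∧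
        AlgebraicIndependent F (Sum.elim (fun i => nz A Y' c' (b1 i))
          (fun i => algebraMap E U (z0 (b2 i)))) ∧
        AlgebraicIndependent F (Sum.elim (fun i => algebraMap E U (z0 (b3 i)))
          (fun i => algebraMap E U (z0 (b2 i)))) ∧
        (∀ t, IsAlgebraic (Algebra.adjoin F ((range fun i => algebraMap E U (z0 (b3 i))) ∪
          range fun i => algebraMap E U (z0 (b2 i)))) (algebraMap E U (z0 t))) ∧
        (∀ c, x c ≠ 0 → ∀ t, IsAlgebraic (Algebra.adjoin F ((range fun i => nz A Y' c' (b1 i)) ∪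
          range fun i => algebraMap E U (z0 (b2 i)))) ((x c)⁻¹ * x t)) ∧
        (∀ t, IsAlgebraic (Algebra.adjoin F ((range fun i => nz A Y' c' (b1 i)) ∪
          range fun i => algebraMap E U (z0 (b2 i)))) (algebraMap E U (z0 t))) ∧
        (∀ c'' t, IsAlgebraic (Algebra.adjoin F ((range fun i => nz A Y' c' (b1 i)) ∪
          range fun i => algebraMap E U (z0 (b2 i)))) (nz A Y' c'' t)) := by
  have hcU : CharZero U := charZero_of_injective_algebraMap (algebraMap k U).injective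
  obtain ⟨y, hy1, hy2, -⟩ := π.spec U x hx
  let Y : A.Co U := ⟨y, hy1⟩
  have hY : π.IsImage x Y.1 := ⟨hy1, hy2⟩
  let Z : A.Co U := ⟨fun t => algebraMap E U (z0 t), hz⟩
  obtain ⟨Y', hY'⟩ := exists_pt (pt A.eqn Y + pt A.eqn Z)
  obtain ⟨c', hc'⟩ := Y'.2.1
  have hc'0 : Y'.1 c' ≠ 0 := hc'.ne_zero
  obtain ⟨bY, aY, hbY, hindY⟩ := indep_image π hπ hx hgen hY
  obtain ⟨Yn, hYn1, hYn2⟩ := exists_Yn π hx hb hY
  set Mt := AlgebraicIndependent.matroid F U with hMt
  have hE : Mt.E = univ := AlgebraicIndependent.matroid_e F U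
  set q1 : Fin N → U := nz A Y' c' with hq1
  set q2 : Fin N → U := fun t => algebraMap E U (z0 t) with hq2
  set q3 : Fin M → U := fun t => (x b)⁻¹ * x t with hq3
  have hq1c : q1 c' = 1 := nz_c Y' hc'0
  have hq2d : q2 d = 1 := by rw [hq2]; simp only [hzd, map_one]
  have hq3b : q3 b = 1 := inv_mul_cancel₀ hb
  have hpt1 : pt A.eqn ⟨q1, nz_coord Y' hc'0⟩ = pt A.eqn Y' := nz_pt Y' hc'0
  have hx3 : IsCoord X.eqn q3 := hx.smul X.homogeneous (IsUnit.mk0 _ (inv_ne_zero hb))
  -- the dimensions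
  have h1 : Mt.eRk (range q1) ≤ A.dim := rk_le q1 fun m bm hbm =>
    dim_bound (k0 := k) A.homogeneous (nz_coord Y' hc'0).2 hq1c
      (A.smooth U q1 (nz_coord Y' hc'0)) hbm
  have h2 : Mt.eRk (range q2) ≤ A.dim := rk_le q2 fun m bm hbm =>
    dim_bound (k0 := k) A.homogeneous hz.2 hq2d (A.smooth U q2 hz) hbm
  have h3 : Mt.eRk (range q3) ≤ X.dim := rk_le q3 fun m bm hbm =>
    dim_bound (k0 := F) X.homogeneous hx3.2 hq3b (X.smooth U q3 hx3) hbm
  have h23 : (X.dim : ℕ∞) + A.dim ≤ Mt.eRk (range q2 ∪ range q3) := by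
    have h4 := rk_ge _ hind (R := range q2 ∪ range q3) (by
      rw [Sum.elim_range]
      refine union_subset_union ?_ ?_
      · rintro _ ⟨i, rfl⟩; exact ⟨_, rfl⟩
      · rintro _ ⟨i, rfl⟩; exact ⟨_, rfl⟩)
    rw [Fintype.card_sum, Fintype.card_fin, Fintype.card_fin] at h4
    refine le_trans (le_of_eq ?_) h4
    push_cast
    rw [add_comm]
  have hYnS : ∀ (S : Set U), range q3 ⊆ S → ∀ t, IsAlgebraic (Algebra.adjoin F S) (Yn.1 t) :=
    fun S hS t => alg_mono hS (hYn2 t)
  have hadd : pt A.eqn Yn + pt A.eqn Z = pt A.eqn ⟨q1, nz_coord Y' hc'0⟩ := by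
    rw [hYn1, hpt1, hY']
  have hsub1 : pt A.eqn ⟨q1, nz_coord Y' hc'0⟩ - pt A.eqn Yn = pt A.eqn Z := by
    rw [← hadd]; abel
  have hsub2 : pt A.eqn ⟨q1, nz_coord Y' hc'0⟩ - pt A.eqn Z =
      pt A.eqn ⟨nz A Y bY, nz_coord Y hbY⟩ := by
    rw [← hadd, hYn1, nz_pt Y hbY]; abel
  have hc1 : range q2 ⊆ Mt.closure (range q1 ∪ range q3) := by
    rintro _ ⟨t, rfl⟩
    rw [hMt, mem_cl]
    obtain ⟨l, hl⟩ := A.sub_div hsub1 hq2d
    have hS : ∀ i, IsAlgebraic (Algebra.adjoin F (range q1 ∪ range q3))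
        (Sum.elim q1 Yn.1 i) := by
      rintro (i | i)
      · exact mem_alg (Or.inl ⟨i, rfl⟩)
      · exact hYnS _ subset_union_right i
    have h5 := hl t
    change q2 t = _ at h5
    rw [h5]
    exact alg_div (alg_aeval _ (k_alg k _) hS _) (alg_aeval _ (k_alg k _) hS _)
  have hc3 : range q1 ⊆ Mt.closure (range q2 ∪ range q3) := by
    rintro _ ⟨t, rfl⟩
    rw [hMt, mem_cl]
    obtain ⟨l, hl⟩ := A.add_div hadd hq1c
    have hS : ∀ i, IsAlgebraic (Algebra.adjoin F (range q2 ∪ range q3))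
        (Sum.elim Yn.1 Z.1 i) := by
      rintro (i | i)
      · exact hYnS _ subset_union_right i
      · exact mem_alg (Or.inl ⟨i, rfl⟩)
    have h5 := hl t
    change q1 t = _ at h5
    rw [h5]
    exact alg_div (alg_aeval _ (k_alg k _) hS _) (alg_aeval _ (k_alg k _) hS _)
  have hYq3 : ∀ t, IsAlgebraic (Algebra.adjoin F (range q3)) (nz A Y bY t) := by
    intro t
    obtain ⟨u, hu⟩ := pt_eq_iff.1 hYn1
    have hu0 : (u : U) ≠ 0 := u.ne_zero
    have h5 : nz A Y bY t = Yn.1 t / Yn.1 bY := by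
      unfold nz
      rw [hu t, hu bY, mul_inv]
      rw [hu bY] at hbY
      have h6 := right_ne_zero_of_mul hbY
      field_simp
    rw [h5]
    exact alg_div (hYn2 t) (hYn2 bY)
  have hc2 : range q3 ⊆ Mt.closure (range q1 ∪ range q2) := by
    have h6 : AlgebraicIndependent F (fun i => nz A Y bY (aY i)) := by
      have h7 : (fun i => nz A Y bY (aY i)) = fun i => y (aY i) / y bY := by
        funext i
        unfold nz
        rw [div_eq_inv_mul]
      rw [h7]
      exact hindY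
    have h7 : Mt.Indep (range fun i => nz A Y bY (aY i)) :=
      AlgebraicIndependent.matroid_indep_iff.2 h6.to_subtype_range
    have h8 : (range fun i => nz A Y bY (aY i)).encard = X.dim := by
      rw [← image_univ, h6.injective.encard_image, encard_univ, ENat.card_eq_coe_fintype_card,
        Fintype.card_fin]
    have h9 := mtr_span Mt hE h7 (R := range q3) (by
      rintro _ ⟨i, rfl⟩
      rw [hMt, mem_cl]
      exact hYq3 _) h8 h3
    refine h9.trans ?_
    refine Mt.closure_subset_closure_of_subset_closure ?_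
    rintro _ ⟨i, rfl⟩
    rw [hMt, mem_cl]
    obtain ⟨l, hl⟩ := A.sub_div hsub2 (nz_c Y hbY)
    have hS : ∀ i, IsAlgebraic (Algebra.adjoin F (range q1 ∪ range q2))
        (Sum.elim q1 Z.1 i) := by
      rintro (i | i)
      · exact mem_alg (Or.inl ⟨i, rfl⟩)
      · exact mem_alg (Or.inr ⟨i, rfl⟩)
    have h5 := hl (aY i)
    change nz A Y bY (aY i) = _ at h5
    change IsAlgebraic _ (nz A Y bY (aY i))
    rw [h5]
    exact alg_div (alg_aeval _ (k_alg k _) hS _) (alg_aeval _ (k_alg k _) hS _)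
  obtain ⟨B1, B2, B3, hB1, hB2, hB3, hi12, hd12, hi23, hd23, e1, e2, e3, hs1, hs2⟩ :=
    mtr_split Mt hE h1 h2 h3 h23 hc1 hc2 hc3
  obtain ⟨m', hm'⟩ : ∃ m' : ℕ, B3.encard = m' := by
    have hfin : B3.Finite := (finite_range q2).subset hB3
    exact ⟨_, hfin.cast_ncard_eq.symm⟩
  obtain ⟨b1, hb1i, hb1⟩ := exists_enum q1 hB1 e1
  obtain ⟨b2, hb2i, hb2⟩ := exists_enum q2 hB2 e2
  obtain ⟨b3, hb3i, hb3⟩ := exists_enum q2 hB3 hm'
  rw [hm'] at e3
  have hsub : X.dim + m' = A.dim := by exact_mod_cast e3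
  have hclx : ∀ v ∈ range q1 ∪ range q2 ∪ range q3,
      IsAlgebraic (Algebra.adjoin F ((range fun i => q1 (b1 i)) ∪ range fun i => q2 (b2 i))) v := by
    intro v hv
    have h4 := hs1 hv
    rw [hMt, mem_cl, ← hb1, ← hb2] at h4
    exact h4
  refine ⟨Y, Y', hY, hY'.symm, m', b1, b2, b3, c', hc'0, hsub, ?_, ?_, ?_, ?_, ?_, ?_⟩
  · exact indep_sum hb1i hb2i (by rw [hb1, hb2]; exact hi12) (by rw [hb1, hb2]; exact hd12)
  · exact indep_sum hb3i hb2i (by rw [hb3, hb2, union_comm]; exact hi23)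
      (by rw [hb3, hb2]; exact hd23.symm)
  · intro t
    have h4 := hs2 ⟨t, rfl⟩
    rw [hMt, mem_cl, ← hb3, ← hb2, union_comm] at h4
    exact h4
  · intro c0 hc0 t
    have h4 : (x c0)⁻¹ * x t = q3 t / q3 c0 := by
      rw [hq3]
      field_simp
    rw [h4]
    exact alg_div (hclx _ (Or.inr ⟨t, rfl⟩)) (hclx _ (Or.inr ⟨c0, rfl⟩))
  · intro t
    exact hclx _ (Or.inl (Or.inr ⟨t, rfl⟩))
  · intro c'' t
    by_cases h5 : Y'.1 c'' = 0
    · have h6 : nz A Y' c'' t = 0 := by
        unfold nz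
        rw [h5, inv_zero, zero_mul]
      rw [h6]
      exact isAlgebraic_zero
    have h4 : nz A Y' c'' t = q1 t / q1 c'' := by
      rw [hq1]
      unfold nz
      field_simp
    rw [h4]
    exact alg_div (hclx _ (Or.inl (Or.inl ⟨t, rfl⟩))) (hclx _ (Or.inl (Or.inl ⟨c'', rfl⟩)))

end Pool.Agent.H58.AC
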