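import Pool.Agent.H58.AC.Ng
import Pool.Agent.H58.AC.Lin

/-!
# The residue fields of a generically finite cover of an abelian variety
-/

set_option autoImplicit false
set_option linter.unusedSectionVars false

namespace Pool.Agent.H58.AC

open Pool.Agent.K1H80.EC (IsD isD_left isD_right exists_ext exists_der_ext)
open Pool.Agent.K1H80.AV Pool.Agent.K1H80
open MvPolynomial Module

variable {k F E U : Type} [Field k] [CharZero k] [Field F] [Field E] [Field U] [Algebra k F]
  [Algebra k E] [Algebra k U] [Algebra F E] [Algebra F U] [Algebra E U] [IsScalarTower k F E]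
  [IsScalarTower k E U] [IsScalarTower F E U] {N M r m' ν e R' : ℕ}

/-- The situation: a point `u` of a variety, and its image `Y` under a morphism to an abelian
variety, depending on parameters `z0`. -/
structure Sys (𝔡 : Dat k F N M r m' ν e R') (E : Type) {U : Type} [Field E] [Field U]
    [Algebra k F] [Algebra k E] [Algebra k U] [Algebra F E] [Algebra F U] [Algebra E U]
    [IsScalarTower k F E] [IsScalarTower k E U] [IsScalarTower F E U] (D : Derivation k U U)
    (Y : 𝔡.A.Co U) (u : Fin M → U) (c : Fin M) (z0 : Fin ν → E) (ez : Fin ν → Fin m' → E)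
    (n : ℕ) : Prop where
  g : Gs F E 𝔡.A D Y
  hn : n + m' = 𝔡.A.dim
  hM : n + r + 1 = M
  hu : ∀ i, aeval u (𝔡.eqn i) = 0
  huc : u c = 1
  hp : ∀ l, ∃ s : U, ∀ t, aeval (Sum.elim u fun t => algebraMap E U (z0 t)) (𝔡.p l t) = s * Y.1 t
  Dz0 : ∀ t, D (algebraMap E U (z0 t)) = 0
  hez : ∀ (κ : Type) [Field κ] [CharZero κ] [Algebra F κ] [Algebra E κ] [IsScalarTower F E κ]
    (δ : Derivation F κ κ) (t : Fin ν), δ (algebraMap E κ (z0 t)) =
      ∑ s, algebraMap E κ (ez t s) * δ (algebraMap E κ (z0 (𝔡.b0 s)))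
  halg : ∃ s : Fin 𝔡.A.dim → U, (∀ a, IsAlgebraic (Algebra.adjoin F (Set.range s)) (u a)) ∧
    (∀ t, IsAlgebraic (Algebra.adjoin F (Set.range s)) (algebraMap E U (z0 t))) ∧
    (∀ t s', IsAlgebraic (Algebra.adjoin F (Set.range s)) (algebraMap E U (ez t s'))) ∧
    ∀ c' t, IsAlgebraic (Algebra.adjoin F (Set.range s)) (nz 𝔡.A Y c' t)
  hsm : ∀ (κ : Type) [Field κ] [CharZero κ] [Algebra F κ] (q : Fin M → κ),
    (∀ i, aeval q (𝔡.eqn i) = 0) → q c = 1 →
      q ∈ tangent 𝔡.eqn q ∧ finrank κ (tangent 𝔡.eqn q) = n + 1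
  hbp : ∀ (κ : Type) [Field κ] [CharZero κ] [Algebra k κ] [Algebra F κ] [Algebra E κ]
    [IsScalarTower F E κ] [IsScalarTower k E κ] (q : Fin M → κ),
    (∀ i, aeval q (𝔡.eqn i) = 0) → q c = 1 →
      ∃ l t, aeval (Sum.elim q fun t => algebraMap E κ (z0 t)) (𝔡.p l t) ≠ 0

variable {𝔡 : Dat k F N M r m' ν e R'} {D : Derivation k U U} {Y : 𝔡.A.Co U} {u : Fin M → U}
  {c : Fin M} {z0 : Fin ν → E} {ez : Fin ν → Fin m' → E} {n : ℕ}

/-- the derivative of the coefficients -/
noncomputable def Sys.eF (S : Sys 𝔡 E D Y u c z0 ez n) (f : F) : E :=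
  (S.g.hE (algebraMap F E f)).choose

theorem Sys.eF_spec (S : Sys 𝔡 E D Y u c z0 ez n) (f : F) :
    D (algebraMap F U f) = algebraMap E U (S.eF f) := by
  rw [IsScalarTower.algebraMap_apply F E U]
  exact (S.g.hE (algebraMap F E f)).choose_spec

/-- the logarithmic derivative -/
noncomputable def Sys.eW (S : Sys 𝔡 E D Y u c z0 ez n) (j : Fin 𝔡.A.dim) : E :=
  (S.g.hW j).choose

theorem Sys.eW_spec (S : Sys 𝔡 E D Y u c z0 ez n) (j : Fin 𝔡.A.dim) :
    algebraMap E U (S.eW j) = WW Y D j := (S.g.hW j).choose_spec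

section ring

variable (S : Sys 𝔡 E D Y u c z0 ez n) (c' : Fin N) (B : Subalgebra E U)

/-- the coordinates of the point of the abelian variety in the ring -/
noncomputable def zB (hB : RZ E (nz 𝔡.A Y c') ≤ B) (t : Fin N) : B := ⟨nz 𝔡.A Y c' t, hB (mem_RZ t)⟩

/-- the coordinates of the point in the ring -/
noncomputable def uB (huB : ∀ a, u a ∈ B) (a : Fin M) : B := ⟨u a, huB a⟩

variable (hB : RZ E (nz 𝔡.A Y c') ≤ B) (huB : ∀ a, u a ∈ B)

variable (c z0 ez) in
/-- the matrix -/
noncomputable def matB (I : Fin r → Fin e) (l : Fin R') : Matrix (Col M m') (Col M m') B :=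
  𝔡.mat I l c c' (uB B huB) (fun t => algebraMap E B (z0 t)) (fun t s => algebraMap E B (ez t s))
    (zB c' B hB)

/-- the right hand side -/
noncomputable def vecB (I : Fin r → Fin e) (l : Fin R') : Col M m' → B :=
  𝔡.vec I l c' (fun f => algebraMap E B (S.eF f)) (uB B huB) (fun t => algebraMap E B (z0 t))
    (zB c' B hB) (fun j => algebraMap E B (S.eW j))

/-- the derivatives, multiplied by the determinant -/
noncomputable def muB (I : Fin r → Fin e) (l : Fin R') (q : Col M m') : B :=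
  ((matB c z0 ez c' B hB huB I l).updateCol q (vecB S c' B hB huB I l)).det

theorem comp_val : Comp k F (B.val : B →+* U) := ⟨fun _ => rfl, fun _ => rfl⟩

/-- the relations in the ring -/
theorem rel_B (S : Sys 𝔡 E D Y u c z0 ez n) (hc' : Y.1 c' ≠ 0) (l : Fin R') (t : Fin N) :
    aeval (Sum.elim (uB B huB) fun t => algebraMap E B (z0 t)) (𝔡.p l t) =
      zB c' B hB t * aeval (Sum.elim (uB B huB) fun t => algebraMap E B (z0 t)) (𝔡.p l c') := by
  apply Subtype.ext
  have h1 : ∀ t, ((aeval (Sum.elim (uB B huB) fun t => algebraMap E B (z0 t)) (𝔡.p l t) : B) : U) =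
      aeval (Sum.elim u fun t => algebraMap E U (z0 t)) (𝔡.p l t) := by
    intro t
    have h2 := (comp_val (k := k) (F := F) B).aevalF
      (Sum.elim (uB B huB) fun t => algebraMap E B (z0 t)) (𝔡.p l t)
    rw [elim_map] at h2
    exact h2
  have h3 : ((zB c' B hB t * aeval (Sum.elim (uB B huB) fun t => algebraMap E B (z0 t))
      (𝔡.p l c') : B) : U) = nz 𝔡.A Y c' t *
      ((aeval (Sum.elim (uB B huB) fun t => algebraMap E B (z0 t)) (𝔡.p l c') : B) : U) := rfl
  rw [h3, h1, h1]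
  obtain ⟨s, hs⟩ := S.hp l
  rw [hs, hs, nz]
  field_simp

theorem eqn_B (S : Sys 𝔡 E D Y u c z0 ez n) (i : Fin e) : aeval (uB B huB) (𝔡.eqn i) = 0 := by
  apply Subtype.ext
  have h2 := (comp_val (k := k) (F := F) B).aevalF (uB B huB) (𝔡.eqn i)
  exact h2.trans (S.hu i)

theorem uc_B (S : Sys 𝔡 E D Y u c z0 ez n) : uB B huB c = 1 := Subtype.ext S.huc

/-- the derivatives in the field -/
theorem mat_U (hc' : Y.1 c' ≠ 0) (I : Fin r → Fin e) (l : Fin R') :
    ((B.val : B →+* U).mapMatrix (matB c z0 ez c' B hB huB I l)).mulVec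
      (Sum.elim (fun a => D (u a)) fun s => D (algebraMap E U (z0 (𝔡.b0 s)))) =
      fun q => ((vecB S c' B hB huB I l q : B) : U) := by
  funext x
  have h1 := 𝔡.eqs (comp_val (k := k) (F := F) B) (I := I) (l := l) (c := c) (c' := c')
    (u := uB B huB) (z0 := fun t => algebraMap E B (z0 t)) (ez := fun t s => algebraMap E B (ez t s))
    (z := zB c' B hB) (d := fun b : B => D (b : U)) (isD_left D (B.val : B →+* U))
    (fun i => eqn_B B huB S i) (uc_B B huB S) (fun t => rel_B c' B hB huB S hc' l t) (fun t => by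
      have h2 : ∀ t, D ((algebraMap E B (z0 t) : B) : U) = 0 := S.Dz0
      rw [h2]
      symm
      refine Finset.sum_eq_zero fun s _ => ?_
      rw [h2, mul_zero]) (𝔡.eq.symm x)
  have h3 : ((vecB S c' B hB huB I l x : B) : U) = 𝔡.rhs I l c' (fun f => algebraMap E U (S.eF f))
      u (fun t => algebraMap E U (z0 t)) (nz 𝔡.A Y c') (fun j => algebraMap E U (S.eW j))
      (𝔡.eq.symm x) := by
    exact 𝔡.map_rhs (comp_val (k := k) (F := F) B) I l c' (fun f => algebraMap E B (S.eF f))
      (uB B huB) (fun t => algebraMap E B (z0 t)) (zB c' B hB) (fun j => algebraMap E B (S.eW j))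
      (𝔡.eq.symm x)
  have h4 : ∀ q, ((B.val : B →+* U).mapMatrix (matB c z0 ez c' B hB huB I l)) x q =
      𝔡.ent I l c c' u (fun t => algebraMap E U (z0 t)) (fun t s => algebraMap E U (ez t s))
        (nz 𝔡.A Y c') (𝔡.eq.symm x) q := fun q =>
    𝔡.map_ent (comp_val (k := k) (F := F) B) I l c c' (uB B huB) (fun t => algebraMap E B (z0 t))
      (fun t s => algebraMap E B (ez t s)) (zB c' B hB) (𝔡.eq.symm x) q
  rw [h3]
  unfold Matrix.mulVec dotProduct
  simp only [h4]
  refine Eq.trans ?_ (h1.trans ?_)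
  · rfl
  · congr 1
    · funext f
      exact S.eF_spec f
    · funext j
      rw [S.eW_spec, WW_sum Y hc']
      rfl

/-- Cramer's rule -/
theorem mu_U (hc' : Y.1 c' ≠ 0) (I : Fin r → Fin e) (l : Fin R') (q : Col M m') :
    ((muB S c' B hB huB I l q : B) : U) = ((matB c z0 ez c' B hB huB I l).det : U) *
      Sum.elim (fun a => D (u a)) (fun s => D (algebraMap E U (z0 (𝔡.b0 s)))) q := by
  have h1 := mat_U S c' B hB huB hc' I l
  set K := (B.val : B →+* U).mapMatrix (matB c z0 ez c' B hB huB I l) with hK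
  set x := Sum.elim (fun a => D (u a)) (fun s => D (algebraMap E U (z0 (𝔡.b0 s)))) with hx
  have h2 : K.cramer (K.mulVec x) = K.det • x := by
    rw [Matrix.cramer_eq_adjugate_mulVec, Matrix.mulVec_mulVec, Matrix.adjugate_mul,
      Matrix.smul_mulVec, Matrix.one_mulVec]
  have h3 := congrFun h2 q
  rw [Matrix.cramer_apply, h1, Pi.smul_apply, smul_eq_mul] at h3
  have h4 : ((matB c z0 ez c' B hB huB I l).det : U) = K.det :=
    RingHom.map_det (B.val : B →+* U) _
  rw [h4, ← h3]
  have h5 : ((muB S c' B hB huB I l q : B) : U) = ((B.val : B →+* U).mapMatrix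
      ((matB c z0 ez c' B hB huB I l).updateCol q (vecB S c' B hB huB I l))).det :=
    RingHom.map_det (B.val : B →+* U) _
  rw [h5]
  congr 1
  ext i j
  rw [RingHom.mapMatrix_apply, Matrix.map_apply, Matrix.updateCol_apply, Matrix.updateCol_apply]
  split_ifs
  · rfl
  · rfl

end ring

end Pool.Agent.H58.AC
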