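import Pool.Agent.H58.AC.Gen

/-!
# The residue fields of a generically finite cover of an abelian variety: derivations
-/

set_option autoImplicit false
set_option linter.unusedSectionVars false

namespace Pool.Agent.H58.AC

open Pool.Agent.K1H80.EC (IsD isD_left isD_right exists_ext exists_der_ext)
open Pool.Agent.K1H80.AV Pool.Agent.K1H80
open MvPolynomial Module

variable {k F E U : Type} [Field k] [CharZero k] [Field F] [Field E] [Field U] [Algebra k F]
  [Algebra k E] [Algebra k U] [Algebra F E] [Algebra F U] [Algebra E U] [IsScalarTower k F E]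
  [IsScalarTower k E U] [IsScalarTower F E U] {N M r m' ν e R' : ℕ}
  {𝔡 : Dat k F N M r m' ν e R'} {D : Derivation k U U} {Y : 𝔡.A.Co U} {u : Fin M → U}
  {c : Fin M} {z0 : Fin ν → E} {ez : Fin ν → Fin m' → E} {n : ℕ}
  (S : Sys 𝔡 E D Y u c z0 ez n) (c' : Fin N) (B : Subalgebra E U)
  (hB : RZ E (nz 𝔡.A Y c') ≤ B) (huB : ∀ a, u a ∈ B)
  {κ : Type} [Field κ] [CharZero κ] [Algebra k κ] [Algebra F κ] [Algebra E κ]
  [IsScalarTower F E κ] [IsScalarTower k E κ] (φ : B →ₐ[E] κ)

theorem comp_phi : Comp k F (φ : B →+* κ) where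
  hk := fun a => by
    have h1 : algebraMap k B a = algebraMap E B (algebraMap k E a) :=
      IsScalarTower.algebraMap_apply k E B a
    rw [h1]
    refine (φ.commutes _).trans ?_
    rw [← IsScalarTower.algebraMap_apply]
  hF := fun a => by
    have h1 : algebraMap F B a = algebraMap E B (algebraMap F E a) :=
      IsScalarTower.algebraMap_apply F E B a
    rw [h1]
    refine (φ.commutes _).trans ?_
    rw [← IsScalarTower.algebraMap_apply]

theorem comp_id : Comp k F (RingHom.id κ) := ⟨fun _ => rfl, fun _ => rfl⟩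

/-- the residue of the point -/
noncomputable def qu (a : Fin M) : κ := φ (uB B huB a)

/-- the residue of the point of the abelian variety -/
noncomputable def qz (t : Fin N) : κ := φ (zB c' B hB t)

include S in
theorem eqn_k (i : Fin e) : aeval (qu B huB φ) (𝔡.eqn i) = 0 := by
  have h1 := (comp_phi (k := k) (F := F) B φ).aevalF (uB B huB) (𝔡.eqn i)
  rw [eqn_B B huB S i, map_zero] at h1
  exact h1.symm

include S in
theorem uc_k : qu B huB φ c = 1 := by
  unfold qu
  rw [uc_B B huB S, map_one]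

include S in
theorem rel_k (hc' : Y.1 c' ≠ 0) (l : Fin R') (t : Fin N) :
    aeval (Sum.elim (qu B huB φ) fun t => algebraMap E κ (z0 t)) (𝔡.p l t) =
      qz c' B hB φ t * aeval (Sum.elim (qu B huB φ) fun t => algebraMap E κ (z0 t)) (𝔡.p l c') := by
  have h0 := congrArg (φ : B →+* κ) (rel_B c' B hB huB S hc' l t)
  rw [map_mul, (comp_phi (k := k) (F := F) B φ).aevalF,
    (comp_phi (k := k) (F := F) B φ).aevalF, elim_map] at h0
  have h1 : (fun t => (φ : B →+* κ) (algebraMap E B (z0 t))) = fun t => algebraMap E κ (z0 t) :=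
    funext fun t => φ.commutes _
  rw [h1] at h0
  exact h0

/-- the matrix over the residue field -/
noncomputable def matK (c : Fin M) (z0 : Fin ν → E) (ez : Fin ν → Fin m' → E) (I : Fin r → Fin e)
    (l : Fin R') : Matrix (Col M m') (Col M m') κ :=
  𝔡.mat I l c c' (qu B huB φ) (fun t => algebraMap E κ (z0 t))
    (fun t s => algebraMap E κ (ez t s)) (qz c' B hB φ)

/-- the right hand side over the residue field -/
noncomputable def vecK (z0 : Fin ν → E) (I : Fin r → Fin e) (l : Fin R') (e' : F → κ)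
    (ww : Fin 𝔡.A.dim → κ) : Col M m' → κ :=
  𝔡.vec I l c' e' (qu B huB φ) (fun t => algebraMap E κ (z0 t)) (qz c' B hB φ) ww

theorem map_mat (I : Fin r → Fin e) (l : Fin R') (x y : Col M m') :
    φ (matB c z0 ez c' B hB huB I l x y) = matK c' B hB huB φ c z0 ez I l x y := by
  have h := 𝔡.map_ent (comp_phi (k := k) (F := F) B φ) I l c c' (uB B huB)
    (fun t => algebraMap E B (z0 t)) (fun t s => algebraMap E B (ez t s)) (zB c' B hB)
    (𝔡.eq.symm x) y
  have h1 : (fun t => (φ : B →+* κ) (algebraMap E B (z0 t))) = fun t => algebraMap E κ (z0 t) :=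
    funext fun t => φ.commutes _
  have h2 : (fun t s => (φ : B →+* κ) (algebraMap E B (ez t s))) =
      fun t s => algebraMap E κ (ez t s) := funext fun t => funext fun s => φ.commutes _
  rw [h1, h2] at h
  exact h

theorem map_vec (I : Fin r → Fin e) (l : Fin R') (x : Col M m') :
    φ (vecB S c' B hB huB I l x) = vecK c' B hB huB φ z0 I l (fun f => algebraMap E κ (S.eF f))
      (fun j => algebraMap E κ (S.eW j)) x := by
  have h := 𝔡.map_rhs (comp_phi (k := k) (F := F) B φ) I l c' (fun f => algebraMap E B (S.eF f))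
    (uB B huB) (fun t => algebraMap E B (z0 t)) (zB c' B hB) (fun j => algebraMap E B (S.eW j))
    (𝔡.eq.symm x)
  have h1 : (fun t => (φ : B →+* κ) (algebraMap E B (z0 t))) = fun t => algebraMap E κ (z0 t) :=
    funext fun t => φ.commutes _
  have h2 : (fun f => (φ : B →+* κ) (algebraMap E B (S.eF f))) =
      fun f => algebraMap E κ (S.eF f) := funext fun t => φ.commutes _
  have h3 : (fun j => (φ : B →+* κ) (algebraMap E B (S.eW j))) =
      fun j => algebraMap E κ (S.eW j) := funext fun t => φ.commutes _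
  rw [h1, h2, h3] at h
  exact h

theorem map_det' (I : Fin r → Fin e) (l : Fin R') :
    φ (matB c z0 ez c' B hB huB I l).det = (matK c' B hB huB φ c z0 ez I l).det := by
  have h : φ (matB c z0 ez c' B hB huB I l).det =
      ((φ : B →+* κ).mapMatrix (matB c z0 ez c' B hB huB I l)).det :=
    RingHom.map_det (φ : B →+* κ) _
  rw [h]
  congr 1
  ext x y
  exact map_mat c' B hB huB φ I l x y

theorem map_mu (I : Fin r → Fin e) (l : Fin R') (q : Col M m') :
    φ (muB S c' B hB huB I l q) = ((matK c' B hB huB φ c z0 ez I l).updateCol q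
      (vecK c' B hB huB φ z0 I l (fun f => algebraMap E κ (S.eF f))
        (fun j => algebraMap E κ (S.eW j)))).det := by
  have h : φ (muB S c' B hB huB I l q) = ((φ : B →+* κ).mapMatrix
      ((matB c z0 ez c' B hB huB I l).updateCol q (vecB S c' B hB huB I l))).det :=
    RingHom.map_det (φ : B →+* κ) _
  rw [h]
  congr 1
  ext x y
  rw [RingHom.mapMatrix_apply, Matrix.map_apply, Matrix.updateCol_apply, Matrix.updateCol_apply]
  split_ifs
  · exact map_vec S c' B hB huB φ I l x
  · exact map_mat c' B hB huB φ I l x y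

/-- the derivatives of the coordinates -/
noncomputable def cv (b0 : Fin m' → Fin ν) (z0 : Fin ν → E) (d : κ → κ) : Col M m' → κ :=
  Sum.elim (fun a => d (qu B huB φ a)) (fun s => d (algebraMap E κ (z0 (b0 s))))

/-- the values of the invariant differentials -/
noncomputable def wv (A : AbelianVariety k N) (c' : Fin N) (q : Fin N → κ) (d : κ → κ)
    (j : Fin A.dim) : κ := ∑ t, aeval q (A.eta c' j t) * d (q t)

include S in
/-- **The equations for derivations of the residue field.** -/
theorem eqs_k (hc' : Y.1 c' ≠ 0) (I : Fin r → Fin e) (l : Fin R') (D1 : Derivation k κ κ)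
    (hz : ∀ t, D1 (algebraMap E κ (z0 t)) =
      ∑ s, algebraMap E κ (ez t s) * D1 (algebraMap E κ (z0 (𝔡.b0 s)))) :
    (matK c' B hB huB φ c z0 ez I l).mulVec (cv B huB φ 𝔡.b0 z0 D1) =
      vecK c' B hB huB φ z0 I l (fun f => D1 (algebraMap F κ f))
        (wv 𝔡.A c' (qz c' B hB φ) D1) := by
  funext x
  have h1 := 𝔡.eqs (comp_id (k := k) (F := F) (κ := κ)) (I := I) (l := l) (c := c) (c' := c')
    (u := qu B huB φ) (z0 := fun t => algebraMap E κ (z0 t))
    (ez := fun t s => algebraMap E κ (ez t s)) (z := qz c' B hB φ) (d := D1)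
    (isD_left D1 (RingHom.id κ)) (fun i => eqn_k S B huB φ i) (uc_k S B huB φ)
    (fun t => rel_k S c' B hB huB φ hc' l t) hz (𝔡.eq.symm x)
  exact h1

/-- the right hand side depends on the logarithmic derivative -/
theorem vec_inj (I : Fin r → Fin e) (l : Fin R') {e' : F → κ}
    {ww ww' : Fin 𝔡.A.dim → κ}
    (hl : aeval (Sum.elim (qu B huB φ) fun t => algebraMap E κ (z0 t)) (𝔡.p l c') ≠ 0)
    (h : vecK c' B hB huB φ z0 I l e' ww = vecK c' B hB huB φ z0 I l e' ww') : ww = ww' := by
  funext j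
  have h1 := congrFun h (𝔡.eq (Sum.inr (Sum.inl j)))
  unfold vecK Dat.vec at h1
  rw [Equiv.symm_apply_apply] at h1
  simp only [Dat.rhs] at h1
  exact mul_left_cancel₀ hl (sub_left_injective h1)

/-- the right hand side for derivations over `F` -/
theorem vec_zero (I : Fin r → Fin e) (l : Fin R') (ww : Fin 𝔡.A.dim → κ) (j : Fin 𝔡.A.dim) :
    vecK c' B hB huB φ z0 I l (fun _ => 0) ww (𝔡.eq (Sum.inr (Sum.inl j))) =
      aeval (Sum.elim (qu B huB φ) fun t => algebraMap E κ (z0 t)) (𝔡.p l c') * ww j := by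
  unfold vecK Dat.vec
  rw [Equiv.symm_apply_apply]
  simp only [Dat.rhs, cd_zero, mul_zero, sub_zero, Finset.sum_const_zero]

/-- the tangent space -/
def Tm (𝔡 : Dat k F N M r m' ν e R') (c : Fin M) : Submodule κ (Col M m' → κ) where
  carrier := {v | (fun a => v (Sum.inl a)) ∈ tangent 𝔡.eqn (qu B huB φ) ∧ v (Sum.inl c) = 0}
  add_mem' := fun {v w} hv hw => ⟨Submodule.add_mem _ hv.1 hw.1, by
    rw [Pi.add_apply, hv.2, hw.2, add_zero]⟩
  zero_mem' := ⟨Submodule.zero_mem _, rfl⟩
  smul_mem' := fun a v hv => ⟨Submodule.smul_mem _ a hv.1, by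
    rw [Pi.smul_apply, hv.2, smul_zero]⟩

theorem mem_Tm {v : Col M m' → κ} : v ∈ Tm B huB φ 𝔡 c ↔
    (fun a => v (Sum.inl a)) ∈ tangent 𝔡.eqn (qu B huB φ) ∧ v (Sum.inl c) = 0 := Iff.rfl

include S in
theorem finrank_Tm : finrank κ (Tm B huB φ 𝔡 c) ≤ 𝔡.A.dim := by
  obtain ⟨h1, h2⟩ := S.hsm κ (qu B huB φ) (fun i => eqn_k S B huB φ i) (uc_k S B huB φ)
  let T0 : Submodule κ (Fin M → κ) :=
    tangent 𝔡.eqn (qu B huB φ) ⊓ LinearMap.ker (LinearMap.proj c)
  have hT0 : finrank κ T0 ≤ n := by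
    have h3 : T0 < tangent 𝔡.eqn (qu B huB φ) := by
      refine lt_of_le_of_ne inf_le_left fun h => ?_
      have h4 : qu B huB φ ∈ T0 := by rw [h]; exact h1
      have h5 : qu B huB φ c = 0 := h4.2
      rw [uc_k S B huB φ] at h5
      exact one_ne_zero h5
    have := Submodule.finrank_lt_finrank_of_lt h3
    omega
  let f : Tm B huB φ 𝔡 c →ₗ[κ] T0 × (Fin m' → κ) :=
    { toFun := fun v => (⟨fun a => v.1 (Sum.inl a), v.2⟩, fun s => v.1 (Sum.inr s))
      map_add' := fun v w => rfl
      map_smul' := fun a v => rfl }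
  have hf : Function.Injective f := by
    intro v w h
    apply Subtype.ext
    funext x
    have h3 := congrArg Prod.fst h
    have h4 := congrArg Prod.snd h
    rcases x with a | s
    · exact congrFun (congrArg Subtype.val h3) a
    · exact congrFun h4 s
  have h3 := LinearMap.finrank_le_finrank_of_injective hf
  rw [finrank_prod, finrank_fin_fun] at h3
  have := S.hn
  omega

/-- the tangent vectors given by derivations -/
def Vm (𝔡 : Dat k F N M r m' ν e R') (z0 : Fin ν → E) : Submodule κ (Col M m' → κ) where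
  carrier := {v | ∃ δ : Derivation F κ κ, v = cv B huB φ 𝔡.b0 z0 δ}
  add_mem' := by
    rintro _ _ ⟨δ, rfl⟩ ⟨δ', rfl⟩
    refine ⟨δ + δ', ?_⟩
    funext x
    rcases x with a | s <;> rfl
  zero_mem' := ⟨0, by funext x; rcases x with a | s <;> rfl⟩
  smul_mem' := by
    rintro b _ ⟨δ, rfl⟩
    refine ⟨b • δ, ?_⟩
    funext x
    rcases x with a | s <;> rfl

include S in
theorem Vm_le : Vm B huB φ 𝔡 z0 ≤ Tm B huB φ 𝔡 c := by
  rintro _ ⟨δ, rfl⟩
  refine ⟨fun i => ?_, ?_⟩
  · have h1 := chain_mv (k := F) (isD_left δ (RingHom.id κ)) (fun t => δ.map_algebraMap t)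
      (qu B huB φ) (𝔡.eqn i)
    have h2 : δ (aeval (qu B huB φ) (𝔡.eqn i)) = 0 := by rw [eqn_k S B huB φ i, map_zero]
    exact h1.symm.trans h2
  · change δ (qu B huB φ c) = 0
    rw [uc_k S B huB φ, δ.map_one_eq_zero]

include S hB in
theorem exists_l (hc' : Y.1 c' ≠ 0) :
    ∃ l, aeval (Sum.elim (qu B huB φ) fun t => algebraMap E κ (z0 t)) (𝔡.p l c') ≠ 0 := by
  obtain ⟨l, t, h⟩ := S.hbp κ (qu B huB φ) (fun i => eqn_k S B huB φ i) (uc_k S B huB φ)
  refine ⟨l, fun h0 => h ?_⟩
  rw [rel_k S c' B hB huB φ hc', h0, mul_zero]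

include S in
theorem exists_I : ∃ I : Fin r → Fin e, ∀ l, ∀ v : Col M m' → κ,
    (∀ x ∈ {x | ∀ j, 𝔡.eq.symm x ≠ Sum.inr (Sum.inl j)},
      ((matK c' B hB huB φ c z0 ez I l).mulVec v) x = 0) → v ∈ Tm B huB φ 𝔡 c := by
  obtain ⟨h1, h2⟩ := S.hsm κ (qu B huB φ) (fun i => eqn_k S B huB φ i) (uc_k S B huB φ)
  obtain ⟨I, hI⟩ := exists_rows 𝔡.eqn (qu B huB φ) h2 S.hM
  refine ⟨I, fun l v hv => ⟨hI _ fun i => ?_, ?_⟩⟩
  · have h3 := hv (𝔡.eq (Sum.inl i)) (fun j => by
      rw [Equiv.symm_apply_apply]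
      exact Sum.inl_ne_inr)
    have h4 : ((matK c' B hB huB φ c z0 ez I l).mulVec v) (𝔡.eq (Sum.inl i)) =
        ∑ y, 𝔡.ent I l c c' (qu B huB φ) (fun t => algebraMap E κ (z0 t))
          (fun t s => algebraMap E κ (ez t s)) (qz c' B hB φ) (Sum.inl i) y * v y := by
      unfold Matrix.mulVec dotProduct matK Dat.mat
      simp only [Matrix.of_apply, Equiv.symm_apply_apply]
    rw [h4, Fintype.sum_sum_type] at h3
    simp only [Dat.ent, zero_mul, Finset.sum_const_zero, add_zero] at h3
    exact h3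
  · have h3 := hv (𝔡.eq (Sum.inr (Sum.inr ()))) (fun j => by
      rw [Equiv.symm_apply_apply]
      intro h
      exact Sum.inr_ne_inl (Sum.inr_injective h))
    have h4 : ((matK c' B hB huB φ c z0 ez I l).mulVec v) (𝔡.eq (Sum.inr (Sum.inr ()))) =
        ∑ y, 𝔡.ent I l c c' (qu B huB φ) (fun t => algebraMap E κ (z0 t))
          (fun t s => algebraMap E κ (ez t s)) (qz c' B hB φ) (Sum.inr (Sum.inr ())) y * v y := by
      unfold Matrix.mulVec dotProduct matK Dat.mat
      simp only [Matrix.of_apply, Equiv.symm_apply_apply]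
    rw [h4, Fintype.sum_sum_type] at h3
    simp only [Dat.ent, zero_mul, Finset.sum_const_zero, add_zero, ite_mul, one_mul,
      Finset.sum_ite_eq', Finset.mem_univ, if_true] at h3
    exact h3

end Pool.Agent.H58.AC
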