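import Pool.Agent.H58.AC.Ra2

/-!
# The residue fields of a generically finite cover of an abelian variety: the conclusion
-/

set_option autoImplicit false
set_option linter.unusedSectionVars false

namespace Pool.Agent.H58.AC

open Pool.Agent.K1H80.EC (IsD isD_left isD_right exists_ext exists_der_ext)
open Pool.Agent.K1H80.AV Pool.Agent.K1H80
open MvPolynomial Module

variable {k F E U : Type} [Field k] [CharZero k] [Field F] [Field E] [Field U] [Algebra k F]
  [Algebra k E] [Algebra k U] [Algebra F E] [Algebra F U] [Algebra E U] [IsScalarTower k F E]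
  [IsScalarTower k E U] [IsScalarTower F E U] {N M r m' ν e R' : ℕ}
  {𝔡 : Dat k F N M r m' ν e R'} {D : Derivation k U U} {Y : 𝔡.A.Co U} {u : Fin M → U}
  {c : Fin M} {z0 : Fin ν → E} {ez : Fin ν → Fin m' → E} {n : ℕ}
  (S : Sys 𝔡 E D Y u c z0 ez n) (c' : Fin N) (B : Subalgebra E U)
  (hB : RZ E (nz 𝔡.A Y c') ≤ B) (huB : ∀ a, u a ∈ B)
  {κ : Type} [Field κ] [CharZero κ] [Algebra k κ] [Algebra F κ] [Algebra E κ]
  [IsScalarTower F E κ] [IsScalarTower k E κ] (φ : B →ₐ[E] κ)

/-- the family of elements over which everything is algebraic -/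
noncomputable def Sys.s (S : Sys 𝔡 E D Y u c z0 ez n) : Fin 𝔡.A.dim → U := S.halg.choose

/-- the algebraic elements -/
def Sys.Alg (S : Sys 𝔡 E D Y u c z0 ez n) (x : U) : Prop :=
  IsAlgebraic (Algebra.adjoin F (Set.range S.s)) x

theorem Sys.alg_u (S : Sys 𝔡 E D Y u c z0 ez n) (a : Fin M) : S.Alg (u a) :=
  S.halg.choose_spec.1 a

theorem Sys.alg_z0 (S : Sys 𝔡 E D Y u c z0 ez n) (t : Fin ν) : S.Alg (algebraMap E U (z0 t)) :=
  S.halg.choose_spec.2.1 t

theorem Sys.alg_ez (S : Sys 𝔡 E D Y u c z0 ez n) (t : Fin ν) (s : Fin m') :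
    S.Alg (algebraMap E U (ez t s)) := S.halg.choose_spec.2.2.1 t s

theorem Sys.alg_nz (S : Sys 𝔡 E D Y u c z0 ez n) (c' t : Fin N) : S.Alg (nz 𝔡.A Y c' t) :=
  S.halg.choose_spec.2.2.2 c' t

include S in
/-- the image of the tangent vector of a derivation -/
theorem mul_cv (hc' : Y.1 c' ≠ 0) (I : Fin r → Fin e) (l : Fin R') (δ : Derivation F κ κ)
    (j : Fin 𝔡.A.dim) :
    ((matK c' B hB huB φ c z0 ez I l).mulVec (cv B huB φ 𝔡.b0 z0 δ)) (𝔡.eq (Sum.inr (Sum.inl j))) =
      aeval (Sum.elim (qu B huB φ) fun t => algebraMap E κ (z0 t)) (𝔡.p l c') *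
        wv 𝔡.A c' (qz c' B hB φ) δ j := by
  have hkF : IsScalarTower k F κ := IsScalarTower.of_algebraMap_eq fun t => by
    rw [IsScalarTower.algebraMap_apply k E κ, IsScalarTower.algebraMap_apply k F E,
      ← IsScalarTower.algebraMap_apply F E κ]
  have h1 := eqs_k S c' B hB huB φ hc' I l (δ.restrictScalars k) (fun t => S.hez κ δ t)
  have h2 := congrFun h1 (𝔡.eq (Sum.inr (Sum.inl j)))
  have h3 : (fun f => (δ.restrictScalars k) (algebraMap F κ f)) = fun _ => (0 : κ) :=
    funext fun f => δ.map_algebraMap f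
  rw [h3, vec_zero] at h2
  exact h2

include S in
/-- independent images give independent tangent vectors -/
theorem card_le_Vm (hc' : Y.1 c' ≠ 0) {ι : Type} [Fintype ι] [DecidableEq ι]
    (f : ι → Fin 𝔡.A.dim) (δ : ι → Derivation F κ κ)
    (h : ∀ i j, wv 𝔡.A c' (qz c' B hB φ) (δ i) (f j) = if j = i then 1 else 0) :
    Fintype.card ι ≤ finrank κ (Vm B huB φ 𝔡 z0) ∧
      ∀ β : ι → κ, (∀ x, ∑ i, β i * cv B huB φ 𝔡.b0 z0 (δ i) x = 0) → β = 0 := by
  obtain ⟨l, hl⟩ := exists_l S c' B hB huB φ hc'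
  obtain ⟨I, -⟩ := exists_I S c' B hB huB φ (c := c)
  have key : ∀ β : ι → κ, (∀ x, ∑ i, β i * cv B huB φ 𝔡.b0 z0 (δ i) x = 0) → β = 0 := by
    intro β hβ
    funext j
    have h1 : (∑ i, β i • cv B huB φ 𝔡.b0 z0 (δ i)) = 0 := by
      funext x
      rw [Finset.sum_apply]
      exact hβ x
    have h2 : ((matK c' B hB huB φ c z0 ez I l).mulVec (∑ i, β i • cv B huB φ 𝔡.b0 z0 (δ i)))
        (𝔡.eq (Sum.inr (Sum.inl (f j)))) = 0 := by
      rw [h1, Matrix.mulVec_zero]; rfl
    rw [Matrix.mulVec_sum, Finset.sum_apply, Finset.sum_eq_single j] at h2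
    · rw [Matrix.mulVec_smul, Pi.smul_apply, mul_cv S c' B hB huB φ hc' I l, h, if_pos rfl,
        mul_one, smul_eq_mul] at h2
      exact (mul_eq_zero.1 h2).resolve_right hl
    · intro i _ hi
      rw [Matrix.mulVec_smul, Pi.smul_apply, mul_cv S c' B hB huB φ hc' I l, h,
        if_neg (Ne.symm hi), mul_zero, smul_zero]
    · intro h; exact absurd (Finset.mem_univ j) h
  refine ⟨?_, key⟩
  have hli : LinearIndependent κ (fun i => (⟨cv B huB φ 𝔡.b0 z0 (δ i), ⟨δ i, rfl⟩⟩ :
      Vm B huB φ 𝔡 z0)) := by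
    rw [Fintype.linearIndependent_iff]
    intro β hβ i
    have h1 := key β (fun x => by
      have h2 := congrFun (congrArg Subtype.val hβ) x
      rw [Submodule.coe_sum, Finset.sum_apply] at h2
      exact h2)
    exact congrFun h1 i
  exact hli.fintype_card_le_finrank

/-- derivations which give independent tangent vectors give algebraically independent elements -/
theorem exists_of_Vm {m : ℕ} (hm : m ≤ finrank κ (Vm B huB φ 𝔡 z0)) :
    ∃ a : Fin m → Col M m', AlgebraicIndependent F (fun i =>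
      Sum.elim (qu B huB φ) (fun s => algebraMap E κ (z0 (𝔡.b0 s))) (a i)) := by
  let bs := Module.finBasis κ (Vm B huB φ 𝔡 z0)
  choose δ hδ using fun i => (bs i).2
  refine exists_indep (F := F) (κ := κ) (σ := Col M m')
    (Sum.elim (qu B huB φ) (fun s => algebraMap E κ (z0 (𝔡.b0 s)))) δ (fun β hβ => ?_) (by
      rw [Fintype.card_fin]; exact hm)
  have h1 := bs.linearIndependent
  rw [Fintype.linearIndependent_iff] at h1
  funext i
  refine h1 β ?_ i
  apply Subtype.ext
  rw [Submodule.coe_sum]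
  funext x
  rw [Finset.sum_apply]
  refine Eq.trans ?_ (hβ x)
  refine Finset.sum_congr rfl fun i _ => ?_
  have h2 : ((β i • bs i : Vm B huB φ 𝔡 z0) : Col M m' → κ) x = β i * (bs i : Col M m' → κ) x := rfl
  rw [h2, hδ i]
  rcases x with a | s <;> rfl

include S in
/-- **Generic points of the residue field.** -/
theorem gen (h : 𝔡.A.dim ≤ finrank κ (Vm B huB φ 𝔡 z0)) {b : B} (hb : S.Alg (b : U))
    (hφ : φ b = 0) : b = 0 := by
  have hcU : CharZero U := charZero_of_injective_algebraMap (algebraMap k U).injective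
  obtain ⟨a, ha⟩ := exists_of_Vm B huB φ h
  let w : Fin 𝔡.A.dim → B := fun i =>
    Sum.elim (uB B huB) (fun s => algebraMap E B (z0 (𝔡.b0 s))) (a i)
  refine inj_of_indep (F := F) (U := U) (κ := κ) (B := B) (B.val.restrictScalars F)
    Subtype.val_injective (φ.restrictScalars F) S.s w (fun i => ?_) ?_ hb hφ
  · change IsAlgebraic _ ((w i : B) : U)
    simp only [w]
    rcases a i with x | s
    · exact S.alg_u x
    · exact S.alg_z0 _
  · have h1 : (fun i => (φ.restrictScalars F) (w i)) = fun i =>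
        Sum.elim (qu B huB φ) (fun s => algebraMap E κ (z0 (𝔡.b0 s))) (a i) := by
      funext i
      change φ (Sum.elim (uB B huB) (fun s => algebraMap E B (z0 (𝔡.b0 s))) (a i)) = _
      rcases a i with x | s
      · rfl
      · exact φ.commutes _
    rw [h1]
    exact ha

theorem coord_k (hc' : Y.1 c' ≠ 0) : IsCoord 𝔡.A.eqn (qz c' B hB φ) ∧ qz c' B hB φ c' = 1 := by
  have h1 : qz c' B hB φ c' = 1 := by
    have h2 : zB c' B hB c' = 1 := Subtype.ext (nz_c Y hc')
    unfold qz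
    rw [h2, map_one]
  refine ⟨⟨⟨c', by rw [h1]; exact isUnit_one⟩, fun i => ?_⟩, h1⟩
  have h2 : aeval (zB c' B hB) (𝔡.A.eqn i) = 0 := by
    apply Subtype.ext
    have h3 := (comp_val (k := k) (F := F) B).aevalk (zB c' B hB) (𝔡.A.eqn i)
    exact h3.trans ((nz_coord Y hc').2 i)
  have h3 := (comp_phi (k := k) (F := F) B φ).aevalk (zB c' B hB) (𝔡.A.eqn i)
  rw [h2, map_zero] at h3
  exact h3.symm

include S in
/-- **A function with nonzero differential.** -/
theorem exists_Phi (hc' : Y.1 c' ≠ 0) (h : finrank κ (Vm B huB φ 𝔡 z0) < 𝔡.A.dim) :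
    ∃ Φ : MvPolynomial (Fin N) F, aeval (qz c' B hB φ) Φ = 0 ∧ ∃ i : Fin 𝔡.A.dim,
      ∑ t, aeval (qz c' B hB φ) (pderiv t Φ) * aeval (qz c' B hB φ) (𝔡.A.xi c' i t) ≠ 0 := by
  classical
  by_contra hcon
  push Not at hcon
  obtain ⟨h1, h2⟩ := coord_k (k := k) (F := F) c' B hB φ hc'
  choose δ hδ using fun i : Fin 𝔡.A.dim => exists_der_of_rel (F := F) (qz c' B hB φ)
    (fun t => aeval (qz c' B hB φ) (𝔡.A.xi c' i t)) (fun P hP => hcon P hP i)
  have h3 := (card_le_Vm S c' B hB huB φ hc' (ι := Fin 𝔡.A.dim) id δ (fun i j => by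
    unfold wv
    simp only [hδ]
    exact dual_xi 𝔡.A h1 h2 i j)).1
  rw [Fintype.card_fin] at h3
  omega

end Pool.Agent.H58.AC
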