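import Pool.Agent.H58.AC.Ra3

/-!
# The residue fields of a generically finite cover of an abelian variety: codimension one
-/

set_option autoImplicit false
set_option linter.unusedSectionVars false

namespace Pool.Agent.H58.AC

open Pool.Agent.K1H80.EC (IsD isD_left isD_right exists_ext exists_der_ext)
open Pool.Agent.K1H80.AV Pool.Agent.K1H80
open MvPolynomial Module

section cpR

variable {k F E U : Type} [Field k] [CharZero k] [Field F] [Field E] [Field U] [Algebra k F]
  [Algebra k E] [Algebra k U] [Algebra F E] [Algebra F U] [Algebra E U] [IsScalarTower k F E]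
  [IsScalarTower k E U] [IsScalarTower F E U] {N : ℕ} {A : AbelianVariety k N}
  {D : Derivation k U U} {X : A.Co U} {c : Fin N} {κ : Type} [Field κ] [CharZero κ]
  [Algebra (RZ E (nz A X c)) κ] [Algebra k κ] [Algebra F κ] [Algebra E κ]
  [IsScalarTower E (RZ E (nz A X c)) κ] [IsScalarTower F E κ] [IsScalarTower k E κ]

/-- a function on the residue field with nonzero differential whose derivative vanishes -/
theorem cpR (g : Gs F E A D X) (hc : X.1 c ≠ 0) {m : ℕ}
    (s0 : Fin m → RZ E (nz A X c))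
    (hint0 : ∀ r : RZ E (nz A X c), IsIntegral (Algebra.adjoin E (Set.range s0)) r)
    {T : Type} [Fintype T] (s : T → RZ E (nz A X c)) (hm : m ≤ Fintype.card T + 1)
    (hind : AlgebraicIndependent E (fun a => algebraMap (RZ E (nz A X c)) κ (s a)))
    (Φ : MvPolynomial (Fin N) F)
    (h0 : algebraMap (RZ E (nz A X c)) κ (aeval (zR E (nz A X c)) Φ) = 0)
    (hD : algebraMap (RZ E (nz A X c)) κ ((g.sit hc).DR (aeval (zR E (nz A X c)) Φ)) = 0)
    (i : Fin A.dim) (hi : algebraMap (RZ E (nz A X c)) κ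
      (∑ t, aeval (zR E (nz A X c)) (pderiv t Φ) * aeval (zR E (nz A X c)) (A.xi c i t)) ≠ 0) :
    False := by
  obtain ⟨-, hsimp⟩ := g.indep (κ := κ) hc s0 hint0 s hm hind
  let γ : Fin A.dim → RZ E (nz A X c) := fun i =>
    ∑ t, aeval (zR E (nz A X c)) (pderiv t Φ) * aeval (zR E (nz A X c)) (A.xi c i t)
  have hst := hsimp (aeval (zR E (nz A X c)) Φ) γ (fun d => ?_) h0 hD ⟨i, hi⟩
  · have hst' : ∀ r ∈ RingHom.ker (algebraMap (RZ E (nz A X c)) κ),
        (g.sit hc).DR r ∈ RingHom.ker (algebraMap (RZ E (nz A X c)) κ) := fun r hr => hst r hr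
    have h2 : RingHom.ker (algebraMap (RZ E (nz A X c)) κ) = ⊥ := by
      by_contra hne'
      exact (RingHom.ker_isPrime (algebraMap (RZ E (nz A X c)) κ)).ne_top
        ((g.sit hc).simple _ hst' hne')
    have h3 : aeval (zR E (nz A X c)) Φ ∈ RingHom.ker (algebraMap (RZ E (nz A X c)) κ) := h0
    rw [h2, Ideal.mem_bot] at h3
    apply hi
    have h4 : γ i = 0 := by
      obtain ⟨D', hD'1, hD'2⟩ := g.geo.gen (Pi.single i 1)
      apply Subtype.ext
      have h5 : aeval (nz A X c) Φ = 0 := by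
        rw [← coe_aeval_zRF (E := E), h3]
        rfl
      have hFU : IsScalarTower k F U := IsScalarTower.of_algebraMap_eq fun t => by
        rw [IsScalarTower.algebraMap_apply F E U, ← IsScalarTower.algebraMap_apply k F E,
          ← IsScalarTower.algebraMap_apply k E U]
      have h6 := chain_mv (k := F) (isD_left D' (RingHom.id U)) hD'1 (nz A X c) Φ
      have h7 : ((γ i : RZ E (nz A X c)) : U) =
          ∑ t, aeval (nz A X c) (pderiv t Φ) * aeval (nz A X c) (A.xi c i t) := by
        simp only [γ]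
        push_cast
        exact Finset.sum_congr rfl fun t _ => by rw [coe_aeval_zRF, coe_aeval_zR]
      rw [h7]
      refine Eq.trans ?_ (h6.symm.trans (by rw [h5]; exact map_zero D'))
      refine Finset.sum_congr rfl fun t _ => ?_
      change _ = _ * D' (nz A X c t)
      rw [D_nz X hc D' t, hD'2, Finset.sum_eq_single i]
      · rw [Pi.single_eq_same, mul_one]
        rfl
      · intro j _ hj
        rw [Pi.single_eq_of_ne hj, mul_zero]
      · intro h; exact absurd (Finset.mem_univ i) h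
    change algebraMap (RZ E (nz A X c)) κ (γ i) = 0
    rw [h4, map_zero]
  · have hId : IsD (algebraMap (RZ E (nz A X c)) κ) d := ⟨fun x y => map_add d x y, fun x y => by
      rw [d.leibniz, Algebra.smul_def, Algebra.smul_def]⟩
    have h2 := chain_mv (k := F) hId (fun t => d.map_algebraMap t) (zR E (nz A X c)) Φ
    have hdk : ∀ t : k, d (algebraMap k (RZ E (nz A X c)) t) = 0 := by
      intro t
      have h4 : algebraMap k (RZ E (nz A X c)) t = algebraMap F (RZ E (nz A X c))
          (algebraMap k F t) := by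
        apply Subtype.ext
        change algebraMap k U t = algebraMap F U (algebraMap k F t)
        rw [IsScalarTower.algebraMap_apply F E U, ← IsScalarTower.algebraMap_apply k F E,
          ← IsScalarTower.algebraMap_apply k E U]
      rw [h4]
      exact d.map_algebraMap _
    have h3 := fun s => (cht E (nz_coord X hc) (nz_c X hc)).frame κ
      (algebraMap (RZ E (nz A X c)) κ) d hId hdk s
    rw [h2]
    have h5 : ∀ s, algebraMap (RZ E (nz A X c)) κ (aeval (zR E (nz A X c)) (pderiv s Φ)) *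
        d (zR E (nz A X c) s) = ∑ i, algebraMap (RZ E (nz A X c)) κ
          (aeval (zR E (nz A X c)) (pderiv s Φ) * aeval (zR E (nz A X c)) (A.xi c i s)) *
          ∑ t, algebraMap (RZ E (nz A X c)) κ (aeval (zR E (nz A X c)) (A.eta c i t)) *
            d (zR E (nz A X c) t) := by
      intro s
      have h6 : d (zR E (nz A X c) s) = ∑ i, algebraMap (RZ E (nz A X c)) κ
          (aeval (zR E (nz A X c)) (A.xi c i s)) * ∑ t, algebraMap (RZ E (nz A X c)) κ
            (aeval (zR E (nz A X c)) (A.eta c i t)) * d (zR E (nz A X c) t) := h3 s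
      conv_lhs => rw [h6]
      rw [Finset.mul_sum]
      refine Finset.sum_congr rfl fun i _ => ?_
      rw [map_mul, mul_assoc]
    rw [Finset.sum_congr rfl fun s _ => h5 s, Finset.sum_comm]
    refine Finset.sum_congr rfl fun i _ => ?_
    rw [← Finset.sum_mul, ← map_sum]

end cpR

variable {k F E U : Type} [Field k] [CharZero k] [Field F] [Field E] [Field U] [Algebra k F]
  [Algebra k E] [Algebra k U] [Algebra F E] [Algebra F U] [Algebra E U] [IsScalarTower k F E]
  [IsScalarTower k E U] [IsScalarTower F E U] {N M r m' ν e R' : ℕ}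
  {𝔡 : Dat k F N M r m' ν e R'} {D : Derivation k U U} {Y : 𝔡.A.Co U} {u : Fin M → U}
  {c : Fin M} {z0 : Fin ν → E} {ez : Fin ν → Fin m' → E} {n : ℕ}
  (S : Sys 𝔡 E D Y u c z0 ez n) (c' : Fin N) (B : Subalgebra E U)
  (hB : RZ E (nz 𝔡.A Y c') ≤ B) (huB : ∀ a, u a ∈ B)
  {κ : Type} [Field κ] [CharZero κ] [Algebra k κ] [Algebra F κ] [Algebra E κ]
  [IsScalarTower F E κ] [IsScalarTower k E κ] (φ : B →ₐ[E] κ)

/-- the homomorphism on the coordinate ring of the abelian variety -/
noncomputable def phiR : RZ E (nz 𝔡.A Y c') →ₐ[E] κ := φ.comp (Subalgebra.inclusion hB)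

theorem phiR_zR (t : Fin N) : phiR c' B hB φ (zR E (nz 𝔡.A Y c') t) = qz c' B hB φ t := rfl

theorem phiR_k (P : MvPolynomial (Fin N) k) : phiR c' B hB φ (aeval (zR E (nz 𝔡.A Y c')) P) =
    aeval (qz c' B hB φ) P := by
  have h := comp_aeval_apply (f := zR E (nz 𝔡.A Y c')) ((phiR c' B hB φ).restrictScalars k) P
  exact h

theorem phiR_F (P : MvPolynomial (Fin N) F) : phiR c' B hB φ (aeval (zR E (nz 𝔡.A Y c')) P) =
    aeval (qz c' B hB φ) P := by
  have h := comp_aeval_apply (f := zR E (nz 𝔡.A Y c')) ((phiR c' B hB φ).restrictScalars F) P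
  exact h

/-- **Derivatives of functions on the residue field.** -/
theorem phiR_DR (hc' : Y.1 c' ≠ 0) (D1 : Derivation k κ κ)
    (h1 : ∀ f, D1 (algebraMap F κ f) = algebraMap E κ (S.eF f))
    (h2 : ∀ j, wv 𝔡.A c' (qz c' B hB φ) D1 j = algebraMap E κ (S.eW j))
    (P : MvPolynomial (Fin N) F) :
    phiR c' B hB φ ((S.g.sit hc').DR (aeval (zR E (nz 𝔡.A Y c')) P)) =
      D1 (aeval (qz c' B hB φ) P) := by
  obtain ⟨hq, hqc⟩ := coord_k (k := k) (F := F) c' B hB φ hc'
  have h3 : ∀ t, D1 (qz c' B hB φ t) = phiR c' B hB φ ((S.g.sit hc').DR (zR E (nz 𝔡.A Y c') t)) := by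
    intro t
    have h4 := 𝔡.A.frame hq (𝔡.A.D_tangent D1 hq) hqc (by
      change D1 (qz c' B hB φ c') = 0
      rw [hqc, D1.map_one_eq_zero]) t
    have h5 : (S.g.sit hc').DR (zR E (nz 𝔡.A Y c') t) =
        ∑ i, aeval (zR E (nz 𝔡.A Y c')) (𝔡.A.xi c' i t) * algebraMap E _ (S.eW i) := by
      apply Subtype.ext
      have h6 := D_nz Y hc' D t
      refine Eq.trans (b := D (nz 𝔡.A Y c' t)) rfl ?_
      rw [h6]
      push_cast
      refine Finset.sum_congr rfl fun i _ => ?_
      rw [coe_aeval_zR, ← S.eW_spec]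
    rw [h5, map_sum]
    refine h4.trans ?_
    refine Finset.sum_congr rfl fun i _ => ?_
    rw [map_mul, phiR_k, AlgHom.commutes, ← h2 i]
    rfl
  have h4 := chain_cd (isD_left D1 (RingHom.id κ)) (qz c' B hB φ) P
  have h5 := chain_cd (F := F) (isD_right (S.g.sit hc').DR
    ((phiR c' B hB φ : RZ E (nz 𝔡.A Y c') →ₐ[E] κ) : RZ E (nz 𝔡.A Y c') →+* κ))
    (zR E (nz 𝔡.A Y c')) P
  refine h5.trans (Eq.trans ?_ h4.symm)
  congr 1
  · refine Finset.sum_congr rfl fun t _ => ?_
    change _ = _ * D1 (qz c' B hB φ t)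
    rw [h3 t]
    congr 1
    exact phiR_F c' B hB φ _
  · congr 1
    funext f
    change _ = D1 (algebraMap F κ f)
    rw [h1]
    have h6 : (S.g.sit hc').DR (algebraMap F (RZ E (nz 𝔡.A Y c')) f) =
        algebraMap E _ (S.eF f) := Subtype.ext (S.eF_spec f)
    change phiR c' B hB φ ((S.g.sit hc').DR (algebraMap F (RZ E (nz 𝔡.A Y c')) f)) = _
    rw [h6, AlgHom.commutes]

end Pool.Agent.H58.AC
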