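import Pool.Agent.H58.AC.Ra4

/-!
# The residue fields of a generically finite cover of an abelian variety: linear algebra
-/

set_option autoImplicit false
set_option linter.unusedSectionVars false

namespace Pool.Agent.H58.AC

open Pool.Agent.K1H80.EC (IsD isD_left isD_right exists_ext exists_der_ext)
open Pool.Agent.K1H80.AV Pool.Agent.K1H80
open MvPolynomial Module

variable {k F E U : Type} [Field k] [CharZero k] [Field F] [Field E] [Field U] [Algebra k F]
  [Algebra k E] [Algebra k U] [Algebra F E] [Algebra F U] [Algebra E U] [IsScalarTower k F E]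
  [IsScalarTower k E U] [IsScalarTower F E U] {N M r m' ν e R' : ℕ}
  {𝔡 : Dat k F N M r m' ν e R'} {D : Derivation k U U} {Y : 𝔡.A.Co U} {u : Fin M → U}
  {c : Fin M} {z0 : Fin ν → E} {ez : Fin ν → Fin m' → E} {n : ℕ}
  (S : Sys 𝔡 E D Y u c z0 ez n) (c' : Fin N) (B : Subalgebra E U)
  (hB : RZ E (nz 𝔡.A Y c') ≤ B) (huB : ∀ a, u a ∈ B)
  {κ : Type} [Field κ] [CharZero κ] [Algebra k κ] [Algebra F κ] [Algebra E κ]
  [IsScalarTower F E κ] [IsScalarTower k E κ] (φ : B →ₐ[E] κ)

/-- the residue field has large transcendence degree -/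
def Big (c' : Fin N) (B : Subalgebra E U) (hB : RZ E (nz 𝔡.A Y c') ≤ B) (φ : B →ₐ[E] κ) : Prop :=
  ∃ (m : ℕ) (s0 : Fin m → RZ E (nz 𝔡.A Y c')),
    (∀ r : RZ E (nz 𝔡.A Y c'), IsIntegral (Algebra.adjoin E (Set.range s0)) r) ∧
    ∃ (T : Type) (_ : Fintype T) (s : T → RZ E (nz 𝔡.A Y c')), m ≤ Fintype.card T + 1 ∧
      AlgebraicIndependent E (fun a => phiR c' B hB φ (s a))

include S in
/-- injectivity on the tangent vectors of derivations -/
theorem inj_of_basis (hc' : Y.1 c' ≠ 0) {ι : Type} [Fintype ι] [DecidableEq ι]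
    (f : ι → Fin 𝔡.A.dim) (δ : ι → Derivation F κ κ)
    (h : ∀ i j, wv 𝔡.A c' (qz c' B hB φ) (δ i) (f j) = if j = i then 1 else 0)
    (hcard : finrank κ (Vm B huB φ 𝔡 z0) ≤ Fintype.card ι) (I : Fin r → Fin e) {l : Fin R'}
    (hl : aeval (Sum.elim (qu B huB φ) fun t => algebraMap E κ (z0 t)) (𝔡.p l c') ≠ 0)
    {v : Col M m' → κ} (hv : v ∈ Vm B huB φ 𝔡 z0)
    (hK : (matK c' B hB huB φ c z0 ez I l).mulVec v = 0) : v = 0 := by
  obtain ⟨h1, h2⟩ := card_le_Vm S c' B hB huB φ hc' f δ h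
  let w : ι → Vm B huB φ 𝔡 z0 := fun i => ⟨cv B huB φ 𝔡.b0 z0 (δ i), ⟨δ i, rfl⟩⟩
  have hli : LinearIndependent κ w := by
    rw [Fintype.linearIndependent_iff]
    intro β hβ i
    have h1 := h2 β (fun x => by
      have h2 := congrFun (congrArg Subtype.val hβ) x
      rw [Submodule.coe_sum, Finset.sum_apply] at h2
      exact h2)
    exact congrFun h1 i
  have htop := hli.span_eq_top_of_card_eq_finrank' (le_antisymm h1 hcard)
  have hmem : (⟨v, hv⟩ : Vm B huB φ 𝔡 z0) ∈ Submodule.span κ (Set.range w) := by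
    rw [htop]; trivial
  rw [Submodule.mem_span_range_iff_exists_fun] at hmem
  obtain ⟨β, hβ⟩ := hmem
  have hv2 : v = ∑ i, β i • cv B huB φ 𝔡.b0 z0 (δ i) := by
    have h3 := congrArg Subtype.val hβ
    rw [Submodule.coe_sum] at h3
    exact h3.symm
  have hβ0 : β = 0 := by
    funext j
    have h4 : ((matK c' B hB huB φ c z0 ez I l).mulVec (∑ i, β i • cv B huB φ 𝔡.b0 z0 (δ i)))
        (𝔡.eq (Sum.inr (Sum.inl (f j)))) = 0 := by
      rw [← hv2, hK]; rfl
    rw [Matrix.mulVec_sum, Finset.sum_apply, Finset.sum_eq_single j] at h4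
    · rw [Matrix.mulVec_smul, Pi.smul_apply, mul_cv S c' B hB huB φ hc' I l, h, if_pos rfl,
        mul_one, smul_eq_mul] at h4
      exact (mul_eq_zero.1 h4).resolve_right hl
    · intro i _ hi
      rw [Matrix.mulVec_smul, Pi.smul_apply, mul_cv S c' B hB huB φ hc' I l, h,
        if_neg (Ne.symm hi), mul_zero, smul_zero]
    · intro h; exact absurd (Finset.mem_univ j) h
  rw [hv2, hβ0]
  simp

include S in
/-- **Large transcendence degree.** -/
theorem big_basis (hc' : Y.1 c' ≠ 0) (hbig : Big c' B hB φ) : ∃ (ι : Type) (_ : Fintype ι)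
    (_ : DecidableEq ι) (f : ι → Fin 𝔡.A.dim) (δ : ι → Derivation F κ κ),
    (∀ i j, wv 𝔡.A c' (qz c' B hB φ) (δ i) (f j) = if j = i then 1 else 0) ∧
      𝔡.A.dim ≤ Fintype.card ι + 1 := by
  classical
  obtain ⟨m, s0, hint0, T, iT, s, hm, hind⟩ := hbig
  let iA : Algebra (RZ E (nz 𝔡.A Y c')) κ := (phiR c' B hB φ).toRingHom.toAlgebra
  have iS : IsScalarTower E (RZ E (nz 𝔡.A Y c')) κ :=
    IsScalarTower.of_algebraMap_eq fun e => ((phiR c' B hB φ).commutes e).symm
  obtain ⟨I0, h1, h2⟩ := S.g.final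
  obtain ⟨h3, -⟩ := h2 c' hc' κ T s ((h1 c' hc' m s0 hint0).trans hm) hind
  rcases Nat.eq_zero_or_pos 𝔡.A.dim with h0 | h0
  · refine ⟨Empty, inferInstance, inferInstance, fun i => i.elim, fun i => i.elim,
      fun i => i.elim, ?_⟩
    rw [h0]
    exact Nat.zero_le _
  · obtain ⟨i0, h6⟩ := h3 h0
    choose δ hδ using fun i : {i : Fin 𝔡.A.dim // i ≠ i0} => h6 i i.2
    refine ⟨{i : Fin 𝔡.A.dim // i ≠ i0}, inferInstance, inferInstance, fun i => i, δ,
      fun i j => ?_, ?_⟩
    · have h7 := hδ i j j.2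
      have h8 : (if j = i then (1 : κ) else 0) = if (j : Fin 𝔡.A.dim) = i then 1 else 0 := by
        by_cases h : j = i
        · rw [if_pos h, if_pos (congrArg _ h)]
        · rw [if_neg h, if_neg (fun h' => h (Subtype.ext h'))]
      rw [h8, ← h7]
      unfold wv
      refine Finset.sum_congr rfl fun t _ => ?_
      rw [← phiR_k]
      rfl
    · exact (card_ne i0).ge

include S in
/-- the generic case -/
theorem gen_basis (hc' : Y.1 c' ≠ 0) (h : 𝔡.A.dim ≤ finrank κ (Vm B huB φ 𝔡 z0)) :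
    ∃ (δ : Fin 𝔡.A.dim → Derivation F κ κ),
    (∀ i j, wv 𝔡.A c' (qz c' B hB φ) (δ i) j = if j = i then 1 else 0) := by
  classical
  have hcU : CharZero U := charZero_of_injective_algebraMap (algebraMap k U).injective
  obtain ⟨h1, h2⟩ := coord_k (k := k) (F := F) c' B hB φ hc'
  have key : ∀ P : MvPolynomial (Fin N) F, aeval (qz c' B hB φ) P = 0 → ∀ i,
      ∑ t, aeval (qz c' B hB φ) (pderiv t P) * aeval (qz c' B hB φ) (𝔡.A.xi c' i t) = 0 := by
    intro P hP i
    -- the relation holds in the ring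
    have hb : S.Alg ((Subalgebra.inclusion hB (aeval (zR E (nz 𝔡.A Y c')) P) : B) : U) := by
      change S.Alg ((aeval (zR E (nz 𝔡.A Y c')) P : RZ E (nz 𝔡.A Y c')) : U)
      rw [coe_aeval_zRF]
      exact alg_aeval _ (fun t => isAlgebraic_algebraMap
        (algebraMap F (Algebra.adjoin F (Set.range S.s)) t)) (fun t => S.alg_nz c' t) P
    have h3 := gen S B huB φ h hb (by
      have := phiR_F c' B hB φ P
      rw [hP] at this
      exact this)
    have h4 : aeval (zR E (nz 𝔡.A Y c')) P = 0 := by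
      apply Subtype.ext
      exact congrArg (fun b : B => (b : U)) h3
    obtain ⟨D', hD'1, hD'2⟩ := S.g.geo.gen (Pi.single i 1)
    have h5 : aeval (nz 𝔡.A Y c') P = 0 := by
      rw [← coe_aeval_zRF (E := E), h4]
      rfl
    have h6 := chain_mv (k := F) (isD_left D' (RingHom.id U)) hD'1 (nz 𝔡.A Y c') P
    have h7 : ∑ t, aeval (zR E (nz 𝔡.A Y c')) (pderiv t P) *
        aeval (zR E (nz 𝔡.A Y c')) (𝔡.A.xi c' i t) = 0 := by
      apply Subtype.ext
      refine Eq.trans ?_ (h6.symm.trans (by rw [h5]; exact map_zero D'))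
      push_cast
      refine Finset.sum_congr rfl fun t _ => ?_
      rw [coe_aeval_zRF, coe_aeval_zR]
      change _ = _ * D' (nz 𝔡.A Y c' t)
      rw [D_nz Y hc' D' t, hD'2, Finset.sum_eq_single i]
      · rw [Pi.single_eq_same, mul_one]
        rfl
      · intro j _ hj
        rw [Pi.single_eq_of_ne hj, mul_zero]
      · intro h; exact absurd (Finset.mem_univ i) h
    have h8 := congrArg (phiR c' B hB φ) h7
    rw [map_sum, map_zero] at h8
    rw [← h8]
    refine Finset.sum_congr rfl fun t _ => ?_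
    rw [map_mul, phiR_F, phiR_k]
  choose δ hδ using fun i : Fin 𝔡.A.dim => exists_der_of_rel (F := F) (qz c' B hB φ)
    (fun t => aeval (qz c' B hB φ) (𝔡.A.xi c' i t)) (fun P hP => key P hP i)
  refine ⟨δ, fun i j => ?_⟩
  unfold wv
  simp only [hδ]
  exact dual_xi 𝔡.A h1 h2 i j

/-- the right hand side in the rows of the equations does not depend on the logarithmic
derivative -/
theorem vec_H (I : Fin r → Fin e) (l : Fin R') (e' : F → κ) (ww ww' : Fin 𝔡.A.dim → κ)
    {x : Col M m'} (hx : ∀ j, 𝔡.eq.symm x ≠ Sum.inr (Sum.inl j)) :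
    vecK c' B hB huB φ z0 I l e' ww x = vecK c' B hB huB φ z0 I l e' ww' x := by
  unfold vecK Dat.vec
  rcases hxx : 𝔡.eq.symm x with i | j | i
  · rfl
  · exact absurd hxx (hx j)
  · rfl

end Pool.Agent.H58.AC
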