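import Pool.Agent.H58.AC.Ra5

/-!
# The residue fields of a generically finite cover of an abelian variety: the two families
-/

set_option autoImplicit false
set_option linter.unusedSectionVars false

namespace Pool.Agent.H58.AC

open Pool.Agent.K1H80.EC (IsD isD_left isD_right exists_ext exists_der_ext)
open Pool.Agent.K1H80.AV Pool.Agent.K1H80
open MvPolynomial Module

variable {k F E U : Type} [Field k] [CharZero k] [Field F] [Field E] [Field U] [Algebra k F]
  [Algebra k E] [Algebra k U] [Algebra F E] [Algebra F U] [Algebra E U] [IsScalarTower k F E]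
  [IsScalarTower k E U] [IsScalarTower F E U] {N M r m' ν e R' : ℕ}
  {𝔡 : Dat k F N M r m' ν e R'} {D : Derivation k U U} {Y : 𝔡.A.Co U} {u : Fin M → U}
  {c : Fin M} {z0 : Fin ν → E} {ez : Fin ν → Fin m' → E} {n : ℕ}
  (S : Sys 𝔡 E D Y u c z0 ez n) (c' : Fin N) (B : Subalgebra E U)
  (hB : RZ E (nz 𝔡.A Y c') ≤ B) (huB : ∀ a, u a ∈ B)
  {κ : Type} [Field κ] [CharZero κ] [Algebra k κ] [Algebra F κ] [Algebra E κ]
  [IsScalarTower F E κ] [IsScalarTower k E κ] (φ : B →ₐ[E] κ)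

/-- the derivation of the small field -/
noncomputable def Sys.dE0 (S : Sys 𝔡 E D Y u c z0 ez n) (x : E) : E := (S.g.hE x).choose

theorem Sys.dE0_spec (S : Sys 𝔡 E D Y u c z0 ez n) (x : E) :
    algebraMap E U (S.dE0 x) = D (algebraMap E U x) := (S.g.hE x).choose_spec.symm

/-- the derivation of the small field -/
noncomputable def Sys.dE (S : Sys 𝔡 E D Y u c z0 ez n) : Derivation k E E :=
  Derivation.mk'
    { toFun := S.dE0
      map_add' := fun x y => (algebraMap E U).injective (by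
        rw [map_add, S.dE0_spec, S.dE0_spec, S.dE0_spec, map_add, map_add])
      map_smul' := fun a x => (algebraMap E U).injective (by
        rw [RingHom.id_apply, Algebra.smul_def, Algebra.smul_def, map_mul, S.dE0_spec,
          S.dE0_spec, map_mul, ← IsScalarTower.algebraMap_apply k E U, D.leibniz,
          D.map_algebraMap, smul_zero, add_zero, smul_eq_mul]) }
    (fun x y => (algebraMap E U).injective (by
      change algebraMap E U (S.dE0 (x * y)) =
        algebraMap E U (x * S.dE0 y + y * S.dE0 x)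
      rw [S.dE0_spec, map_mul, D.leibniz, map_add, map_mul, map_mul, S.dE0_spec, S.dE0_spec,
        smul_eq_mul, smul_eq_mul]))

theorem Sys.dE_spec (S : Sys 𝔡 E D Y u c z0 ez n) (x : E) :
    algebraMap E U (S.dE x) = D (algebraMap E U x) := S.dE0_spec x

/-- a derivation of the residue field which extends the derivation of the small field -/
theorem Sys.exists_D2 (S : Sys 𝔡 E D Y u c z0 ez n) (κ : Type) [Field κ] [CharZero κ] [Algebra k κ]
    [Algebra F κ] [Algebra E κ] [IsScalarTower F E κ] [IsScalarTower k E κ] :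
    ∃ D2 : Derivation k κ κ, (∀ f, D2 (algebraMap F κ f) = algebraMap E κ (S.eF f)) ∧
      ∀ t, D2 (algebraMap E κ (z0 t)) = 0 := by
  obtain ⟨D2, hD2⟩ := exists_ext (k := k) (R := E) (K := κ) (algebraMap E κ).injective
    ((Algebra.linearMap E κ).compDer S.dE)
  have hD2' : ∀ x : E, D2 (algebraMap E κ x) = algebraMap E κ (S.dE x) := hD2
  refine ⟨D2, fun f => ?_, fun t => ?_⟩
  · rw [IsScalarTower.algebraMap_apply F E κ, hD2']
    rfl
  · rw [hD2']
    have h1 : S.dE (z0 t) = 0 := by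
      apply (algebraMap E U).injective
      rw [S.dE_spec, S.Dz0, map_zero]
    rw [h1, map_zero]

include S in
/-- **There is no solution over the residue field.** -/
theorem concl (hc' : Y.1 c' ≠ 0) (hbig : Big c' B hB φ)
    (hV : finrank κ (Vm B huB φ 𝔡 z0) < 𝔡.A.dim) (I : Fin r → Fin e) {l : Fin R'}
    (hl : aeval (Sum.elim (qu B huB φ) fun t => algebraMap E κ (z0 t)) (𝔡.p l c') ≠ 0)
    (D2 : Derivation k κ κ) (h1 : ∀ f, D2 (algebraMap F κ f) = algebraMap E κ (S.eF f))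
    (h2 : ∀ t, D2 (algebraMap E κ (z0 t)) = 0) {v : Col M m' → κ} (hv : v ∈ Vm B huB φ 𝔡 z0)
    (hK : (matK c' B hB huB φ c z0 ez I l).mulVec (cv B huB φ 𝔡.b0 z0 D2 + v) =
      vecK c' B hB huB φ z0 I l (fun f => algebraMap E κ (S.eF f))
        (fun j => algebraMap E κ (S.eW j))) : False := by
  obtain ⟨δ, rfl⟩ := hv
  have hkF : IsScalarTower k F κ := IsScalarTower.of_algebraMap_eq fun t => by
    rw [IsScalarTower.algebraMap_apply k E κ, IsScalarTower.algebraMap_apply k F E,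
      ← IsScalarTower.algebraMap_apply F E κ]
  let D1 : Derivation k κ κ := D2 + δ.restrictScalars k
  have hD1 : ∀ x, D1 x = D2 x + δ x := fun x => rfl
  have h3 : ∀ f, D1 (algebraMap F κ f) = algebraMap E κ (S.eF f) := fun f => by
    rw [hD1, h1, δ.map_algebraMap, add_zero]
  have h4 : cv B huB φ 𝔡.b0 z0 D1 = cv B huB φ 𝔡.b0 z0 D2 + cv B huB φ 𝔡.b0 z0 δ := by
    funext x
    rcases x with a | s <;> rfl
  have h5 := eqs_k S c' B hB huB φ hc' I l D1 (fun t => by
    simp only [hD1, h2, zero_add]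
    exact S.hez κ δ t)
  rw [h4, hK] at h5
  have h6 : (fun f => D1 (algebraMap F κ f)) = fun f => algebraMap E κ (S.eF f) := funext h3
  rw [h6] at h5
  have h7 := vec_inj c' B hB huB φ I l hl h5
  obtain ⟨Φ, hΦ, i, hi⟩ := exists_Phi S c' B hB huB φ hc' hV
  obtain ⟨m, s0, hint0, T, iT, s, hm, hind⟩ := hbig
  let iA : Algebra (RZ E (nz 𝔡.A Y c')) κ := (phiR c' B hB φ).toRingHom.toAlgebra
  have iS : IsScalarTower E (RZ E (nz 𝔡.A Y c')) κ :=
    IsScalarTower.of_algebraMap_eq fun e => ((phiR c' B hB φ).commutes e).symm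
  refine cpR (κ := κ) S.g hc' s0 hint0 s hm hind Φ ?_ ?_ i ?_
  · exact (phiR_F c' B hB φ Φ).trans hΦ
  · refine (phiR_DR S c' B hB φ hc' D1 h3 (fun j => (congrFun h7 j).symm) Φ).trans ?_
    rw [hΦ, map_zero]
  · intro h0
    apply hi
    have h8 : phiR c' B hB φ (∑ t, aeval (zR E (nz 𝔡.A Y c')) (pderiv t Φ) *
      aeval (zR E (nz 𝔡.A Y c')) (𝔡.A.xi c' i t)) = 0 := h0
    rw [map_sum] at h8
    rw [← h8]
    refine Finset.sum_congr rfl fun t _ => ?_
    rw [map_mul, phiR_F, phiR_k]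

/-- the situation at a residue field: enough linear algebra -/
structure Lin (S : Sys 𝔡 E D Y u c z0 ez n) (c' : Fin N) (B : Subalgebra E U)
    (hB : RZ E (nz 𝔡.A Y c') ≤ B) (huB : ∀ a, u a ∈ B) {κ : Type} [Field κ] [Algebra k κ]
    [Algebra F κ] [Algebra E κ] (φ : B →ₐ[E] κ) (I : Fin r → Fin e) (l : Fin R') : Prop where
  hl : aeval (Sum.elim (qu B huB φ) fun t => algebraMap E κ (z0 t)) (𝔡.p l c') ≠ 0
  hI : ∀ v : Col M m' → κ, (∀ x ∈ {x | ∀ j, 𝔡.eq.symm x ≠ Sum.inr (Sum.inl j)},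
      ((matK c' B hB huB φ c z0 ez I l).mulVec v) x = 0) → v ∈ Tm B huB φ 𝔡 c
  hinj : ∀ v ∈ Vm B huB φ 𝔡 z0, (matK c' B hB huB φ c z0 ez I l).mulVec v = 0 → v = 0

include S in
theorem exists_lin (hc' : Y.1 c' ≠ 0) (hbig : Big c' B hB φ) :
    (∃ I l, Lin S c' B hB huB φ I l) ∧
      finrank κ (Tm B huB φ 𝔡 c) ≤ finrank κ (Vm B huB φ 𝔡 z0) + 1 := by
  obtain ⟨I, hI⟩ := exists_I S c' B hB huB φ
  obtain ⟨l, hl⟩ := exists_l S c' B hB huB φ hc'
  obtain ⟨ι, i1, i2, f, δ, hδ, hcard⟩ := big_basis S c' B hB φ hc' hbig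
  have h1 := (card_le_Vm S c' B hB huB φ hc' f δ hδ).1
  have h2 := finrank_Tm S B huB φ
  refine ⟨⟨I, l, hl, hI l, fun v hv hK => ?_⟩, by omega⟩
  by_cases h3 : finrank κ (Vm B huB φ 𝔡 z0) ≤ Fintype.card ι
  · exact inj_of_basis S c' B hB huB φ hc' f δ hδ h3 I hl hv hK
  · obtain ⟨δ', hδ'⟩ := gen_basis S c' B hB huB φ hc' (by omega)
    have h4 : finrank κ (Vm B huB φ 𝔡 z0) ≤ 𝔡.A.dim :=
      (Submodule.finrank_mono (Vm_le S B huB φ)).trans h2
    exact inj_of_basis S c' B hB huB φ hc' id δ' hδ' (by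
      rw [Fintype.card_fin]; exact h4) I hl hv hK

include S in
/-- the determinant in the generic case -/
theorem det_gen {I : Fin r → Fin e} {l : Fin R'} (hL : Lin S c' B hB huB φ I l)
    (h : 𝔡.A.dim ≤ finrank κ (Vm B huB φ 𝔡 z0)) :
    (matK c' B hB huB φ c z0 ez I l).det ≠ 0 := by
  intro h0
  obtain ⟨v, hv0, hv⟩ := Matrix.exists_mulVec_eq_zero_iff.2 h0
  have h1 := hL.hI v (fun x _ => by rw [hv]; rfl)
  have h2 : Vm B huB φ 𝔡 z0 = Tm B huB φ 𝔡 c :=
    Submodule.eq_of_le_of_finrank_le (Vm_le S B huB φ) ((finrank_Tm S B huB φ).trans h)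
  rw [← h2] at h1
  exact hv0 (hL.hinj v h1 hv)

include S in
/-- the singular case -/
theorem sing_case (hc' : Y.1 c' ≠ 0) (hbig : Big c' B hB φ)
    {I : Fin r → Fin e} {l : Fin R'} (hL : Lin S c' B hB huB φ I l)
    (hT : finrank κ (Tm B huB φ 𝔡 c) ≤ finrank κ (Vm B huB φ 𝔡 z0) + 1)
    (hdet : (matK c' B hB huB φ c z0 ez I l).det = 0)
    (hmu : ∀ q, ((matK c' B hB huB φ c z0 ez I l).updateCol q
      (vecK c' B hB huB φ z0 I l (fun f => algebraMap E κ (S.eF f))
        (fun j => algebraMap E κ (S.eW j)))).det = 0) : False := by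
  have hV : finrank κ (Vm B huB φ 𝔡 z0) < 𝔡.A.dim := by
    by_contra h
    exact det_gen S c' B hB huB φ hL (not_lt.1 h) hdet
  obtain ⟨D2, h1, h2⟩ := S.exists_D2 κ
  obtain ⟨v, hv, hK⟩ := lin_sing (Vm_le S B huB φ) hT
    {x | ∀ j, 𝔡.eq.symm x ≠ Sum.inr (Sum.inl j)} hL.hI hL.hinj
    (b := vecK c' B hB huB φ z0 I l (fun f => algebraMap E κ (S.eF f))
        (fun j => algebraMap E κ (S.eW j))) (c0 := cv B huB φ 𝔡.b0 z0 D2) (fun x hx => by
      have h3 := congrFun (eqs_k S c' B hB huB φ hc' I l D2 (fun t => by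
        simp only [h2, mul_zero, Finset.sum_const_zero])) x
      rw [h3]
      have h4 : (fun f => D2 (algebraMap F κ f)) = fun f => algebraMap E κ (S.eF f) := funext h1
      rw [h4]
      exact vec_H c' B hB huB φ I l _ _ _ hx) hdet hmu
  exact concl S c' B hB huB φ hc' hbig hV I hL.hl D2 h1 h2 hv hK

include S in
/-- **The first family**: the determinants and the numerators of the solution have no common zero
in codimension one. -/
theorem ra1 (hc' : Y.1 c' ≠ 0) (hbig : Big c' B hB φ)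
    (h1 : ∀ I l, φ (matB c z0 ez c' B hB huB I l).det = 0)
    (h2 : ∀ I l q, φ (muB S c' B hB huB I l q) = 0) : False := by
  obtain ⟨⟨I, l, hL⟩, hT⟩ := exists_lin S c' B hB huB φ hc' hbig
  refine sing_case S c' B hB huB φ hc' hbig hL hT ?_ fun q => ?_
  · rw [← map_det']
    exact h1 I l
  · rw [← map_mu]
    exact h2 I l q

end Pool.Agent.H58.AC
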