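import Pool.Agent.H58.AC.Ra6

/-!
# The residue fields of a generically finite cover of an abelian variety: divisors
-/

set_option autoImplicit false
set_option linter.unusedSectionVars false

namespace Pool.Agent.H58.AC

open Pool.Agent.K1H80.EC (IsD isD_left isD_right exists_ext exists_der_ext)
open Pool.Agent.K1H80.AV Pool.Agent.K1H80
open MvPolynomial Module

/-- The subscheme with the equations `G j = 0` of the variety with the equations `eqn i = 0`, of
dimension `n`, is reduced in codimension one. -/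
def Red1 {F : Type} [Field F] {M e w : ℕ} (eqn : Fin e → MvPolynomial (Fin M) F) (n : ℕ)
    (G : Fin w → MvPolynomial (Fin M) F) : Prop :=
  ∀ (K : Type) [Field K] [Algebra F K] (q : Fin M → K), (∀ i, aeval q (eqn i) = 0) →
    (∀ j, aeval q (G j) = 0) →
    (∀ j, ∀ v ∈ tangent eqn q, ∑ a, aeval q (pderiv a (G j)) * v a = 0) →
    ∀ b, q b ≠ 0 → ∀ a : Fin (n - 1) → Fin M, ¬ AlgebraicIndependent F fun i => q (a i) / q b

variable {k F E U : Type} [Field k] [CharZero k] [Field F] [Field E] [Field U] [Algebra k F]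
  [Algebra k E] [Algebra k U] [Algebra F E] [Algebra F U] [Algebra E U] [IsScalarTower k F E]
  [IsScalarTower k E U] [IsScalarTower F E U] {N M r m' ν e R' : ℕ}
  {𝔡 : Dat k F N M r m' ν e R'} {D : Derivation k U U} {Y : 𝔡.A.Co U} {u : Fin M → U}
  {c : Fin M} {z0 : Fin ν → E} {ez : Fin ν → Fin m' → E} {n : ℕ}
  (S : Sys 𝔡 E D Y u c z0 ez n) (c' : Fin N) (B : Subalgebra E U)
  (hB : RZ E (nz 𝔡.A Y c') ≤ B) (huB : ∀ a, u a ∈ B)
  {κ : Type} [Field κ] [CharZero κ] [Algebra k κ] [Algebra F κ] [Algebra E κ]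
  [IsScalarTower F E κ] [IsScalarTower k E κ] (φ : B →ₐ[E] κ)

include S in
/-- independent coordinates -/
theorem exists_coords (hV : 𝔡.A.dim ≤ finrank κ (Vm B huB φ 𝔡 z0) + 1) :
    ∃ a : Fin (n - 1) → Fin M, AlgebraicIndependent F (fun i => qu B huB φ (a i)) := by
  let P : Vm B huB φ 𝔡 z0 →ₗ[κ] (Fin M → κ) :=
    { toFun := fun v a => v.1 (Sum.inl a)
      map_add' := fun v w => rfl
      map_smul' := fun a v => rfl }
  let Q : LinearMap.ker P →ₗ[κ] (Fin m' → κ) :=
    { toFun := fun v s => v.1.1 (Sum.inr s)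
      map_add' := fun v w => rfl
      map_smul' := fun a v => rfl }
  have hQ : Function.Injective Q := by
    intro v w h
    apply Subtype.ext
    apply Subtype.ext
    funext x
    rcases x with a | s
    · have h1 : P v.1 = P w.1 := by
        rw [LinearMap.mem_ker.1 v.2, LinearMap.mem_ker.1 w.2]
      exact congrFun h1 a
    · exact congrFun h s
  have h1 := LinearMap.finrank_le_finrank_of_injective hQ
  rw [finrank_fin_fun] at h1
  have h2 := LinearMap.finrank_range_add_finrank_ker P
  have h3 := S.hn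
  let bs := Module.finBasis κ (LinearMap.range P)
  have hbs : ∀ i, ∃ δ : Derivation F κ κ, ∀ a, (bs i).1 a = δ (qu B huB φ a) := by
    intro i
    obtain ⟨⟨v, δ, hv⟩, h⟩ := (bs i).2
    refine ⟨δ, fun a => ?_⟩
    rw [← h]
    change v (Sum.inl a) = _
    rw [hv]
    rfl
  choose δ hδ using hbs
  refine exists_indep (F := F) (κ := κ) (σ := Fin M) (qu B huB φ) δ (fun β hβ => ?_) (by
      rw [Fintype.card_fin]; omega)
  have h4 := bs.linearIndependent
  rw [Fintype.linearIndependent_iff] at h4
  funext i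
  refine h4 β ?_ i
  apply Subtype.ext
  rw [Submodule.coe_sum]
  funext a
  rw [Finset.sum_apply]
  refine Eq.trans ?_ (hβ a)
  refine Finset.sum_congr rfl fun i _ => ?_
  have h5 : ((β i • bs i : LinearMap.range P) : Fin M → κ) a = β i * (bs i : Fin M → κ) a := rfl
  rw [h5, hδ i]

/-- the differential of a form -/
noncomputable def dG (G : MvPolynomial (Fin M) F) : (Col M m' → κ) →ₗ[κ] κ where
  toFun := fun v => ∑ a, aeval (qu B huB φ) (pderiv a G) * v (Sum.inl a)
  map_add' := fun v w => by
    rw [← Finset.sum_add_distrib]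
    exact Finset.sum_congr rfl fun a _ => by rw [Pi.add_apply, mul_add]
  map_smul' := fun b v => by
    rw [RingHom.id_apply, smul_eq_mul, Finset.mul_sum]
    exact Finset.sum_congr rfl fun a _ => by rw [Pi.smul_apply, smul_eq_mul]; ring

/-- the equations of the divisor -/
noncomputable def gB (G : MvPolynomial (Fin M) F) : B := aeval (uB B huB) G

/-- the derivatives of the equations of the divisor, multiplied by the determinant -/
noncomputable def dgB (I : Fin r → Fin e) (l : Fin R') (G : MvPolynomial (Fin M) F) : B :=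
  ∑ a, aeval (uB B huB) (pderiv a G) * muB S c' B hB huB I l (Sum.inl a) +
    (matB c z0 ez c' B hB huB I l).det * cd (fun f => algebraMap E B (S.eF f)) (uB B huB) G

theorem map_gB (G : MvPolynomial (Fin M) F) : φ (gB B huB G) = aeval (qu B huB φ) G :=
  comp_aeval_apply (f := uB B huB) (φ.restrictScalars F) G

theorem map_dgB (I : Fin r → Fin e) (l : Fin R') (G : MvPolynomial (Fin M) F) :
    φ (dgB S c' B hB huB I l G) = dG (m' := m') B huB φ G (fun q => φ (muB S c' B hB huB I l q)) +
      (matK c' B hB huB φ c z0 ez I l).det * cd (fun f => algebraMap E κ (S.eF f))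
        (qu B huB φ) G := by
  have h1 : φ (cd (fun f => algebraMap E B (S.eF f)) (uB B huB) G) =
      cd (fun f => algebraMap E κ (S.eF f)) (qu B huB φ) G := by
    have h2 := map_cd (φ : B →+* κ) (fun f => algebraMap E B (S.eF f)) (uB B huB) G
    refine h2.trans ?_
    congr 1
    funext f
    exact φ.commutes _
  unfold dgB
  rw [map_add, map_mul, map_det', h1, map_sum]
  congr 1
  refine Finset.sum_congr rfl fun a _ => ?_
  rw [map_mul]
  congr 1
  exact (comp_phi (k := k) (F := F) B φ).aevalF (uB B huB) _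

include S in
/-- **The second family**: no common zero in codimension one. -/
theorem ra2 (hc' : Y.1 c' ≠ 0) (hbig : Big c' B hB φ) {w : ℕ} {G : Fin w → MvPolynomial (Fin M) F}
    {d : Fin w → ℕ} (hGd : ∀ j, (G j).IsHomogeneous (d j)) (hred : Red1 𝔡.eqn n G)
    (hne : ∃ j, aeval u (G j) ≠ 0)
    (h1 : ∀ I l j, φ ((matB c z0 ez c' B hB huB I l).det * gB B huB (G j)) = 0)
    (h2 : ∀ I l j, φ (dgB S c' B hB huB I l (G j)) = 0)
    (h3 : ∀ I l q j, φ (muB S c' B hB huB I l q * gB B huB (G j)) = 0) : False := by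
  obtain ⟨⟨I, l, hL⟩, hT⟩ := exists_lin S c' B hB huB φ hc' hbig
  by_cases hG0 : ∀ j, aeval (qu B huB φ) (G j) = 0
  swap
  · push Not at hG0
    obtain ⟨j, hj⟩ := hG0
    refine sing_case S c' B hB huB φ hc' hbig hL hT ?_ fun q => ?_
    · have h4 := h1 I l j
      rw [map_mul, map_gB, map_det'] at h4
      exact (mul_eq_zero.1 h4).resolve_right hj
    · have h4 := h3 I l q j
      rw [map_mul, map_gB, map_mu] at h4
      exact (mul_eq_zero.1 h4).resolve_right hj
  by_cases hV : 𝔡.A.dim ≤ finrank κ (Vm B huB φ 𝔡 z0)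
  · obtain ⟨j, hj⟩ := hne
    apply hj
    have hval : ((gB B huB (G j) : B) : U) = aeval u (G j) :=
      (comp_val (k := k) (F := F) B).aevalF (uB B huB) (G j)
    have hcU : CharZero U := charZero_of_injective_algebraMap (algebraMap k U).injective
    have hb : S.Alg ((gB B huB (G j) : B) : U) := by
      rw [hval]
      exact alg_aeval _ (fun t => isAlgebraic_algebraMap
        (algebraMap F (Algebra.adjoin F (Set.range S.s)) t)) (fun t => S.alg_u t) (G j)
    have h4 := gen S B huB φ hV hb (by rw [map_gB]; exact hG0 j)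
    rw [← hval, h4]
    rfl
  have hV' : finrank κ (Vm B huB φ 𝔡 z0) < 𝔡.A.dim := not_le.1 hV
  obtain ⟨ι, i1, i2, f, δ, hδ, hcard⟩ := big_basis S c' B hB φ hc' hbig
  have h5 := (card_le_Vm S c' B hB huB φ hc' f δ hδ).1
  obtain ⟨a, ha⟩ := exists_coords S B huB φ (by omega)
  have hqc : qu B huB φ c = 1 := uc_k S B huB φ
  -- a form with nonzero differential
  obtain ⟨j, t, ht, hlt⟩ : ∃ j, ∃ t ∈ Tm B huB φ 𝔡 c, dG (m' := m') B huB φ (G j) t ≠ 0 := by
    by_contra hcon
    push Not at hcon
    refine hred κ (qu B huB φ) (fun i => eqn_k S B huB φ i) hG0 (fun j v hv => ?_) c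
      (by rw [hqc]; exact one_ne_zero) a (by
        rw [hqc]
        simp only [div_one]
        exact ha)
    obtain ⟨hq, -⟩ := S.hsm κ (qu B huB φ) (fun i => eqn_k S B huB φ i) (uc_k S B huB φ)
    have h6 := hcon j (Sum.elim (v - v c • qu B huB φ) 0) ⟨?_, ?_⟩
    · have h7 : ∑ a, aeval (qu B huB φ) (pderiv a (G j)) * qu B huB φ a = 0 := by
        have h8 := (hGd j).sum_X_mul_pderiv
        have h9 := congrArg (aeval (qu B huB φ)) h8
        rw [map_sum, map_nsmul, hG0 j, smul_zero] at h9
        rw [← h9]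
        refine Finset.sum_congr rfl fun t _ => ?_
        rw [map_mul, aeval_X, mul_comm]
      have h8 : ∀ a, aeval (qu B huB φ) (pderiv a (G j)) * v a =
          aeval (qu B huB φ) (pderiv a (G j)) * (v - v c • qu B huB φ) a +
            v c * (aeval (qu B huB φ) (pderiv a (G j)) * qu B huB φ a) := by
        intro a
        rw [Pi.sub_apply, Pi.smul_apply, smul_eq_mul]
        ring
      rw [Finset.sum_congr rfl fun a _ => h8 a, Finset.sum_add_distrib, ← Finset.mul_sum, h7,
        mul_zero, add_zero]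
      exact h6
    · exact Submodule.sub_mem _ hv (Submodule.smul_mem _ _ hq)
    · change (v - v c • qu B huB φ) c = 0
      rw [Pi.sub_apply, Pi.smul_apply, hqc, smul_eq_mul, mul_one, sub_self]
  have hlV : ∀ v ∈ Vm B huB φ 𝔡 z0, dG (m' := m') B huB φ (G j) v = 0 := by
    rintro _ ⟨δ, rfl⟩
    have h6 := chain_mv (k := F) (isD_left δ (RingHom.id κ)) (fun t => δ.map_algebraMap t)
      (qu B huB φ) (G j)
    have h7 : δ (aeval (qu B huB φ) (G j)) = 0 := by rw [hG0 j, map_zero]
    exact h6.symm.trans h7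
  set b : Col M m' → κ := vecK c' B hB huB φ z0 I l (fun f => algebraMap E κ (S.eF f))
        (fun j => algebraMap E κ (S.eW j)) with hb
  set K := matK c' B hB huB φ c z0 ez I l with hK
  have hmu : (fun q => φ (muB S c' B hB huB I l q)) = fun q => (K.updateCol q b).det := by
    funext q
    exact map_mu S c' B hB huB φ I l q
  have h6 := h2 I l j
  rw [map_dgB, hmu] at h6
  by_cases hdet : K.det = 0
  · refine sing_case S c' B hB huB φ hc' hbig hL hT hdet fun q => ?_
    by_contra hq
    rw [hdet, zero_mul, add_zero] at h6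
    exact hlt (cramer_sing (Vm_le S B huB φ) hT {x | ∀ j, 𝔡.eq.symm x ≠ Sum.inr (Sum.inl j)}
      hL.hI hL.hinj hdet hq (dG (m' := m') B huB φ (G j)) hlV h6 t ht)
  · obtain ⟨D2, g1, g2⟩ := S.exists_D2 κ
    have hw : K.mulVec (K.det⁻¹ • fun q => (K.updateCol q b).det) = b := by
      have h7 : (fun i => (K.updateCol i b).det) = K.cramer b := by
        funext i
        rw [Matrix.cramer_apply]
      rw [h7, Matrix.mulVec_smul, Matrix.mulVec_cramer, smul_smul, inv_mul_cancel₀ hdet, one_smul]
    have hl2 : dG (m' := m') B huB φ (G j)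
        ((K.det⁻¹ • fun q => (K.updateCol q b).det) - cv B huB φ 𝔡.b0 z0 D2) = 0 := by
      rw [map_sub, map_smul, smul_eq_mul]
      have h7 : dG (m' := m') B huB φ (G j) (cv B huB φ 𝔡.b0 z0 D2) =
          -cd (fun f => algebraMap E κ (S.eF f)) (qu B huB φ) (G j) := by
        have h8 := chain_cd (isD_left D2 (RingHom.id κ)) (qu B huB φ) (G j)
        have h9 : D2 (aeval (qu B huB φ) (G j)) = 0 := by rw [hG0 j, map_zero]
        have h10 : (fun a => D2 (algebraMap F κ a)) = fun f => algebraMap E κ (S.eF f) :=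
          funext g1
        have h11 : (0 : κ) = dG (m' := m') B huB φ (G j) (cv B huB φ 𝔡.b0 z0 D2) +
            cd (fun a => D2 (algebraMap F κ a)) (qu B huB φ) (G j) := h9.symm.trans h8
        rw [h10] at h11
        linear_combination -h11
      rw [h7]
      have h8 : dG (m' := m') B huB φ (G j) (fun q => (K.updateCol q b).det) =
          -(K.det * cd (fun f => algebraMap E κ (S.eF f)) (qu B huB φ) (G j)) := by
        linear_combination h6
      rw [h8]
      field_simp
      ring
    obtain ⟨v, hv, hKv⟩ := lin_reg (Vm_le S B huB φ) hT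
      {x | ∀ j, 𝔡.eq.symm x ≠ Sum.inr (Sum.inl j)} hL.hI
      (b := b) (c0 := cv B huB φ 𝔡.b0 z0 D2) (fun x hx => by
        have h3 := congrFun (eqs_k S c' B hB huB φ hc' I l D2 (fun t => by
          simp only [g2, mul_zero, Finset.sum_const_zero])) x
        rw [h3]
        have h4 : (fun f => D2 (algebraMap F κ f)) = fun f => algebraMap E κ (S.eF f) := funext g1
        rw [h4]
        exact vec_H c' B hB huB φ I l _ _ _ hx) hw (dG (m' := m') B huB φ (G j)) hlV hl2
      ⟨t, ht, hlt⟩
    exact concl S c' B hB huB φ hc' hbig hV' I hL.hl D2 g1 g2 hv hKv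

end Pool.Agent.H58.AC
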