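import Pool.Agent.H58.AC.Fam

/-!
# Determinants of derivatives
-/

set_option autoImplicit false
set_option linter.unusedSectionVars false

namespace Pool.Agent.H58.AC

open Pool.Agent.K1H80.EC (IsD isD_left isD_right exists_ext exists_der_ext)
open Pool.Agent.K1H80.AV Pool.Agent.K1H80
open MvPolynomial Module

section la

variable {K : Type} [Field K] {ι α β β' : Type} [Fintype ι] [DecidableEq ι] [Fintype α]
  [DecidableEq α] [Fintype β] [DecidableEq β] [Fintype β'] [DecidableEq β']

/-- the determinant of `[E | v]` -/
noncomputable def dt (e : α ⊕ β ≃ ι) (E : Matrix ι α K) (v : Matrix ι β K) : K :=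
  ((Matrix.fromCols E v).submatrix id e.symm).det

/-- change of the basis -/
theorem dt_basis (e : α ⊕ β ≃ ι) (e' : α ⊕ β' ≃ ι) (v : Matrix ι β K) (v' : Matrix ι β' K)
    (C : Matrix β' β K) (hC : v = v' * C) (hv : ∀ w : β → K, v.mulVec w = 0 → w = 0) :
    ∃ γ : K, γ ≠ 0 ∧ ∀ E : Matrix ι α K, dt e E v = γ * dt e' E v' := by
  classical
  let X : Matrix (α ⊕ β') (α ⊕ β) K := Matrix.fromBlocks 1 0 0 C
  refine ⟨(X.submatrix e'.symm e.symm).det, fun h => ?_, fun E => ?_⟩
  · obtain ⟨w, hw0, hw⟩ := Matrix.exists_mulVec_eq_zero_iff.2 h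
    apply hw0
    have h1 : X.mulVec (w ∘ e) = 0 := by
      rw [Matrix.submatrix_mulVec_equiv] at hw
      funext x
      have h2 := congrFun hw (e' x)
      rw [Function.comp_apply, Equiv.symm_apply_apply] at h2
      exact h2
    have hX : ∀ x, X.mulVec (w ∘ e) x = ∑ a, X x (Sum.inl a) * w (e (Sum.inl a)) +
        ∑ b, X x (Sum.inr b) * w (e (Sum.inr b)) := by
      intro x
      rw [Matrix.mulVec_apply_eq_sum, Fintype.sum_sum_type]
      rfl
    have h2 : (w ∘ e) ∘ Sum.inl = 0 := by
      funext i
      have h3 := congrFun h1 (Sum.inl i)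
      rw [hX] at h3
      simp only [X, Matrix.fromBlocks_apply₁₁, Matrix.fromBlocks_apply₁₂, Matrix.zero_apply,
        zero_mul, Finset.sum_const_zero, add_zero, Matrix.one_apply, ite_mul, one_mul] at h3
      rw [Finset.sum_ite_eq, if_pos (Finset.mem_univ i)] at h3
      exact h3
    have h3 : C.mulVec ((w ∘ e) ∘ Sum.inr) = 0 := by
      funext i
      have h3 := congrFun h1 (Sum.inr i)
      rw [hX] at h3
      simp only [X, Matrix.fromBlocks_apply₂₁, Matrix.fromBlocks_apply₂₂, Matrix.zero_apply,
        zero_mul, Finset.sum_const_zero, zero_add] at h3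
      exact h3
    have h4 : (w ∘ e) ∘ Sum.inr = 0 := by
      apply hv
      rw [hC, ← Matrix.mulVec_mulVec, h3, Matrix.mulVec_zero]
    funext i
    have h5 : w i = (w ∘ e) (e.symm i) := by
      rw [Function.comp_apply, Equiv.apply_symm_apply]
    rw [h5]
    rcases e.symm i with a | b
    · exact congrFun h2 a
    · exact congrFun h4 b
  · unfold dt
    have h1 : Matrix.fromCols E v = Matrix.fromCols E v' * X := by
      rw [hC, Matrix.fromCols_mul_fromBlocks]
      simp
    have h2 : (Matrix.fromCols E v).submatrix id e.symm =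
        (Matrix.fromCols E v').submatrix id e'.symm * X.submatrix e'.symm e.symm := by
      rw [h1, Matrix.submatrix_mul_equiv]
    rw [h2, Matrix.det_mul, mul_comm]

/-- the determinant with additional coordinates -/
theorem dt_block {δ : Type} [Fintype δ] [DecidableEq δ] (e : α ⊕ β ≃ ι) (E : Matrix ι α K)
    (t : Matrix ι β K) :
    dt ((Equiv.sumAssoc α β δ).symm.trans (e.sumCongr (Equiv.refl δ))) (Matrix.fromRows E 0)
      (Matrix.fromBlocks t 0 0 1) = dt e E t := by
  have h1 : (Matrix.fromCols (Matrix.fromRows E (0 : Matrix δ α K))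
      (Matrix.fromBlocks t (0 : Matrix ι δ K) (0 : Matrix δ β K) (1 : Matrix δ δ K))).submatrix id
      ((Equiv.sumAssoc α β δ).symm.trans (e.sumCongr (Equiv.refl δ))).symm =
      Matrix.fromBlocks ((Matrix.fromCols E t).submatrix id e.symm) 0 0 1 := by
    ext x y
    rcases y with y | y
    · have h2 : ((Equiv.sumAssoc α β δ).symm.trans (e.sumCongr (Equiv.refl δ))).symm (Sum.inl y) =
          Equiv.sumAssoc α β δ (Sum.inl (e.symm y)) := rfl
      rw [Matrix.submatrix_apply, h2]
      rcases hy : e.symm y with a | b
      · rcases x with x | x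
        · simp [hy]
        · simp
      · rcases x with x | x
        · simp [hy]
        · simp
    · have h2 : ((Equiv.sumAssoc α β δ).symm.trans (e.sumCongr (Equiv.refl δ))).symm (Sum.inr y) =
          Sum.inr (Sum.inr y) := rfl
      rw [Matrix.submatrix_apply, h2]
      rcases x with x | x <;> simp
  unfold dt
  rw [h1, Matrix.det_fromBlocks_zero₁₂, Matrix.det_one, mul_one]

/-- columns of the identity matrix -/
def Es (s : α → ι) : Matrix ι α K := Matrix.of fun a j => if a = s j then 1 else 0

/-- **Minors** are determinants with columns of the identity matrix. -/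
theorem exists_minor (e : α ⊕ β ≃ ι) (v : Matrix ι β K) (s : β → ι)
    (hs : (Matrix.of fun b b' => v (s b) b').det ≠ 0) :
    ∃ s' : α → ι, dt e (Es s') v = (Matrix.of fun b b' => v (s b) b').det ∨
      dt e (Es s') v = -(Matrix.of fun b b' => v (s b) b').det := by
  classical
  have hinj : Function.Injective s := by
    intro b b' h
    by_contra hne
    apply hs
    refine Matrix.det_zero_of_row_eq hne ?_
    funext x
    rw [Matrix.of_apply, Matrix.of_apply, h]
  have hcard : Fintype.card {x : ι // x ∉ Set.range s} = Fintype.card α := by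
    rw [Fintype.card_subtype_compl]
    have h1 : Fintype.card {x : ι // x ∈ Set.range s} = Fintype.card β :=
      Set.card_range_of_injective hinj
    have h2 := Fintype.card_congr e
    rw [Fintype.card_sum] at h2
    omega
  let τ : α ≃ {x : ι // x ∉ Set.range s} := Fintype.equivOfCardEq hcard.symm
  let s' : α → ι := fun a => (τ a).1
  have hs' : Function.Injective s' := Subtype.val_injective.comp τ.injective
  have hss : ∀ a b, s b ≠ s' a := fun a b h => (τ a).2 ⟨b, h⟩
  have hbij : Function.Bijective (Sum.elim s' s) := by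
    rw [Fintype.bijective_iff_injective_and_card]
    refine ⟨?_, Fintype.card_congr e⟩
    rintro (a | b) (a' | b') h
    · exact congrArg _ (hs' h)
    · exact absurd h.symm (hss a b')
    · exact absurd h (hss a' b)
    · exact congrArg _ (hinj h)
  let σ : α ⊕ β ≃ ι := Equiv.ofBijective _ hbij
  let ρ : Equiv.Perm ι := e.symm.trans σ
  have h1 : (((Matrix.fromCols (Es s') v).submatrix id e.symm).submatrix ρ id).det =
      (Matrix.of fun b b' => v (s b) b').det := by
    have h2 : ((Matrix.fromCols (Es s') v).submatrix id e.symm).submatrix ρ id =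
        (Matrix.fromBlocks (1 : Matrix α α K) (Matrix.of fun a b => v (s' a) b) 0
          (Matrix.of fun b b' => v (s b) b')).submatrix e.symm e.symm := by
      ext x y
      rw [Matrix.submatrix_apply, Matrix.submatrix_apply, Matrix.submatrix_apply]
      have h3 : ρ x = σ (e.symm x) := rfl
      rw [h3, id, id]
      rcases e.symm x with a | b <;> rcases e.symm y with a' | b'
      · rw [Matrix.fromCols_apply_inl, Matrix.fromBlocks_apply₁₁, Matrix.one_apply]
        change (if s' a = s' a' then (1 : K) else 0) = _
        by_cases h : a = a'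
        · rw [if_pos h, if_pos (congrArg _ h)]
        · rw [if_neg h, if_neg (fun h' => h (hs' h'))]
      · rfl
      · rw [Matrix.fromCols_apply_inl, Matrix.fromBlocks_apply₂₁, Matrix.zero_apply]
        change (if s b = s' a' then (1 : K) else 0) = _
        rw [if_neg (hss a' b)]
      · rfl
    rw [h2, Matrix.det_submatrix_equiv_self, Matrix.det_fromBlocks_zero₂₁, Matrix.det_one, one_mul]
  rw [Matrix.det_permute] at h1
  refine ⟨s', ?_⟩
  rcases Int.units_eq_one_or (Equiv.Perm.sign ρ) with h | h
  · left
    rw [← h1, h]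
    simp [dt]
  · right
    rw [← h1, h]
    simp [dt]

end la

end Pool.Agent.H58.AC
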