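import Pool.Agent.H58.AC.Wd

/-!
# Determinants of derivatives: the fundamental identity
-/

set_option autoImplicit false
set_option linter.unusedSectionVars false

namespace Pool.Agent.H58.AC

open Pool.Agent.K1H80.EC (IsD isD_left isD_right exists_ext exists_der_ext)
open Pool.Agent.K1H80.AV Pool.Agent.K1H80
open MvPolynomial Module

variable {k F E U : Type} [Field k] [CharZero k] [Field F] [Field E] [Field U] [Algebra k F]
  [Algebra k E] [Algebra k U] [Algebra F E] [Algebra F U] [Algebra E U] [IsScalarTower k F E]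
  [IsScalarTower k E U] [IsScalarTower F E U] {N M r m' ν e R' : ℕ}
  {𝔡 : Dat k F N M r m' ν e R'} {D : Derivation k U U} {Y : 𝔡.A.Co U} {u : Fin M → U}
  {c : Fin M} {z0 : Fin ν → E} {ez : Fin ν → Fin m' → E} {n : ℕ}
  (S : Sys 𝔡 E D Y u c z0 ez n) (c' : Fin N)

/-- the columns of derivatives -/
noncomputable def Vd {g : ℕ} (θ : Fin g → Derivation k U U) (x : Fin M → U) (ζ : Fin m' → U) :
    Matrix (Col M m') (Fin g ⊕ Unit) U :=
  Matrix.of fun q ρ => Sum.elim (fun i => Sum.elim (fun a => θ i (x a)) (fun s => θ i (ζ s)) q)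
    (fun _ => Sum.elim x 0 q) ρ

/-- the determinant of the columns of derivatives and columns of the identity matrix -/
noncomputable def Wd (𝔡 : Dat k F N M r m' ν e R') (θ : Fin 𝔡.A.dim → Derivation k U U)
    (x : Fin M → U) (ζ : Fin m' → U) (s : Fin r → Fin M) : U :=
  dt 𝔡.eq (Matrix.fromRows (Es s) 0) (Vd θ x ζ)

include S in
/-- the dual derivations -/
theorem Sys.exists_theta : ∃ θ : Fin 𝔡.A.dim → Derivation k U U,
    (∀ i (f : F), θ i (algebraMap F U f) = 0) ∧ ∀ i, WW Y (θ i) = Pi.single i 1 := by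
  choose θ h1 h2 using fun i : Fin 𝔡.A.dim => S.g.geo.gen (Pi.single i 1)
  exact ⟨θ, h1, h2⟩

include S in
/-- **The fundamental identity.** -/
theorem det_KW (hc' : Y.1 c' ≠ 0) (θ : Fin 𝔡.A.dim → Derivation k U U)
    (hθ0 : ∀ i (f : F), θ i (algebraMap F U f) = 0) (hθ1 : ∀ i, WW Y (θ i) = Pi.single i 1)
    (I : Fin r → Fin e) (l : Fin R') (s : Fin r → Fin M) :
    (𝔡.mat I l c c' u (fun t => algebraMap E U (z0 t)) (fun t s => algebraMap E U (ez t s))
      (nz 𝔡.A Y c')).det * Wd 𝔡 θ u (fun s => algebraMap E U (z0 (𝔡.b0 s))) s =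
    (Matrix.of fun i j => aeval u (pderiv (s j) (𝔡.eqn (I i)))).det *
      aeval (Sum.elim u fun t => algebraMap E U (z0 t)) (𝔡.p l c') ^ 𝔡.A.dim := by
  classical
  have hcU : CharZero U := charZero_of_injective_algebraMap (algebraMap k U).injective
  set K' : Matrix (Row 𝔡.A r) (Col M m') U := Matrix.of
    (𝔡.ent I l c c' u (fun t => algebraMap E U (z0 t)) (fun t s => algebraMap E U (ez t s))
      (nz 𝔡.A Y c')) with hK'
  set W : Matrix (Col M m') (Row 𝔡.A r) U := Matrix.fromCols (Matrix.fromRows (Es s) 0)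
    (Vd θ u (fun s => algebraMap E U (z0 (𝔡.b0 s)))) with hW
  set ρ : U := aeval (Sum.elim u fun t => algebraMap E U (z0 t)) (𝔡.p l c') with hρ
  -- the equations of the derivations
  have hrel : ∀ t, aeval (Sum.elim u fun t => algebraMap E U (z0 t)) (𝔡.p l t) =
      nz 𝔡.A Y c' t * aeval (Sum.elim u fun t => algebraMap E U (z0 t)) (𝔡.p l c') := by
    intro t
    obtain ⟨s, hs⟩ := S.hp l
    rw [hs, hs, nz]
    field_simp
  have hcol : ∀ i ρ', ∑ q, K' ρ' q * W q (Sum.inr (Sum.inl i)) =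
      𝔡.rhs I l c' (fun _ : F => (0 : U)) u (fun t => algebraMap E U (z0 t)) (nz 𝔡.A Y c')
        (fun j => if j = i then 1 else 0) ρ' := by
    intro i ρ'
    have h1 := 𝔡.eqs (comp_id (k := k) (F := F) (κ := U)) (I := I) (l := l) (c := c) (c' := c')
      (u := u) (z0 := fun t => algebraMap E U (z0 t))
      (ez := fun t s => algebraMap E U (ez t s)) (z := nz 𝔡.A Y c') (d := θ i)
      (isD_left (θ i) (RingHom.id U)) S.hu S.huc hrel
      (fun t => S.hez U (EG.toF F (θ i) (hθ0 i)) t) ρ'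
    have h2 : (fun f => θ i (algebraMap F U f)) = fun _ => (0 : U) := funext (hθ0 i)
    have h3 : (fun j => ∑ t, aeval (fun t => (RingHom.id U) (nz 𝔡.A Y c' t)) (𝔡.A.eta c' j t) *
        θ i (nz 𝔡.A Y c' t)) = fun j => if j = i then (1 : U) else 0 := by
      funext j
      have h4 := congrFun (hθ1 i) j
      rw [WW_sum Y hc', Pi.single_apply] at h4
      exact h4
    rw [h2, h3] at h1
    exact h1
  have hKW : K' * W = Matrix.fromBlocks
      (Matrix.of fun i j => aeval u (pderiv (s j) (𝔡.eqn (I i)))) 0 (K' * W).toBlocks₂₁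
      (Matrix.fromBlocks (ρ • (1 : Matrix (Fin 𝔡.A.dim) (Fin 𝔡.A.dim) U))
        ((K' * W).toBlocks₂₂.toBlocks₁₂) 0 1) := by
    ext ρ1 ρ2
    rcases ρ1 with i | (j | _) <;> rcases ρ2 with i' | (j' | _)
    · rw [Matrix.mul_apply, Fintype.sum_sum_type, Matrix.fromBlocks_apply₁₁]
      simp only [hK', hW, Matrix.of_apply, Matrix.fromCols_apply_inl, Matrix.fromRows_apply_inl,
        Matrix.fromRows_apply_inr, Matrix.zero_apply, mul_zero, Finset.sum_const_zero, add_zero,
        Es, mul_ite, mul_one, Finset.sum_ite_eq', Finset.mem_univ, if_true, Dat.ent]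
    · rw [Matrix.mul_apply, hcol, Matrix.fromBlocks_apply₁₂, Matrix.zero_apply]
      simp only [Dat.rhs, cd_zero, neg_zero]
    · rw [Matrix.mul_apply, Matrix.fromBlocks_apply₁₂, Matrix.zero_apply, Fintype.sum_sum_type]
      have h1 := (S.hsm U u S.hu S.huc).1 (I i)
      simp only [hK', hW, Matrix.of_apply, Matrix.fromCols_apply_inr, Vd, Sum.elim_inr,
        Sum.elim_inl, Pi.zero_apply, mul_zero, Finset.sum_const_zero, add_zero, Dat.ent]
      exact h1
    · rfl
    · rw [Matrix.mul_apply, hcol, Matrix.fromBlocks_apply₂₂, Matrix.fromBlocks_apply₁₁,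
        Matrix.smul_apply, Matrix.one_apply, smul_eq_mul]
      simp only [Dat.rhs, cd_zero, mul_zero, sub_zero, Finset.sum_const_zero]
      rfl
    · rfl
    · rfl
    · rw [Matrix.mul_apply, hcol, Matrix.fromBlocks_apply₂₂, Matrix.fromBlocks_apply₂₁,
        Matrix.zero_apply]
      rfl
    · rw [Matrix.mul_apply, Matrix.fromBlocks_apply₂₂, Matrix.fromBlocks_apply₂₂,
        Fintype.sum_sum_type]
      simp only [hK', hW, Matrix.of_apply, Matrix.fromCols_apply_inr, Vd, Sum.elim_inr,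
        Sum.elim_inl, Pi.zero_apply, mul_zero, Finset.sum_const_zero, add_zero, Dat.ent, ite_mul,
        one_mul, zero_mul, Finset.sum_ite_eq', Finset.mem_univ, if_true]
      exact S.huc
  have hdet : (K' * W).det = (Matrix.of fun i j => aeval u (pderiv (s j) (𝔡.eqn (I i)))).det *
      ρ ^ 𝔡.A.dim := by
    rw [hKW, Matrix.det_fromBlocks_zero₁₂, Matrix.det_fromBlocks_zero₂₁, Matrix.det_smul,
      Matrix.det_one, Matrix.det_one, mul_one, mul_one, Fintype.card_fin]
  rw [← hdet]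
  have h1 : 𝔡.mat I l c c' u (fun t => algebraMap E U (z0 t)) (fun t s => algebraMap E U (ez t s))
      (nz 𝔡.A Y c') = K'.submatrix 𝔡.eq.symm id := rfl
  have h2 : Wd 𝔡 θ u (fun s => algebraMap E U (z0 (𝔡.b0 s))) s =
      (W.submatrix id 𝔡.eq.symm).det := rfl
  rw [h1, h2, ← Matrix.det_mul]
  have h3 : K'.submatrix 𝔡.eq.symm id * W.submatrix id 𝔡.eq.symm =
      (K' * W).submatrix 𝔡.eq.symm 𝔡.eq.symm := by
    rw [← Matrix.submatrix_mul_equiv K' W 𝔡.eq.symm (Equiv.refl _) 𝔡.eq.symm]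
    rfl
  rw [h3, Matrix.det_submatrix_equiv_self]

end Pool.Agent.H58.AC
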