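import Pool.Agent.H58.AC.Wd2

/-!
# Determinants of derivatives: change of coordinates
-/

set_option autoImplicit false
set_option linter.unusedSectionVars false

namespace Pool.Agent.H58.AC

open Pool.Agent.K1H80.EC (IsD isD_left isD_right exists_ext exists_der_ext)
open Pool.Agent.K1H80.AV Pool.Agent.K1H80
open MvPolynomial Module

variable {k F E U : Type} [Field k] [CharZero k] [Field F] [Field E] [Field U] [Algebra k F]
  [Algebra k E] [Algebra k U] [Algebra F E] [Algebra F U] [Algebra E U] [IsScalarTower k F E]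
  [IsScalarTower k E U] [IsScalarTower F E U] {N M r m' ν e R' : ℕ}
  {𝔡 : Dat k F N M r m' ν e R'} {D : Derivation k U U} {Y : 𝔡.A.Co U} {u : Fin M → U}
  {c : Fin M} {z0 : Fin ν → E} {ez : Fin ν → Fin m' → E} {n : ℕ}
  (S : Sys 𝔡 E D Y u c z0 ez n) (c' : Fin N)

/-- scaling of the coordinates -/
theorem Wd_smul (𝔡 : Dat k F N M r m' ν e R') (hM : n + r + 1 = M)
    (θ : Fin 𝔡.A.dim → Derivation k U U) (x : Fin M → U) (ζ : Fin m' → U) (s : Fin r → Fin M)
    {b : U} (hb : b ≠ 0) :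
    Wd 𝔡 θ (fun a => b * x a) ζ s = b ^ (n + 1) * Wd 𝔡 θ x ζ s := by
  classical
  let L : Matrix (Col M m') (Col M m') U :=
    Matrix.diagonal (Sum.elim (fun _ => b) (fun _ => 1))
  let R : Matrix (Row 𝔡.A r) (Row 𝔡.A r) U := Matrix.fromBlocks
    (b⁻¹ • (1 : Matrix (Fin r) (Fin r) U)) 0 0
    (Matrix.fromBlocks 1 0 (Matrix.of fun _ i => b⁻¹ * θ i b) 1)
  have hL : L.det = b ^ M := by
    rw [Matrix.det_diagonal, Fintype.prod_sum_type]
    simp
  have hR : R.det = (b⁻¹) ^ r := by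
    rw [Matrix.det_fromBlocks_zero₂₁, Matrix.det_fromBlocks_zero₁₂, Matrix.det_one, Matrix.det_one,
      Matrix.det_smul, Matrix.det_one, mul_one, mul_one, mul_one, Fintype.card_fin]
  have h1 : Matrix.fromCols (Matrix.fromRows (Es s) 0) (Vd θ (fun a => b * x a) ζ) =
      L * (Matrix.fromCols (Matrix.fromRows (Es s) 0) (Vd θ x ζ) * R) := by
    rw [Matrix.fromCols_mul_fromBlocks]
    ext q ρ
    rw [Matrix.diagonal_mul]
    rcases ρ with j | (i | _)
    · rw [Matrix.fromCols_apply_inl, Matrix.fromCols_apply_inl, Matrix.mul_zero, add_zero,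
        Matrix.mul_smul, Matrix.mul_one, Matrix.smul_apply, smul_eq_mul]
      rcases q with a | s'
      · simp only [Sum.elim_inl, Matrix.fromRows_apply_inl]
        rw [← mul_assoc, mul_inv_cancel₀ hb, one_mul]
      · simp only [Sum.elim_inr, Matrix.fromRows_apply_inr, Matrix.zero_apply, mul_zero]
    · rw [Matrix.fromCols_apply_inr, Matrix.fromCols_apply_inr, Matrix.mul_zero, zero_add,
        Matrix.mul_apply, Fintype.sum_sum_type]
      rcases q with a | s'
      · simp only [Vd, Matrix.of_apply, Sum.elim_inl, Sum.elim_inr, Matrix.fromBlocks_apply₁₁,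
          Matrix.fromBlocks_apply₂₁, Matrix.one_apply, mul_ite, mul_one, mul_zero,
          Finset.sum_ite_eq', Finset.mem_univ, if_true, Finset.univ_unique, Finset.sum_const,
          Finset.card_singleton, one_smul, (θ i).leibniz, smul_eq_mul]
        rw [mul_add, add_comm (b * _)]
        have h3 : b * (x a * (b⁻¹ * θ i b)) = x a * θ i b := by field_simp
        rw [h3]
        ring
      · simp only [Vd, Matrix.of_apply, Sum.elim_inl, Sum.elim_inr, Matrix.fromBlocks_apply₁₁,
          Matrix.fromBlocks_apply₂₁, Matrix.one_apply, mul_ite, mul_one, mul_zero,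
          Finset.sum_ite_eq', Finset.mem_univ, if_true, Finset.univ_unique, Finset.sum_const,
          Finset.card_singleton, one_smul, Pi.zero_apply, zero_mul, add_zero, one_mul]
    · rw [Matrix.fromCols_apply_inr, Matrix.fromCols_apply_inr, Matrix.mul_zero, zero_add,
        Matrix.mul_apply, Fintype.sum_sum_type]
      rcases q with a | s'
      · simp [Vd]
      · simp [Vd]
  have h2 : Wd 𝔡 θ (fun a => b * x a) ζ s = (L * (Matrix.fromCols (Matrix.fromRows (Es s) 0)
      (Vd θ x ζ)).submatrix id 𝔡.eq.symm * R.submatrix 𝔡.eq.symm 𝔡.eq.symm).det := by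
    unfold Wd dt
    rw [h1, Matrix.mul_assoc L, Matrix.submatrix_mul_equiv]
    rw [← Matrix.submatrix_mul_equiv L _ id (Equiv.refl _) 𝔡.eq.symm]
    rfl
  rw [h2, Matrix.det_mul, Matrix.det_mul, Matrix.det_submatrix_equiv_self, hL, hR]
  have h3 : b ^ M = b ^ (n + 1) * b ^ r := by
    rw [← pow_add, ← hM]
    congr 1
    omega
  rw [h3]
  have h4 : Wd 𝔡 θ x ζ s = ((Matrix.fromCols (Matrix.fromRows (Es s) 0)
      (Vd θ x ζ)).submatrix id 𝔡.eq.symm).det := rfl
  rw [h4]
  have h5 : b ^ r * b⁻¹ ^ r = 1 := by rw [← mul_pow, mul_inv_cancel₀ hb, one_pow]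
  linear_combination (b ^ (n + 1) * ((Matrix.fromCols (Matrix.fromRows (Es s) 0)
      (Vd θ x ζ)).submatrix id 𝔡.eq.symm).det) * h5

include S in
theorem rel_U (hc' : Y.1 c' ≠ 0) (l : Fin R') (t : Fin N) :
    aeval (Sum.elim u fun t => algebraMap E U (z0 t)) (𝔡.p l t) =
      nz 𝔡.A Y c' t * aeval (Sum.elim u fun t => algebraMap E U (z0 t)) (𝔡.p l c') := by
  obtain ⟨s, hs⟩ := S.hp l
  rw [hs, hs, nz]
  field_simp

include S in
/-- the derivations solve the equations -/
theorem eqs_theta (hc' : Y.1 c' ≠ 0) (θ : Derivation k U U)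
    (hθ0 : ∀ (f : F), θ (algebraMap F U f) = 0) (I : Fin r → Fin e) (l : Fin R') (j : Fin 𝔡.A.dim) :
    ∑ q, 𝔡.ent I l c c' u (fun t => algebraMap E U (z0 t)) (fun t s => algebraMap E U (ez t s))
      (nz 𝔡.A Y c') (Sum.inr (Sum.inl j)) q * Sum.elim (fun a => θ (u a))
        (fun s => θ (algebraMap E U (z0 (𝔡.b0 s)))) q =
      aeval (Sum.elim u fun t => algebraMap E U (z0 t)) (𝔡.p l c') * WW Y θ j := by
  have hcU : CharZero U := charZero_of_injective_algebraMap (algebraMap k U).injective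
  have h1 := 𝔡.eqs (comp_id (k := k) (F := F) (κ := U)) (I := I) (l := l) (c := c) (c' := c')
    (u := u) (z0 := fun t => algebraMap E U (z0 t))
    (ez := fun t s => algebraMap E U (ez t s)) (z := nz 𝔡.A Y c') (d := θ)
    (isD_left θ (RingHom.id U)) S.hu S.huc (rel_U S c' hc' l)
    (fun t => S.hez U (EG.toF F θ hθ0) t) (Sum.inr (Sum.inl j))
  have h2 : (fun f => θ (algebraMap F U f)) = fun _ => (0 : U) := funext hθ0
  refine h1.trans ?_
  simp only [Dat.rhs]
  rw [h2, WW_sum Y hc']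
  simp only [cd_zero, mul_zero, sub_zero, Finset.sum_const_zero]
  rfl

include S in
/-- the columns of derivatives are independent -/
theorem indep_Vd (θ : Fin 𝔡.A.dim → Derivation k U U)
    (hθ0 : ∀ i (f : F), θ i (algebraMap F U f) = 0) (hθ1 : ∀ i, WW Y (θ i) = Pi.single i 1)
    (w : Fin 𝔡.A.dim ⊕ Unit → U)
    (hw : (Vd θ u (fun s => algebraMap E U (z0 (𝔡.b0 s)))).mulVec w = 0) : w = 0 := by
  classical
  obtain ⟨c', hc'u⟩ := Y.2.1
  have hc' : Y.1 c' ≠ 0 := hc'u.ne_zero
  have hcU : CharZero U := charZero_of_injective_algebraMap (algebraMap k U).injective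
  have h0 : ∀ q, ∑ i, Sum.elim (fun a => θ i (u a))
      (fun s => θ i (algebraMap E U (z0 (𝔡.b0 s)))) q * w (Sum.inl i) +
      (Sum.elim u 0 : Col M m' → U) q * w (Sum.inr ()) = 0 := by
    intro q
    have h1 := congrFun hw q
    rw [Matrix.mulVec_apply_eq_sum, Fintype.sum_sum_type, Fintype.sum_unique
      (fun a : Unit => Vd θ u (fun s => (algebraMap E U) (z0 (𝔡.b0 s))) q (Sum.inr a) *
        w (Sum.inr a))] at h1
    exact h1
  have h1 : w (Sum.inr ()) = 0 := by
    have h2 := h0 (Sum.inl c)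
    simp only [Sum.elim_inl, S.huc, one_mul] at h2
    rw [Finset.sum_eq_zero (fun i _ => by rw [(θ i).map_one_eq_zero, zero_mul]), zero_add] at h2
    exact h2
  obtain ⟨l, t, hl⟩ := S.hbp U u S.hu S.huc
  have hl' : aeval (Sum.elim u fun t => algebraMap E U (z0 t)) (𝔡.p l c') ≠ 0 := by
    intro h2
    apply hl
    rw [rel_U S c' hc', h2, mul_zero]
  obtain ⟨I, -⟩ := exists_rows 𝔡.eqn u (S.hsm U u S.hu S.huc).2 S.hM
  have h2 : ∀ j, w (Sum.inl j) = 0 := by
    intro j
    have h3 : ∑ i, w (Sum.inl i) * ∑ q, 𝔡.ent I l c c' u (fun t => algebraMap E U (z0 t))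
        (fun t s => algebraMap E U (ez t s)) (nz 𝔡.A Y c') (Sum.inr (Sum.inl j)) q *
        Sum.elim (fun a => θ i (u a)) (fun s => θ i (algebraMap E U (z0 (𝔡.b0 s)))) q = 0 := by
      simp only [Finset.mul_sum]
      rw [Finset.sum_comm]
      refine Finset.sum_eq_zero fun q _ => ?_
      have h4 := h0 q
      rw [h1, mul_zero, add_zero] at h4
      have h5 : ∀ i, w (Sum.inl i) * (𝔡.ent I l c c' u (fun t => algebraMap E U (z0 t))
          (fun t s => algebraMap E U (ez t s)) (nz 𝔡.A Y c') (Sum.inr (Sum.inl j)) q *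
          Sum.elim (fun a => θ i (u a)) (fun s => θ i (algebraMap E U (z0 (𝔡.b0 s)))) q) =
          𝔡.ent I l c c' u (fun t => algebraMap E U (z0 t))
          (fun t s => algebraMap E U (ez t s)) (nz 𝔡.A Y c') (Sum.inr (Sum.inl j)) q *
          (Sum.elim (fun a => θ i (u a)) (fun s => θ i (algebraMap E U (z0 (𝔡.b0 s)))) q *
            w (Sum.inl i)) := fun i => by ring
      rw [Finset.sum_congr rfl fun i _ => h5 i, ← Finset.mul_sum, h4, mul_zero]
    rw [Finset.sum_congr rfl fun i _ => by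
      rw [eqs_theta S c' hc' (θ i) (hθ0 i) I l j, hθ1, Pi.single_apply]] at h3
    rw [Finset.sum_eq_single j] at h3
    · rw [if_pos rfl, mul_one] at h3
      exact (mul_eq_zero.1 h3).resolve_right hl'
    · intro i _ hi
      rw [if_neg (Ne.symm hi), mul_zero, mul_zero]
    · intro h; exact absurd (Finset.mem_univ j) h
  funext x
  rcases x with i | x
  · exact h2 i
  · exact h1

include S in
/-- **The determinants and the Plücker coordinates of the tangent space.** -/
theorem Wd_basis (θ : Fin 𝔡.A.dim → Derivation k U U)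
    (hθ0 : ∀ i (f : F), θ i (algebraMap F U f) = 0) (hθ1 : ∀ i, WW Y (θ i) = Pi.single i 1)
    (e'' : Fin r ⊕ Fin (n + 1) ≃ Fin M) (T : Fin (n + 1) → Fin M → U)
    (hT : ∀ j, T j ∈ tangent 𝔡.eqn u) (hTi : LinearIndependent U T) :
    ∃ γ : U, γ ≠ 0 ∧ ∀ s, Wd 𝔡 θ u (fun s => algebraMap E U (z0 (𝔡.b0 s))) s =
      γ * dt e'' (Es s) (Matrix.of fun a j => T j a) := by
  classical
  have hcU : CharZero U := charZero_of_injective_algebraMap (algebraMap k U).injective
  obtain ⟨hu1, hu2⟩ := S.hsm U u S.hu S.huc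
  -- the columns
  have hcol : ∀ ρ : Fin 𝔡.A.dim ⊕ Unit, (fun a => Vd (m' := m') θ u
      (fun s => algebraMap E U (z0 (𝔡.b0 s))) (Sum.inl a) ρ) ∈ tangent 𝔡.eqn u := by
    rintro (i | _)
    · intro i'
      have h1 := chain_mv (k := F) (isD_left (θ i) (RingHom.id U)) (hθ0 i) u (𝔡.eqn i')
      have h2 : θ i (aeval u (𝔡.eqn i')) = 0 := by rw [S.hu i', map_zero]
      exact h1.symm.trans h2
    · exact hu1
  have hspan : Submodule.span U (Set.range T) = tangent 𝔡.eqn u := by
    refine Submodule.eq_of_le_of_finrank_le (Submodule.span_le.2 ?_) ?_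
    · rintro _ ⟨j, rfl⟩
      exact hT j
    · rw [hu2, finrank_span_eq_card hTi, Fintype.card_fin]
  have hex : ∀ ρ, ∃ β : Fin (n + 1) → U, ∑ j, β j • T j = (fun a => Vd (m' := m') θ u
      (fun s => algebraMap E U (z0 (𝔡.b0 s))) (Sum.inl a) ρ) := by
    intro ρ
    have h1 := hcol ρ
    rw [← hspan, Submodule.mem_span_range_iff_exists_fun] at h1
    exact h1
  choose β hβ using hex
  let C : Matrix (Fin (n + 1) ⊕ Fin m') (Fin 𝔡.A.dim ⊕ Unit) U :=
    Matrix.of fun x ρ => Sum.elim (fun j => β ρ j)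
      (fun s' => Vd θ u (fun s => algebraMap E U (z0 (𝔡.b0 s))) (Sum.inr s') ρ) x
  have hC : Vd θ u (fun s => algebraMap E U (z0 (𝔡.b0 s))) =
      Matrix.fromBlocks (Matrix.of fun a j => T j a) 0 0 (1 : Matrix (Fin m') (Fin m') U) * C := by
    ext q ρ
    rw [Matrix.mul_apply, Fintype.sum_sum_type]
    rcases q with a | s'
    · have h1 := congrFun (hβ ρ) a
      rw [Finset.sum_apply] at h1
      rw [← h1]
      simp only [Matrix.fromBlocks_apply₁₁, Matrix.fromBlocks_apply₁₂, Matrix.zero_apply, zero_mul,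
        Finset.sum_const_zero, add_zero, C, Matrix.of_apply, Sum.elim_inl, Pi.smul_apply,
        smul_eq_mul]
      exact Finset.sum_congr rfl fun j _ => mul_comm _ _
    · simp only [Matrix.fromBlocks_apply₂₁, Matrix.fromBlocks_apply₂₂, Matrix.zero_apply, zero_mul,
        Finset.sum_const_zero, zero_add, C, Matrix.of_apply, Sum.elim_inr, Matrix.one_apply,
        ite_mul, one_mul, Finset.sum_ite_eq, Finset.mem_univ, if_true]
  obtain ⟨γ, hγ0, hγ⟩ := dt_basis 𝔡.eq ((Equiv.sumAssoc (Fin r) (Fin (n + 1)) (Fin m')).symm.trans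
    (e''.sumCongr (Equiv.refl (Fin m')))) _ _ C hC (fun w hw => indep_Vd S θ hθ0 hθ1 w hw)
  refine ⟨γ, hγ0, fun s => ?_⟩
  have h1 := hγ (Matrix.fromRows (Es s) 0)
  rw [dt_block] at h1
  exact h1

end Pool.Agent.H58.AC
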